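import Pool.Agent.YUR.Defs

/-!
# [YUL] The local blow-up analysis of the Euler equations on surfaces: definitions

The general version of the structures `Slc`, `Pic` of `YUR/Defs.lean`: the area form has a density `m`
in the moving frame, the velocity `V` satisfies `m V = (W₁, W₂) + r^{1+α} perp s`, the quadratic part of `V`
(coefficients `a`, `b`) is a general quadratic vector field and `lapG s = p η` up to a small error.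
-/

open MeasureTheory Set Filter Topology
open scoped ContDiff

namespace Pool.Agent.YUL

open Pool.Agent.YUD Pool.Agent.YUT Pool.Agent.YUB Pool.Agent.YUR

/-- the linear form with the coefficients `k` -/
noncomputable def lin (k : Fin 2 → ℝ) (z : ℂ) : ℝ := k 0 * z.re + k 1 * z.im

/-- the quadratic form with the coefficients `k` -/
noncomputable def qua (k : Fin 3 → ℝ) (z : ℂ) : ℝ :=
  k 0 * z.re ^ 2 + k 1 * (z.re * z.im) + k 2 * z.im ^ 2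

/-- the derivative of `f` along the vector field `(W₁, W₂)` -/
noncomputable def dv (W₁ W₂ f : ℂ → ℝ) (z : ℂ) : ℝ := W₁ z * dx f z + W₂ z * dy f z

/-- the picture on a surface at one time, at scale `r` -/
structure GSlc (α C R r : ℝ) (a b : Fin 3 → ℝ) (γ μ ν p : ℝ) (s η m W₁ W₂ : ℂ → ℝ) : Prop where
  a_le : ∀ i, |a i| ≤ C
  b_le : ∀ i, |b i| ≤ C
  γ_lo : 1 ≤ C * γ
  γ_le : γ ≤ C
  μ_le : |μ| ≤ C
  ν_le : |ν| ≤ C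
  p_lo : 1 ≤ C * p
  p_le : p ≤ C
  s_c2 : ContDiffOn ℝ 2 s (Metric.ball 0 R)
  s_le : ∀ z ∈ Metric.ball (0 : ℂ) R, |s z| ≤ C * ‖z‖ ^ (3 + α)
  ds_le : ∀ z ∈ Metric.ball (0 : ℂ) R, ‖fderiv ℝ s z‖ ≤ C * ‖z‖ ^ (2 + α)
  η_c1 : ContDiffOn ℝ 1 η (Metric.ball 0 R)
  η_le : ∀ z ∈ Metric.ball (0 : ℂ) R, |η z| ≤ C * ‖z‖ ^ (1 + α)
  dη_le : ∀ z ∈ Metric.ball (0 : ℂ) R, ∀ z' ∈ Metric.ball (0 : ℂ) R,
    ‖fderiv ℝ η z - fderiv ℝ η z'‖ ≤ C * ‖z - z'‖ ^ α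
  lap_s : ∀ z ∈ Metric.ball (0 : ℂ) R,
    |lapG γ μ ν s z - p * η z| ≤ C * r ^ (1 - α) * ‖z‖ ^ 2
  m_cont : ContinuousOn m (Metric.ball 0 R)
  W₁_cont : ContinuousOn W₁ (Metric.ball 0 R)
  W₂_cont : ContinuousOn W₂ (Metric.ball 0 R)
  m_eq : ∃ (m₁ : Fin 2 → ℝ) (m₂ : Fin 3 → ℝ), (∀ i, |m₁ i| ≤ C) ∧ (∀ i, |m₂ i| ≤ C) ∧
    ∀ z ∈ Metric.ball (0 : ℂ) R, |m z - 1 - r * lin m₁ z - r ^ 2 * qua m₂ z| ≤ C * r ^ 3 * ‖z‖ ^ 3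
  W₁_eq : ∃ c : Fin 4 → ℝ, (∀ i, |c i| ≤ C) ∧
    ∀ z ∈ Metric.ball (0 : ℂ) R, |W₁ z - r * qua a z - r ^ 2 * cub c z| ≤ C * r ^ 3 * ‖z‖ ^ 4
  W₂_eq : ∃ c : Fin 4 → ℝ, (∀ i, |c i| ≤ C) ∧
    ∀ z ∈ Metric.ball (0 : ℂ) R, |W₂ z - r * qua b z - r ^ 2 * cub c z| ≤ C * r ^ 3 * ‖z‖ ^ 4

/-- the picture of the flow on a surface near one particle at scale `r`: `w` is the initial vorticity
near the particle (in the rotated and rescaled label variable), `m 0` the initial density, `Y t y` the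
position of the label `y` in the moving frame. All functions of `t` are extended to `t < 0`. -/
structure GPic (α C R r β g : ℝ) (w : ℂ → ℝ) (a b : ℝ → Fin 3 → ℝ) (γ μ ν p : ℝ → ℝ)
    (s η m W₁ W₂ : ℝ → ℂ → ℝ) (Y : ℝ → ℂ → ℂ) : Prop where
  one_le : 1 ≤ C
  r_pos : 0 < r
  r_le : r ≤ 1
  β_pos : 0 < β
  β_le : β ≤ C
  g_le : |g| ≤ C
  slc : ∀ t, GSlc α C R r (a t) (b t) (γ t) (μ t) (ν t) (p t) (s t) (η t) (m t) (W₁ t) (W₂ t)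
  a_cont : Continuous a
  b_cont : Continuous b
  γ_cont : Continuous γ
  p_cont : Continuous p
  start : ∀ y, ‖y‖ < R / C → Y 0 y = y
  w_eq : ∀ y, ‖y‖ < R / C → w y = omg α r β g (η 0) y
  Y_le : ∀ t, 0 ≤ t → ∀ y, ‖y‖ < R / C → ‖Y t y‖ ≤ C * ‖y‖
  ode : ∀ t, 0 ≤ t → ∀ y, ‖y‖ < R / C → ∃ v : ℂ,
    HasDerivWithinAt (fun t' => Y t' y) v (Ici 0) t ∧
    |v.re - r * qua (a t) (Y t y)| ≤ C * (r ^ (1 + α) * ‖Y t y‖ ^ (2 + α) + r ^ 2 * ‖Y t y‖ ^ 3) ∧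
    |v.im - r * qua (b t) (Y t y)| ≤ C * (r ^ (1 + α) * ‖Y t y‖ ^ (2 + α) + r ^ 2 * ‖Y t y‖ ^ 3)
  vort : ∀ t, 0 ≤ t → ∀ y, ‖y‖ < R / C →
    β * (Y t y).im + r ^ α * η t (Y t y) = β * y.im + r ^ α * η 0 y
  div_le : ∀ t, 0 ≤ t → |∫ τ in (0 : ℝ)..t, (2 * a τ 0 + b τ 1)| ≤ C ∧
    |∫ τ in (0 : ℝ)..t, (a τ 1 + 2 * b τ 2)| ≤ C
  transport : ∀ H : ℝ → ℂ → ℝ, ContDiff ℝ 1 (fun q : ℝ × ℂ => H q.1 q.2) →
    (∀ t z, R / C ≤ ‖z‖ → H t z = 0) → ∀ t, 0 ≤ t →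
      (∫ z, omg α r β g (η t) z * H t z * m t z) - (∫ z, omg α r β g (η 0) z * H 0 z * m 0 z) =
        ∫ τ in (0 : ℝ)..t, ∫ z, omg α r β g (η τ) z *
          (deriv (fun t' => H t' z) τ * m τ z + dv (W₁ τ) (W₂ τ) (H τ) z +
            r ^ (1 + α) * pb (s τ) (H τ) z)

end Pool.Agent.YUL
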