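import Pool.Agent.YUL.Defs
import Pool.Agent.YUR.S5

open MeasureTheory Set Filter Topology
open scoped ContDiff

namespace Pool.Agent.YUL

open Pool.Agent.YUD Pool.Agent.YUT Pool.Agent.YUB Pool.Agent.YUR

theorem gm_smooth {B κ S Λs τ N : ℝ} {a : ℕ → ℝ → ℝ → ℝ} {e : ℝ → ℝ → ℝ}
    (hp : Packet B κ S Λs τ N a e) (j : ℕ) (Λ : ℝ) : ContDiff ℝ ∞ (a j Λ) := by
  have h1 : ContDiff ℝ ∞ (fun x : ℝ => ((Λ, x) : ℝ × ℝ)) := contDiff_const.prodMk contDiff_id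
  exact (hp.smooth j).comp h1

theorem gm_int1 {N : ℝ} {f : ℝ → ℝ} (hf : Continuous f) (h0 : ∀ x, N ≤ |x| → f x = 0) :
    Integrable f := by
  apply hf.integrable_of_hasCompactSupport
  apply HasCompactSupport.intro (isCompact_Icc (a := -N) (b := N))
  intro x hx
  apply h0
  rw [mem_Icc, not_and_or, not_le, not_le] at hx
  rcases hx with hx | hx
  · rw [le_abs]
    right
    linarith
  · rw [le_abs]
    left
    linarith

theorem gm_momk {B κ S Λs τ N : ℝ} {a : ℕ → ℝ → ℝ → ℝ} {e : ℝ → ℝ → ℝ}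
    (hp : Packet B κ S Λs τ N a e) {j k : ℕ} (hj : j ≤ 8) (hk : k ≤ 5) {Λ : ℝ} (h0 : 0 ≤ Λ)
    (h1 : Λ ≤ Λs) : ∫ x, (1 + |x|) ^ k * |a j Λ x| ≤ S := by
  refine le_trans ?_ (hp.mom j hj Λ h0 h1)
  apply integral_mono_of_nonneg
  · exact Eventually.of_forall fun x => by positivity
  · have hc : Continuous fun x : ℝ => (1 + |x|) ^ 5 * |a j Λ x| := by
      have := (gm_smooth hp j Λ).continuous
      fun_prop
    apply gm_int1 (N := N) hc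
    intro x hx
    rw [hp.supp j Λ x hx, abs_zero, mul_zero]
  · refine Eventually.of_forall fun x => ?_
    have h2 : (1 : ℝ) ≤ 1 + |x| := by linarith [abs_nonneg x]
    exact mul_le_mul_of_nonneg_right (pow_le_pow_right₀ h2 hk) (abs_nonneg _)

theorem gm_vk1 {D I P : ℝ} {m : ℕ} (hm : 1 ≤ m) (hP : 1 ≤ P) (hI : 0 ≤ I)
    (h : I * P ^ m ≤ D * P) : I ≤ D := by
  have h1 : P ≤ P ^ m := le_self_pow₀ hP (by omega)
  have h2 : I * P ≤ D * P := (mul_le_mul_of_nonneg_left h1 hI).trans h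
  exact le_of_mul_le_mul_right h2 (by linarith)

theorem gm_vk0 {D I P : ℝ} {m : ℕ} (hP : 1 ≤ P) (hI : 0 ≤ I) (h : I * P ^ m ≤ D * P) :
    I ≤ D * P := by
  have h1 : 1 ≤ P ^ m := one_le_pow₀ hP
  exact (le_mul_of_one_le_right hI h1).trans h

theorem gm_vk3 {D I P : ℝ} {m : ℕ} (hm : 4 ≤ m) (hP : 1 ≤ P) (hI : 0 ≤ I)
    (h : I * P ^ m ≤ D * P) : P ^ 3 * I ≤ D := by
  have h1 : P ^ 4 ≤ P ^ m := pow_le_pow_right₀ hP hm
  have h2 : (P ^ 3 * I) * P ≤ D * P := by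
    calc (P ^ 3 * I) * P = I * P ^ 4 := by ring
      _ ≤ I * P ^ m := mul_le_mul_of_nonneg_left h1 hI
      _ ≤ D * P := h
  exact le_of_mul_le_mul_right h2 (by linarith)

/-- `∫ η a_j v^(k)`, `1 ≤ k` -/
theorem gm_eta {α C S : ℝ} (hα : 0 < α) (hα1 : α < 1) (hC : 1 ≤ C) (hS : 0 ≤ S) :
    ∃ C₁ : ℝ, 0 ≤ C₁ ∧ ∀ (B κ Λs τ N : ℝ) (a : ℕ → ℝ → ℝ → ℝ) (e : ℝ → ℝ → ℝ) (P : ℝ),
      Packet B κ S Λs τ N a e → 1 ≤ P → 1 ≤ N → ∀ (R r : ℝ) (qa qb : Fin 3 → ℝ) (γ μ ν p : ℝ)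
        (s η m W₁ W₂ : ℂ → ℝ), GSlc α C R r qa qb γ μ ν p s η m W₁ W₂ → 2 * (N + 2 * P) ≤ R →
          ∀ Λ, 0 ≤ Λ → Λ ≤ Λs → ∀ j k : ℕ, j ≤ 6 → 1 ≤ k → k ≤ 5 →
            |∫ z, η z * (a j Λ z.re * vk k P z.im)| ≤ C₁ := by
  obtain ⟨D, hD, hvk⟩ := vk_int
  refine ⟨C * (S * D), by positivity, ?_⟩
  intro B κ Λs τ N a e P hp hP hN R r qa qb γ μ ν p s η m W₁ W₂ hs hR Λ h0 h1 j k hj hm1 hm5
  have hP0 : 0 < P := by linarith
  obtain ⟨v1, v2, v3, v4, v5⟩ := vk_facts hP0 k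
  have hl := line_le (α := α) (C := C) (R := R) (N := N) (P := P) hα hα1 (by linarith)
    (by linarith) hP0 hR hs.η_c1 hs.dη_le (gm_smooth hp j Λ).continuous (hp.supp j Λ)
    v1.continuous v3 v4
    (by
      have h2 := packet_van hp 0 j (by omega) Λ
      simpa using h2)
    (by
      have h2 := packet_van hp 1 j (by omega) Λ
      simpa using h2)
  refine hl.trans ?_
  have e1 := gm_momk hp (show j ≤ 8 by omega) (show 2 ≤ 5 by norm_num) h0 h1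
  have e2 : 0 ≤ ∫ y, |vk k P y| := integral_nonneg fun y => abs_nonneg _
  have e3 : ∫ y, |vk k P y| ≤ D := gm_vk1 hm1 hP e2 (hvk k hm5 P hP).2
  apply mul_le_mul_of_nonneg_left _ (by linarith)
  exact mul_le_mul e1 e3 e2 hS

/-- `∫ s a_j v^(k)` for `k = 4, 5` -/
theorem gm_s {α C S : ℝ} (hα : 0 < α) (hα1 : α < 1) (hC : 1 ≤ C) (hS : 0 ≤ S) :
    ∃ C₁ : ℝ, 0 ≤ C₁ ∧ ∀ (B κ Λs τ N : ℝ) (a : ℕ → ℝ → ℝ → ℝ) (e : ℝ → ℝ → ℝ) (P : ℝ),
      Packet B κ S Λs τ N a e → 1 ≤ P → 1 ≤ N → ∀ (R r : ℝ) (qa qb : Fin 3 → ℝ) (γ μ ν p : ℝ)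
        (s η m W₁ W₂ : ℂ → ℝ), GSlc α C R r qa qb γ μ ν p s η m W₁ W₂ → 2 * (N + 2 * P) ≤ R →
          ∀ Λ, 0 ≤ Λ → Λ ≤ Λs → ∀ j k : ℕ, j ≤ 8 → (k = 4 ∨ k = 5) →
            |∫ z, s z * (a j Λ z.re * vk k P z.im)| ≤ C₁ * P ^ α := by
  obtain ⟨D, hD, hvk⟩ := vk_int
  refine ⟨C * (2 : ℝ) ^ (3 + α) * (S * D), by positivity, ?_⟩
  intro B κ Λs τ N a e P hp hP hN R r qa qb γ μ ν p s η m W₁ W₂ hs hR Λ h0 h1 j k hj hm
  have hP0 : 0 < P := by linarith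
  have hm4 : 4 ≤ k := by omega
  have hm5 : k ≤ 5 := by omega
  obtain ⟨v1, v2, v3, v4, v5⟩ := vk_facts hP0 k
  have hl := direct_le (α := α) (C := C) (R := R) (N := N) (P := P) hα hα1 (by linarith)
    (by linarith) hP hR hs.s_c2.continuousOn hs.s_le (gm_smooth hp j Λ).continuous (hp.supp j Λ)
    v1.continuous v3 v4
  refine hl.trans ?_
  have e1 := hp.mom j hj Λ h0 h1
  have e2 : 0 ≤ ∫ y, |vk k P y| := integral_nonneg fun y => abs_nonneg _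
  have e3 : P ^ 3 * ∫ y, |vk k P y| ≤ D := gm_vk3 hm4 hP e2 (hvk k hm5 P hP).2
  have e4 : (2 * P) ^ (3 + α) = (2 : ℝ) ^ (3 + α) * (P ^ 3 * P ^ α) := by
    rw [Real.mul_rpow (by norm_num) hP0.le, Real.rpow_add hP0 3 α]
    norm_num
  have hPα : 0 ≤ P ^ α := Real.rpow_nonneg hP0.le α
  have e5 : (∫ x, (1 + |x|) ^ 5 * |a j Λ x|) * (P ^ 3 * ∫ y, |vk k P y|) ≤ S * D :=
    mul_le_mul e1 e3 (by positivity) hS
  rw [e4]
  calc C * ((2 : ℝ) ^ (3 + α) * (P ^ 3 * P ^ α)) *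
        ((∫ x, (1 + |x|) ^ 5 * |a j Λ x|) * ∫ y, |vk k P y|)
      = (C * (2 : ℝ) ^ (3 + α) * P ^ α) *
        ((∫ x, (1 + |x|) ^ 5 * |a j Λ x|) * (P ^ 3 * ∫ y, |vk k P y|)) := by ring
    _ ≤ (C * (2 : ℝ) ^ (3 + α) * P ^ α) * (S * D) := by
        apply mul_le_mul_of_nonneg_left e5
        positivity
    _ = C * (2 : ℝ) ^ (3 + α) * (S * D) * P ^ α := by ring

/-- a continuous function on an open set times a smooth function with compact support in this set -/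
theorem gm_int {U : Set ℂ} (hU : IsOpen U) {u F : ℂ → ℝ} (hF : Continuous F)
    (hc : HasCompactSupport F) (hs : tsupport F ⊆ U) (hu : ContinuousOn u U) :
    Integrable (fun z => u z * F z) := by
  have h1 : ContDiff ℝ ((0 : ℕ) : WithTop ℕ∞) F := by
    rw [Nat.cast_zero, contDiff_zero]
    exact hF
  have h2 : ContDiffOn ℝ ((0 : ℕ) : WithTop ℕ∞) u U := by
    rw [Nat.cast_zero, contDiffOn_zero]
    exact hu
  have h3 : Continuous (fun z => F z * u z) := (contDiff_cut (n := 0) hU h1 hs h2).continuous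
  have h4 := h3.integrable_of_hasCompactSupport (μ := volume) hc.mul_right
  refine h4.congr (Filter.Eventually.of_forall fun z => ?_)
  exact mul_comm _ _

theorem gm_cdx {U : Set ℂ} (hU : IsOpen U) {u : ℂ → ℝ} (hu : ContDiffOn ℝ 1 u U) :
    ContinuousOn (dx u) U :=
  (contDiffOn_dx (n := 0) hU hu).continuousOn

theorem gm_cdy {U : Set ℂ} (hU : IsOpen U) {u : ℂ → ℝ} (hu : ContDiffOn ℝ 1 u U) :
    ContinuousOn (dy u) U :=
  (contDiffOn_dy (n := 0) hU hu).continuousOn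

theorem gm_lapc {U : Set ℂ} (hU : IsOpen U) {s : ℂ → ℝ} (γ μ ν : ℝ) (hs : ContDiffOn ℝ 2 s U) :
    ContinuousOn (lapG γ μ ν s) U := by
  have hs' : ContDiffOn ℝ (1 + 1 : ℕ) s U := hs
  have h1 : ContDiffOn ℝ 1 (dx s) U := contDiffOn_dx (n := 1) hU hs'
  have h2 : ContDiffOn ℝ 1 (dy s) U := contDiffOn_dy (n := 1) hU hs'
  have h3 := gm_cdx hU h1
  have h4 := gm_cdx hU h2
  have h5 := gm_cdy hU h2
  exact ((continuousOn_const.mul h3).add (continuousOn_const.mul h4)).add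
    (continuousOn_const.mul h5)

/-- the error of the equation for `s` -/
theorem gm_lap {α C R r : ℝ} {qa qb : Fin 3 → ℝ} {γ μ ν p : ℝ} {s η m W₁ W₂ : ℂ → ℝ}
    (h : GSlc α C R r qa qb γ μ ν p s η m W₁ W₂) (hC : 0 ≤ C) (hr : 0 < r) {ρ : ℝ}
    (hρ : ρ < R) {F : ℂ → ℝ} (hF : Continuous F) (hc : HasCompactSupport F)
    (hsu : tsupport F ⊆ Metric.closedBall 0 ρ) :
    |(∫ z, lapG γ μ ν s z * F z) - p * ∫ z, η z * F z| ≤
      C * ρ ^ 2 * (∫ z, |F z|) * r ^ (1 - α) := by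
  have hU : IsOpen (Metric.ball (0 : ℂ) R) := Metric.isOpen_ball
  have hsub : tsupport F ⊆ Metric.ball 0 R := hsu.trans (Metric.closedBall_subset_ball hρ)
  have i1 : Integrable (fun z => lapG γ μ ν s z * F z) :=
    gm_int hU hF hc hsub (gm_lapc hU γ μ ν h.s_c2)
  have i2 : Integrable (fun z => η z * F z) := gm_int hU hF hc hsub h.η_c1.continuousOn
  have hr0 : 0 ≤ r ^ (1 - α) := Real.rpow_nonneg hr.le _
  have iF : Integrable (fun z => |F z|) := (hF.integrable_of_hasCompactSupport hc).abs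
  have e1 : (∫ z, lapG γ μ ν s z * F z) - p * ∫ z, η z * F z =
      ∫ z, (lapG γ μ ν s z * F z - p * (η z * F z)) := by
    rw [integral_sub i1 (i2.const_mul p), integral_const_mul]
  have e2 : C * ρ ^ 2 * (∫ z, |F z|) * r ^ (1 - α) =
      ∫ z, (C * ρ ^ 2 * r ^ (1 - α)) * |F z| := by
    rw [integral_const_mul]
    ring
  rw [e1, e2, ← Real.norm_eq_abs]
  refine norm_integral_le_of_norm_le (iF.const_mul _) (Eventually.of_forall fun z => ?_)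
  rw [Real.norm_eq_abs]
  by_cases hz : z ∈ tsupport F
  · have hz1 := hsub hz
    have hz2 : ‖z‖ ≤ ρ := by
      have := hsu hz
      simpa using this
    have h1 := h.lap_s z hz1
    have h2 : lapG γ μ ν s z * F z - p * (η z * F z) = (lapG γ μ ν s z - p * η z) * F z := by
      ring
    rw [h2, abs_mul]
    refine mul_le_mul_of_nonneg_right (h1.trans ?_) (abs_nonneg _)
    have h3 : ‖z‖ ^ 2 ≤ ρ ^ 2 := pow_le_pow_left₀ (norm_nonneg _) hz2 2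
    calc C * r ^ (1 - α) * ‖z‖ ^ 2 ≤ C * r ^ (1 - α) * ρ ^ 2 :=
          mul_le_mul_of_nonneg_left h3 (by positivity)
      _ = C * ρ ^ 2 * r ^ (1 - α) := by ring
  · rw [image_eq_zero_of_notMem_tsupport hz]
    simp

/-- the mass of `a_j v^(k)` -/
theorem gm_mass {B κ S Λs τ N : ℝ} {a : ℕ → ℝ → ℝ → ℝ} {e : ℝ → ℝ → ℝ}
    (hp : Packet B κ S Λs τ N a e) {j k : ℕ} (hj : j ≤ 8) {Λ : ℝ} (h0 : 0 ≤ Λ)
    (h1 : Λ ≤ Λs) (hS : 0 ≤ S) {D P : ℝ} (hP : 1 ≤ P)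
    (hD : (∫ y, |vk k P y|) * P ^ k ≤ D * P) :
    ∫ z : ℂ, |a j Λ z.re * vk k P z.im| ≤ S * (D * P) := by
  have e1 : (∫ z : ℂ, |a j Λ z.re * vk k P z.im|) =
      (∫ x, |a j Λ x|) * ∫ y, |vk k P y| := by
    rw [← prod_int (fun x => |a j Λ x|) (fun y => |vk k P y|)]
    refine integral_congr_ae (Eventually.of_forall fun z => ?_)
    simp only
    rw [abs_mul]
  have e2 := gm_momk hp hj (show 0 ≤ 5 by norm_num) h0 h1
  simp only [pow_zero, one_mul] at e2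
  have e3 : 0 ≤ ∫ y, |vk k P y| := integral_nonneg fun y => abs_nonneg _
  rw [e1]
  exact mul_le_mul e2 (gm_vk0 hP e3 hD) e3 hS

/-- the recursion -/
theorem gm_recur {α C R r : ℝ} {qa qb : Fin 3 → ℝ} {γ μ ν p : ℝ} {s η m W₁ W₂ : ℂ → ℝ}
    (h : GSlc α C R r qa qb γ μ ν p s η m W₁ W₂) (hC : 0 ≤ C) (hr : 0 < r)
    {B κ S Λs τ N : ℝ} {a : ℕ → ℝ → ℝ → ℝ} {e : ℝ → ℝ → ℝ} (hp : Packet B κ S Λs τ N a e)
    (hS : 0 ≤ S) {P : ℝ} (hP : 1 ≤ P) (hN : 1 ≤ N) (hR : 2 * (N + 2 * P) ≤ R) {Λ : ℝ}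
    (h0 : 0 ≤ Λ) (h1 : Λ ≤ Λs) {D : ℝ} (j k : ℕ) (hj : j ≤ 6)
    (hD : (∫ y, |vk k P y|) * P ^ k ≤ D * P) :
    |γ * (∫ z, s z * (a j Λ z.re * vk k P z.im)) -
      (p * (∫ z, η z * (a (j + 2) Λ z.re * vk k P z.im)) -
        2 * μ * (∫ z, s z * (a (j + 1) Λ z.re * vk (k + 1) P z.im)) -
          ν * (∫ z, s z * (a (j + 2) Λ z.re * vk (k + 2) P z.im)))| ≤
      C * (N + 2 * P) ^ 2 * (S * (D * P)) * r ^ (1 - α) := by
  have hP0 : 0 < P := by linarith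
  have hN0 : 0 < N := by linarith
  have hU : IsOpen (Metric.ball (0 : ℂ) R) := Metric.isOpen_ball
  have ha := fun i => gm_smooth hp i Λ
  have hsc : ContinuousOn s (Metric.ball 0 R) := h.s_c2.continuousOn
  have hρ : N + 2 * P < R := by linarith
  have hsub : Metric.closedBall (0 : ℂ) (N + 2 * P) ⊆ Metric.ball 0 R :=
    Metric.closedBall_subset_ball hρ
  have pr : ∀ i l : ℕ, ContDiff ℝ ∞ (fun z : ℂ => a i Λ z.re * vk l P z.im) ∧
      HasCompactSupport (fun z : ℂ => a i Λ z.re * vk l P z.im) ∧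
      tsupport (fun z : ℂ => a i Λ z.re * vk l P z.im) ⊆ Metric.closedBall 0 (N + 2 * P) := by
    intro i l
    obtain ⟨w1, _, w2, w3, _⟩ := vk_facts hP0 l
    exact prod_supp (ha i) w1 hN0 hP0 (hp.supp i Λ) w2 w3
  obtain ⟨v1, v2, v3, v4, _⟩ := vk_facts hP0 k
  obtain ⟨w1, w2, w3, w4, _⟩ := vk_facts hP0 (k + 1)
  obtain ⟨p1, p2, p3⟩ := pr (j + 2) k
  have hg := green (U := Metric.ball (0 : ℂ) R) Metric.isOpen_ball γ μ ν h.s_c2
    (contDiff_infty.1 p1 2) p2 (p3.trans hsub)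
  have d1 : deriv (a (j + 2) Λ) = a (j + 1) Λ := funext fun x => (hp.chain (j + 1) (by omega) Λ x).deriv
  have d2 : deriv (a (j + 1) Λ) = a j Λ := funext fun x => (hp.chain j (by omega) Λ x).deriv
  have d3 : deriv (vk k P) = vk (k + 1) P := funext fun y => (v2 y).deriv
  have d4 : deriv (vk (k + 1) P) = vk (k + 2) P := funext fun y => (w2 y).deriv
  have hl : ∀ z, lapG γ μ ν (fun z : ℂ => a (j + 2) Λ z.re * vk k P z.im) z =
      γ * (a j Λ z.re * vk k P z.im) + 2 * μ * (a (j + 1) Λ z.re * vk (k + 1) P z.im) +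
        ν * (a (j + 2) Λ z.re * vk (k + 2) P z.im) := by
    intro z
    have h1 := (prod_deriv (contDiff_infty.1 (ha (j + 2)) 2)
      (contDiff_infty.1 v1 2) γ μ ν z).2.2
    rw [h1, d1, d2, d3, d4]
  have hL := gm_lap h hC hr hρ p1.continuous p2 p3
  have hM := gm_mass (j := j + 2) hp (by omega) h0 h1 hS hP hD
  have ii : ∀ i l : ℕ, Integrable (fun z => s z * (a i Λ z.re * vk l P z.im)) := by
    intro i l
    obtain ⟨q1, q2, q3⟩ := pr i l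
    exact gm_int hU q1.continuous q2 (q3.trans hsub) hsc
  have i1 := ii j k
  have i2 := ii (j + 1) (k + 1)
  have i3 := ii (j + 2) (k + 2)
  have hRt : ∫ z, s z * lapG γ μ ν (fun z : ℂ => a (j + 2) Λ z.re * vk k P z.im) z =
      γ * (∫ z, s z * (a j Λ z.re * vk k P z.im)) +
      2 * μ * (∫ z, s z * (a (j + 1) Λ z.re * vk (k + 1) P z.im)) +
        ν * (∫ z, s z * (a (j + 2) Λ z.re * vk (k + 2) P z.im)) := by
    have k1 : Integrable (fun z : ℂ => γ * (s z * (a j Λ z.re * vk k P z.im)) +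
        2 * μ * (s z * (a (j + 1) Λ z.re * vk (k + 1) P z.im))) :=
      (i1.const_mul γ).add (i2.const_mul (2 * μ))
    rw [← integral_const_mul, ← integral_const_mul, ← integral_const_mul,
      ← integral_add (i1.const_mul γ) (i2.const_mul (2 * μ)), ← integral_add k1 (i3.const_mul ν)]
    apply integral_congr_ae
    refine Eventually.of_forall fun z => ?_
    show s z * lapG γ μ ν (fun z : ℂ => a (j + 2) Λ z.re * vk k P z.im) z = _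
    rw [hl z]
    ring
  rw [hg, hRt] at hL
  have hr0 : 0 ≤ r ^ (1 - α) := Real.rpow_nonneg hr.le _
  have hfin : C * (N + 2 * P) ^ 2 * (∫ z : ℂ, |a (j + 2) Λ z.re * vk k P z.im|) * r ^ (1 - α) ≤
      C * (N + 2 * P) ^ 2 * (S * (D * P)) * r ^ (1 - α) :=
    mul_le_mul_of_nonneg_right (mul_le_mul_of_nonneg_left hM (by positivity)) hr0
  refine le_trans (le_of_eq ?_) (hL.trans hfin)
  congr 1
  ring

theorem gm_step {C γ μ ν p I E J K e x y ε : ℝ} (hC : 1 ≤ C) (hγ : 1 ≤ C * γ) (hμ : |μ| ≤ C)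
    (hν : |ν| ≤ C) (hp0 : 0 ≤ p) (hp : p ≤ C) (h : |γ * I - (p * E - 2 * μ * J - ν * K)| ≤ ε)
    (hE : |E| ≤ e) (hJ : |J| ≤ x) (hK : |K| ≤ y) :
    |I| ≤ C * (ε + C * e + 2 * C * x + C * y) := by
  have hx : 0 ≤ x := (abs_nonneg J).trans hJ
  have hy : 0 ≤ y := (abs_nonneg K).trans hK
  have hC0 : 0 ≤ C := by linarith
  have h1 : |γ * I| ≤ ε + C * e + 2 * C * x + C * y := by
    have h2 : |2 * μ * J| ≤ 2 * C * x := by
      rw [abs_mul, abs_mul, abs_of_pos (by norm_num : (0 : ℝ) < 2)]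
      exact mul_le_mul (by linarith) hJ (abs_nonneg _) (by linarith)
    have h3 : |ν * K| ≤ C * y := by
      rw [abs_mul]
      exact mul_le_mul hν hK (abs_nonneg _) (by linarith)
    have h6 : |p * E| ≤ C * e := by
      rw [abs_mul, abs_of_nonneg hp0]
      exact mul_le_mul hp hE (abs_nonneg _) hC0
    have h4 := abs_sub (p * E - 2 * μ * J) (ν * K)
    have h5 := abs_sub (p * E) (2 * μ * J)
    have h7 := abs_add_le (γ * I - (p * E - 2 * μ * J - ν * K)) (p * E - 2 * μ * J - ν * K)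
    rw [sub_add_cancel] at h7
    linarith
  have hγ0 : 0 < γ := by
    by_contra hcon
    push Not at hcon
    nlinarith
  calc |I| ≤ (C * γ) * |I| := le_mul_of_one_le_left (abs_nonneg _) hγ
    _ = C * |γ * I| := by rw [abs_mul, abs_of_pos hγ0]; ring
    _ ≤ C * (ε + C * e + 2 * C * x + C * y) := mul_le_mul_of_nonneg_left h1 (by linarith)

/-- the main bound -/
theorem gm_bd {α C S : ℝ} (hα : 0 < α) (hα1 : α < 1) (hC : 1 ≤ C) (hS : 0 ≤ S) {D : ℝ}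
    (hD0 : 0 ≤ D) (hD : ∀ k : ℕ, k ≤ 5 → ∀ P : ℝ, 1 ≤ P → (∫ y, |vk k P y|) * P ^ k ≤ D * P) :
    ∃ C₁ A₁ : ℝ, 0 ≤ C₁ ∧ 0 ≤ A₁ ∧
      ∀ (B κ Λs τ N : ℝ) (a : ℕ → ℝ → ℝ → ℝ) (e : ℝ → ℝ → ℝ) (P : ℝ),
      Packet B κ S Λs τ N a e → 1 ≤ P → 1 ≤ N → ∀ (R r : ℝ) (qa qb : Fin 3 → ℝ) (γ μ ν p : ℝ)
        (s η m W₁ W₂ : ℂ → ℝ), 0 < r → GSlc α C R r qa qb γ μ ν p s η m W₁ W₂ →
          2 * (N + 2 * P) ≤ R → ∀ Λ, 0 ≤ Λ → Λ ≤ Λs →
          |∫ z, s z * (a 0 Λ z.re * vk 1 P z.im)| ≤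
              C₁ * P ^ α + A₁ * ((N + 2 * P) ^ 2 * P) * r ^ (1 - α) ∧
            |∫ z, s z * (a 1 Λ z.re * vk 2 P z.im)| ≤
              C₁ * P ^ α + A₁ * ((N + 2 * P) ^ 2 * P) * r ^ (1 - α) := by
  obtain ⟨Ce, hCe, hη⟩ := gm_eta hα hα1 hC hS
  obtain ⟨Cs, hCs, hs⟩ := gm_s hα hα1 hC hS
  have hC0 : 0 ≤ C := by linarith
  obtain ⟨E, hE⟩ : ∃ E : ℝ, E = C * (S * D) := ⟨_, rfl⟩
  obtain ⟨c3, hc3⟩ : ∃ c3 : ℝ, c3 = C * (C * Ce + 2 * C * Cs + C * Cs) := ⟨_, rfl⟩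
  obtain ⟨d3, hd3⟩ : ∃ d3 : ℝ, d3 = C * E := ⟨_, rfl⟩
  obtain ⟨c2, hc2⟩ : ∃ c2 : ℝ, c2 = C * (C * Ce + 2 * C * c3 + C * Cs) := ⟨_, rfl⟩
  obtain ⟨d2, hd2⟩ : ∃ d2 : ℝ, d2 = C * (E + 2 * C * d3) := ⟨_, rfl⟩
  obtain ⟨c1, hc1⟩ : ∃ c1 : ℝ, c1 = C * (C * Ce + 2 * C * c2 + C * c3) := ⟨_, rfl⟩
  obtain ⟨d1, hd1⟩ : ∃ d1 : ℝ, d1 = C * (E + 2 * C * d2 + C * d3) := ⟨_, rfl⟩
  have pE : 0 ≤ E := by rw [hE]; positivity
  have p3 : 0 ≤ c3 := by rw [hc3]; positivity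
  have q3 : 0 ≤ d3 := by rw [hd3]; positivity
  have p2 : 0 ≤ c2 := by rw [hc2]; positivity
  have q2 : 0 ≤ d2 := by rw [hd2]; positivity
  have p1 : 0 ≤ c1 := by rw [hc1]; positivity
  have q1 : 0 ≤ d1 := by rw [hd1]; positivity
  refine ⟨c1 + c2, d1 + d2, by linarith, by linarith, ?_⟩
  intro B κ Λs τ N a e P hp hP hN R r qa qb γ μ ν p s η m W₁ W₂ hr hsl hR Λ h0 h1
  have hPα : 1 ≤ P ^ α := Real.one_le_rpow hP hα.le
  have hPα0 : 0 ≤ P ^ α := by linarith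
  have hr0 : 0 ≤ r ^ (1 - α) := Real.rpow_nonneg hr.le _
  have hp0 : 0 ≤ p := by
    by_contra hcon
    push Not at hcon
    have := hsl.p_lo
    nlinarith
  have f1 := hη B κ Λs τ N a e P hp hP hN R r qa qb γ μ ν p s η m W₁ W₂ hsl hR Λ h0 h1
  have f2 := hs B κ Λs τ N a e P hp hP hN R r qa qb γ μ ν p s η m W₁ W₂ hsl hR Λ h0 h1
  have fe : ∀ j m : ℕ, j ≤ 6 → 1 ≤ m → m ≤ 5 →
      |∫ z, η z * (a j Λ z.re * vk m P z.im)| ≤ Ce * P ^ α := by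
    intro j m a1 a2 a3
    exact (f1 j m a1 a2 a3).trans (le_mul_of_one_le_right hCe hPα)
  obtain ⟨Z, hZ⟩ : ∃ Z : ℝ, Z = ((N + 2 * P) ^ 2 * P) * r ^ (1 - α) := ⟨_, rfl⟩
  have hZ0 : 0 ≤ Z := by
    rw [hZ]
    have : 0 ≤ P := by linarith
    positivity
  have hEZ : C * (N + 2 * P) ^ 2 * (S * (D * P)) * r ^ (1 - α) = E * Z := by
    rw [hE, hZ]
    ring
  have s34 := f2 3 4 (by norm_num) (Or.inl rfl)
  have s45 := f2 4 5 (by norm_num) (Or.inr rfl)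
  have r2 := gm_recur hsl hC0 hr hp hS hP hN hR h0 h1 2 3 (by norm_num) (hD 3 (by norm_num) P hP)
  have r1 := gm_recur hsl hC0 hr hp hS hP hN hR h0 h1 1 2 (by norm_num) (hD 2 (by norm_num) P hP)
  have r0 := gm_recur hsl hC0 hr hp hS hP hN hR h0 h1 0 1 (by norm_num) (hD 1 (by norm_num) P hP)
  rw [hEZ] at r2 r1 r0
  have b3 : |∫ z, s z * (a 2 Λ z.re * vk 3 P z.im)| ≤ c3 * P ^ α + d3 * Z := by
    have := gm_step hC hsl.γ_lo hsl.μ_le hsl.ν_le hp0 hsl.p_le r2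
      (fe 4 3 (by norm_num) (by norm_num) (by norm_num)) s34 s45
    refine this.trans (le_of_eq ?_)
    rw [hc3, hd3]
    ring
  have b2 : |∫ z, s z * (a 1 Λ z.re * vk 2 P z.im)| ≤ c2 * P ^ α + d2 * Z := by
    have := gm_step hC hsl.γ_lo hsl.μ_le hsl.ν_le hp0 hsl.p_le r1
      (fe 3 2 (by norm_num) (by norm_num) (by norm_num)) b3 s34
    refine this.trans (le_of_eq ?_)
    rw [hc2, hd2]
    ring
  have b1 : |∫ z, s z * (a 0 Λ z.re * vk 1 P z.im)| ≤ c1 * P ^ α + d1 * Z := by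
    have := gm_step hC hsl.γ_lo hsl.μ_le hsl.ν_le hp0 hsl.p_le r0
      (fe 2 1 (by norm_num) (by norm_num) (by norm_num)) b2 b3
    refine this.trans (le_of_eq ?_)
    rw [hc1, hd1]
    ring
  have g1 : 0 ≤ c1 * P ^ α := by positivity
  have g2 : 0 ≤ c2 * P ^ α := by positivity
  have g3 : 0 ≤ d1 * Z := by positivity
  have g4 : 0 ≤ d2 * Z := by positivity
  have g5 : (c1 + c2) * P ^ α + (d1 + d2) * ((N + 2 * P) ^ 2 * P) * r ^ (1 - α) =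
      c1 * P ^ α + c2 * P ^ α + (d1 * Z + d2 * Z) := by
    rw [hZ]
    ring
  rw [g5]
  constructor
  · linarith
  · linarith

/-- the main terms of the slice lemma -/
theorem gs_main {α C S : ℝ} (hα : 0 < α) (hα1 : α < 1) (hC : 1 ≤ C) (hS : 0 ≤ S) :
    ∃ C₁ : ℝ, 0 ≤ C₁ ∧ ∀ (B κ Λs τ N : ℝ) (a : ℕ → ℝ → ℝ → ℝ) (e : ℝ → ℝ → ℝ) (P : ℝ),
      Packet B κ S Λs τ N a e → 1 ≤ P → 1 ≤ N → 0 ≤ τ → ∃ A : ℝ, 0 ≤ A ∧
        ∀ (R r : ℝ) (qa qb : Fin 3 → ℝ) (γ μ ν p : ℝ) (s η m W₁ W₂ : ℂ → ℝ), 0 < r → r ≤ 1 →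
          GSlc α C R r qa qb γ μ ν p s η m W₁ W₂ → 2 * (N + 2 * P) ≤ R → ∀ Λ, 0 ≤ Λ → Λ ≤ Λs →
            |(∫ z, s z * dx (tst (a 0 Λ) P) z) -
              p / γ * ∫ z, η z * tst (fun x => a 1 Λ x + e Λ x) P z| ≤
              C₁ * P ^ α + C₁ * τ * P + A * r ^ (1 - α) := by
  obtain ⟨D, hD0, hD⟩ := vk_int
  have hD' : ∀ k : ℕ, k ≤ 5 → ∀ P : ℝ, 1 ≤ P → (∫ y, |vk k P y|) * P ^ k ≤ D * P :=
    fun k hk P hP => (hD k hk P hP).2
  obtain ⟨M, A₁, hM0, hA₁, hM⟩ := gm_bd hα hα1 hC hS hD0 hD'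
  have hC0 : 0 ≤ C := by linarith
  refine ⟨3 * C ^ 2 * M + C ^ 3 * D, by positivity, ?_⟩
  intro B κ Λs τ N a e P hp hP hN hτ
  have hP0 : 0 < P := by linarith
  have hN0 : 0 < N := by linarith
  refine ⟨C * (C * (N + 2 * P) ^ 2 * (S * (D * P)) + 3 * C * (A₁ * ((N + 2 * P) ^ 2 * P))),
    by positivity, ?_⟩
  intro R r qa qb γ μ ν p s η m W₁ W₂ hr hr1 h hR Λ hΛ hΛs
  have hU : IsOpen (Metric.ball (0 : ℂ) R) := Metric.isOpen_ball
  have hρ : N + 2 * P < R := by linarith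
  have hsub : Metric.closedBall (0 : ℂ) (N + 2 * P) ⊆ Metric.ball 0 R :=
    Metric.closedBall_subset_ball hρ
  obtain ⟨v0s, v0d, v0l, v0r, v0e⟩ := vk_facts hP0 0
  obtain ⟨v1s, v1d, v1l, v1r, _⟩ := vk_facts hP0 1
  have as : ∀ j, ContDiff ℝ ∞ (a j Λ) := fun j => gm_smooth hp j Λ
  have es : ContDiff ℝ ∞ (e Λ) := hp.e_smooth.comp (contDiff_prodMk_right Λ)
  have hsc : ContinuousOn s (Metric.ball 0 R) := h.s_c2.continuousOn
  have hηc : ContinuousOn η (Metric.ball 0 R) := h.η_c1.continuousOn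
  -- products
  have pr : ∀ {b : ℝ → ℝ} {m : ℕ}, ContDiff ℝ ∞ b → (∀ x, N ≤ |x| → b x = 0) →
      ContDiff ℝ ∞ (fun z : ℂ => b z.re * vk m P z.im) ∧ HasCompactSupport (fun z : ℂ => b z.re * vk m P z.im) ∧
      tsupport (fun z : ℂ => b z.re * vk m P z.im) ⊆ Metric.closedBall 0 (N + 2 * P) := by
    intro b m hb hbN
    obtain ⟨w1, _, w2, w3, _⟩ := vk_facts hP0 m
    exact prod_supp hb w1 hN0 hP0 hbN w2 w3
  have le2 : (2 : WithTop ℕ∞) ≤ ∞ := WithTop.coe_le_coe.2 le_top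
  -- `f = a_0 v`
  have hf : tst (a 0 Λ) P = fun z => a 0 Λ z.re * vk 0 P z.im := by
    funext z
    rw [tst, v0e]
  obtain ⟨q1, q2, q3⟩ := pr (m := 0) (as 0) (hp.supp 0 Λ)
  have i0 : Integrable (fun z => s z * dx (tst (a 0 Λ) P) z) := by
    rw [hf]
    refine gm_int hU ?_ ?_ ?_ hsc
    · exact (contDiff_dx (n := 1) (q1.of_le le2)).continuous
    · exact q2.fderiv_apply ℝ 1
    · exact ((tsupport_fderiv_apply_subset ℝ (f := fun z : ℂ => a 0 Λ z.re * vk 0 P z.im) 1).trans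
        q3).trans hsub
  obtain ⟨q4, q5, q6⟩ := pr (m := 1) (as 0) (hp.supp 0 Λ)
  have i1 : Integrable (fun z => s z * (a 0 Λ z.re * vk 1 P z.im)) :=
    gm_int hU q4.continuous q5 (q6.trans hsub) hsc
  obtain ⟨q7, q8, q9⟩ := pr (m := 2) (as 1) (hp.supp 1 Λ)
  have i2 : Integrable (fun z => s z * (a 1 Λ z.re * vk 2 P z.im)) :=
    gm_int hU q7.continuous q8 (q9.trans hsub) hsc
  obtain ⟨u1, u2, u3⟩ := pr (m := 0) (as 1) (hp.supp 1 Λ)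
  have i3 : Integrable (fun z => η z * (a 1 Λ z.re * vk 0 P z.im)) :=
    gm_int hU u1.continuous u2 (u3.trans hsub) hηc
  obtain ⟨u4, u5, u6⟩ := pr (m := 0) es (hp.e_supp Λ)
  have i4 : Integrable (fun z => η z * (e Λ z.re * vk 0 P z.im)) :=
    gm_int hU u4.continuous u5 (u6.trans hsub) hηc
  have e1 : (∫ z, η z * tst (fun x => a 1 Λ x + e Λ x) P z) = (∫ z, η z * (a 1 Λ z.re * vk 0 P z.im)) +
      ∫ z, η z * (e Λ z.re * vk 0 P z.im) := by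
    rw [← integral_add i3 i4]
    refine integral_congr_ae (Filter.Eventually.of_forall fun z => ?_)
    simp only [tst, v0e]
    ring
  -- Green
  have e2 := green hU γ μ ν h.s_c2 (u1.of_le le2) u2 (u3.trans hsub)
  have e3 := gm_lap h hC0 hr hρ u1.continuous u2 u3
  have e5 := gm_mass (j := 1) (k := 0) hp (by norm_num) hΛ hΛs hS hP (hD' 0 (by norm_num) P hP)
  have d1 : deriv (a 1 Λ) = a 0 Λ := funext fun x => (hp.chain 0 (by norm_num) Λ x).deriv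
  have d2 : deriv (vk 0 P) = vk 1 P := funext fun y => (v0d y).deriv
  have d3 : deriv (vk 1 P) = vk 2 P := funext fun y => (v1d y).deriv
  have e4 : (∫ z, s z * lapG γ μ ν (fun z => a 1 Λ z.re * vk 0 P z.im) z) =
      γ * (∫ z, s z * dx (tst (a 0 Λ) P) z) + 2 * μ * (∫ z, s z * (a 0 Λ z.re * vk 1 P z.im)) +
        ν * (∫ z, s z * (a 1 Λ z.re * vk 2 P z.im)) := by
    have i5 : Integrable (fun z => γ * (s z * dx (tst (a 0 Λ) P) z) + 2 * μ * (s z * (a 0 Λ z.re * vk 1 P z.im))) :=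
      (i0.const_mul γ).add (i1.const_mul (2 * μ))
    rw [← integral_const_mul, ← integral_const_mul, ← integral_const_mul, ← integral_add (i0.const_mul γ)
      (i1.const_mul (2 * μ)), ← integral_add i5 (i2.const_mul ν)]
    refine integral_congr_ae (Filter.Eventually.of_forall fun z => ?_)
    have g1 := (prod_deriv ((as 1).of_le le2) (v0s.of_le le2) γ μ ν z).2.2
    have g2 := (prod_deriv ((as 0).of_le le2) (v0s.of_le le2) γ μ ν z).1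
    simp only
    rw [g1, hf, g2, d1, d2, d3]
    ring
  rw [e2, e4] at e3
  rw [e1]
  obtain ⟨m1, m2⟩ := hM B κ Λs τ N a e P hp hP hN R r qa qb γ μ ν p s η m W₁ W₂ hr h hR Λ hΛ hΛs
  have l1 := line_le hα hα1 hC0 hN0 hP0 hR h.η_c1 h.dη_le es.continuous (hp.e_supp Λ) v0s.continuous v0l v0r
    (by simpa using hp.e_van 0 (by norm_num) Λ) (by simpa using hp.e_van 1 (by norm_num) Λ)
  have l2 := hD' 0 (by norm_num) P hP
  rw [pow_zero, mul_one] at l2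
  have l3 := hp.e_mom Λ hΛ hΛs
  have l4 : 0 ≤ ∫ y, |vk 0 P y| := integral_nonneg fun y => abs_nonneg _
  have l6 : |∫ z, η z * (e Λ z.re * vk 0 P z.im)| ≤ C * (τ * (D * P)) :=
    l1.trans (mul_le_mul_of_nonneg_left (mul_le_mul l3 l2 l4 hτ) hC0)
  have hr0 : 0 ≤ r ^ (1 - α) := Real.rpow_nonneg hr.le _
  have hfin : C * (N + 2 * P) ^ 2 * (∫ z : ℂ, |a 1 Λ z.re * vk 0 P z.im|) * r ^ (1 - α) ≤
      C * (N + 2 * P) ^ 2 * (S * (D * P)) * r ^ (1 - α) :=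
    mul_le_mul_of_nonneg_right (mul_le_mul_of_nonneg_left e5 (by positivity)) hr0
  have e6 := e3.trans hfin
  clear e3 hfin l1 e1 e2 e4 e5
  generalize (∫ z, s z * dx (tst (a 0 Λ) P) z) = J0 at *
  generalize (∫ z, s z * (a 0 Λ z.re * vk 1 P z.im)) = I1 at *
  generalize (∫ z, s z * (a 1 Λ z.re * vk 2 P z.im)) = I2 at *
  generalize (∫ z, η z * (e Λ z.re * vk 0 P z.im)) = I3 at *
  generalize (∫ z, η z * (a 1 Λ z.re * vk 0 P z.im)) = I4 at *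
  have hγ : 0 < γ := by
    by_contra hcon
    have := mul_nonpos_of_nonneg_of_nonpos hC0 (not_lt.1 hcon)
    linarith [h.γ_lo]
  have hp0 : 0 ≤ p := by
    by_contra hcon
    have := mul_nonpos_of_nonneg_of_nonpos hC0 (not_le.1 hcon).le
    linarith [h.p_lo]
  have hγ1 : 1 / γ ≤ C := by
    rw [div_le_iff₀ hγ]
    exact h.γ_lo
  have hγ2 : 0 ≤ 1 / γ := by positivity
  have id1 : J0 - p / γ * (I4 + I3) = 1 / γ * ((γ * J0 + 2 * μ * I1 + ν * I2 - p * I4) -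
      2 * μ * I1 - ν * I2 - p * I3) := by
    field_simp
    ring
  obtain ⟨X, hX⟩ : ∃ X : ℝ, X = M * P ^ α + A₁ * ((N + 2 * P) ^ 2 * P) * r ^ (1 - α) := ⟨_, rfl⟩
  rw [← hX] at m1 m2
  have t1 : |2 * μ * I1| ≤ 2 * C * X := by
    rw [abs_mul, abs_mul, abs_of_pos (by norm_num : (0 : ℝ) < 2)]
    exact mul_le_mul (mul_le_mul_of_nonneg_left h.μ_le (by norm_num)) m1 (abs_nonneg _) (by positivity)
  have t2 : |ν * I2| ≤ C * X := by
    rw [abs_mul]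
    exact mul_le_mul h.ν_le m2 (abs_nonneg _) hC0
  have t3 : |p * I3| ≤ C * (C * (τ * (D * P))) := by
    rw [abs_mul, abs_of_nonneg hp0]
    exact mul_le_mul h.p_le l6 (abs_nonneg _) hC0
  have t4 := abs_sub (γ * J0 + 2 * μ * I1 + ν * I2 - p * I4 - 2 * μ * I1 - ν * I2) (p * I3)
  have t5 := abs_sub (γ * J0 + 2 * μ * I1 + ν * I2 - p * I4 - 2 * μ * I1) (ν * I2)
  have t6 := abs_sub (γ * J0 + 2 * μ * I1 + ν * I2 - p * I4) (2 * μ * I1)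
  rw [id1, abs_mul, abs_of_nonneg hγ2]
  have t7 : |γ * J0 + 2 * μ * I1 + ν * I2 - p * I4 - 2 * μ * I1 - ν * I2 - p * I3| ≤
      C * (N + 2 * P) ^ 2 * (S * (D * P)) * r ^ (1 - α) + 3 * C * X + C * (C * (τ * (D * P))) := by
    linarith
  have hPa : 0 ≤ P ^ α := Real.rpow_nonneg hP0.le _
  refine (mul_le_mul hγ1 t7 (abs_nonneg _) hC0).trans ?_
  rw [hX]
  have w1 : 0 ≤ C ^ 3 * D * P ^ α := by positivity
  have w2 : 0 ≤ 3 * C ^ 2 * M * τ * P := by positivity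
  nlinarith

end Pool.Agent.YUL
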