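import Pool.Agent.YUL.L3
import Pool.Agent.YUR.S2
import Pool.Agent.YUR.S6
import Pool.Agent.YUR.S7

/-!
# [YUL-GS] test functions: vanishing moments of derivatives, uniform bounds
-/

open MeasureTheory Set Filter Topology
open scoped ContDiff

namespace Pool.Agent.YUL

open Pool.Agent.YUD Pool.Agent.YUT Pool.Agent.YUB Pool.Agent.YUR

theorem GS_monC (i j : ℕ) {n : WithTop ℕ∞} : ContDiff ℝ n (fun z : ℂ => z.re ^ i * z.im ^ j) :=
  (S7_cd_re.pow i).mul (S7_cd_im.pow j)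

theorem GS_mon (i j : ℕ) (z : ℂ) : dx (fun z : ℂ => z.re ^ i * z.im ^ j) z =
    i * (z.re ^ (i - 1) * z.im ^ j) ∧ dy (fun z : ℂ => z.re ^ i * z.im ^ j) z =
    j * (z.re ^ i * z.im ^ (j - 1)) := by
  have h := ((S7_re z).pow i).mul ((S7_im z).pow j)
  have h3 : fderiv ℝ (fun z : ℂ => z.re ^ i * z.im ^ j) z = _ := h.fderiv
  constructor
  · unfold dx
    rw [h3]
    simp
    ring
  · unfold dy
    rw [h3]
    simp
    ring

theorem GNul.dx' {F : ℂ → ℝ} {n : ℕ} (h : GNul F n) (hF : ContDiff ℝ 1 F) :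
    GNul (dx F) (n + 1) := by
  refine ⟨(contDiff_dx (n := 0) hF).continuous, h.cpt.fderiv_apply ℝ 1, fun i j hij => ?_⟩
  have h1 := S2_ibx isOpen_univ (GS_monC i j).contDiffOn hF h.cpt (subset_univ _)
  have h2 : ∫ z : ℂ, z.re ^ i * z.im ^ j * dx F z = - ∫ z, dx (fun z : ℂ => z.re ^ i * z.im ^ j) z * F z := by
    linarith
  rw [h2]
  have h3 : (fun z => dx (fun z : ℂ => z.re ^ i * z.im ^ j) z * F z) =
      fun z : ℂ => (i : ℝ) * (z.re ^ (i - 1) * z.im ^ j * F z) := by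
    funext z
    rw [(GS_mon i j z).1]
    ring
  rw [h3, integral_const_mul]
  rcases Nat.eq_zero_or_pos i with hi | hi
  · rw [hi]
    simp
  · rw [h.van (i - 1) j (by omega)]
    simp

theorem GNul.dy' {F : ℂ → ℝ} {n : ℕ} (h : GNul F n) (hF : ContDiff ℝ 1 F) :
    GNul (dy F) (n + 1) := by
  refine ⟨(contDiff_dy (n := 0) hF).continuous, h.cpt.fderiv_apply ℝ Complex.I, fun i j hij => ?_⟩
  have h1 := S2_iby isOpen_univ (GS_monC i j).contDiffOn hF h.cpt (subset_univ _)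
  have h2 : ∫ z : ℂ, z.re ^ i * z.im ^ j * dy F z = - ∫ z, dy (fun z : ℂ => z.re ^ i * z.im ^ j) z * F z := by
    linarith
  rw [h2]
  have h3 : (fun z => dy (fun z : ℂ => z.re ^ i * z.im ^ j) z * F z) =
      fun z : ℂ => (j : ℝ) * (z.re ^ i * z.im ^ (j - 1) * F z) := by
    funext z
    rw [(GS_mon i j z).2]
    ring
  rw [h3, integral_const_mul]
  rcases Nat.eq_zero_or_pos j with hj | hj
  · rw [hj]
    simp
  · rw [h.van i (j - 1) (by omega)]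
    simp

theorem GNul.sub {F G : ℂ → ℝ} {n : ℕ} (h : GNul F n) (k : GNul G n) :
    GNul (fun z => F z - G z) n :=
  (h.add (k.const_mul (-1))).congr fun z => by ring

theorem GNul.cub {F : ℂ → ℝ} {n : ℕ} (h : GNul F (n + 3)) (k : Fin 4 → ℝ) :
    GNul (fun z => cub k z * F z) n := by
  have h1 : GNul (fun z => z.re * F z) (n + 2) := GNul.re_mul h
  have h2 : GNul (fun z => z.im * F z) (n + 2) := GNul.im_mul h
  have h11 : GNul (fun z => z.re * (z.re * F z)) (n + 1) := GNul.re_mul h1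
  have h12 : GNul (fun z => z.im * (z.re * F z)) (n + 1) := GNul.im_mul h1
  have h22 : GNul (fun z => z.im * (z.im * F z)) (n + 1) := GNul.im_mul h2
  exact ((((h11.re_mul.const_mul (k 0)).add (h12.re_mul.const_mul (k 1))).add
    (h22.re_mul.const_mul (k 2))).add (h22.im_mul.const_mul (k 3))).congr fun z => by
      unfold YUR.cub; ring

/-- a test function with bounds -/
structure GTst (ρ X : ℝ) (n : ℕ) (f : ℂ → ℝ) : Prop where
  smooth : ContDiff ℝ ∞ f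
  nul : GNul f n
  off : ∀ z, ρ < ‖z‖ → f z = 0
  le : ∀ z, |f z| ≤ X
  dx_le : ∀ z, |dx f z| ≤ X
  dy_le : ∀ z, |dy f z| ≤ X
  dxx_le : ∀ z, |dx (dx f) z| ≤ X
  dxy_le : ∀ z, |dx (dy f) z| ≤ X
  dyx_le : ∀ z, |dy (dx f) z| ≤ X
  dyy_le : ∀ z, |dy (dy f) z| ≤ X

theorem GS_tst {b : ℝ → ℝ} {N P : ℝ} (hb : ContDiff ℝ ∞ b) (hbN : ∀ x, N ≤ |x| → b x = 0) {n : ℕ}
    (hm : ∀ i, i ≤ n → ∫ x, x ^ i * b x = 0) (hP : 1 ≤ P) {X₀ D : ℝ}
    (hX : ∀ x, |b x| ≤ X₀ ∧ |deriv b x| ≤ X₀ ∧ |deriv (deriv b) x| ≤ X₀)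
    (hD : ∀ k, k ≤ 2 → ∀ y, |vk k P y| ≤ D) : GTst (N + 2 * P) (X₀ * D) n (tst b P) := by
  have hP0 : 0 < P := by linarith
  obtain ⟨v1, v2, v3, v4, v5⟩ := vk_facts hP0 0
  obtain ⟨w1, w2, w3, w4, -⟩ := vk_facts hP0 1
  obtain ⟨u1, u2, u3, u4, -⟩ := vk_facts hP0 2
  have hb' : ContDiff ℝ ∞ (deriv b) := (contDiff_infty_iff_deriv.1 hb).2
  have hv : ∀ y, 2 * P + 1 ≤ |y| → vk 0 P y = 0 := by
    intro y hy
    rcases le_abs'.1 hy with h | h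
    · exact v3 y (by linarith)
    · exact v4 y (by linarith)
  have e : tst b P = fun z : ℂ => b z.re * vk 0 P z.im := by
    funext z
    rw [v5]
    rfl
  have d0 : deriv (vk 0 P) = vk 1 P := funext fun y => (v2 y).deriv
  have d1 : deriv (vk 1 P) = vk 2 P := funext fun y => (w2 y).deriv
  have ex : dx (tst b P) = fun z : ℂ => deriv b z.re * vk 0 P z.im := by
    funext z
    exact (GL_tst_deriv hb hP z).1
  have ey : dy (tst b P) = fun z : ℂ => b z.re * vk 1 P z.im := by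
    funext z
    exact (GL_tst_deriv hb hP z).2
  have p1 : ∀ z, dx (fun z : ℂ => deriv b z.re * vk 0 P z.im) z = deriv (deriv b) z.re * vk 0 P z.im ∧
      dy (fun z : ℂ => deriv b z.re * vk 0 P z.im) z = deriv b z.re * vk 1 P z.im := by
    intro z
    have h := prod_deriv (contDiff_infty.mp hb' 2) (contDiff_infty.mp v1 2) 0 0 0 z
    rw [d0] at h
    exact ⟨h.1, h.2.1⟩
  have p2 : ∀ z, dx (fun z : ℂ => b z.re * vk 1 P z.im) z = deriv b z.re * vk 1 P z.im ∧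
      dy (fun z : ℂ => b z.re * vk 1 P z.im) z = b z.re * vk 2 P z.im := by
    intro z
    have h := prod_deriv (contDiff_infty.mp hb 2) (contDiff_infty.mp w1 2) 0 0 0 z
    rw [d1] at h
    exact ⟨h.1, h.2.1⟩
  have hX0 : 0 ≤ X₀ := (abs_nonneg _).trans (hX 0).1
  have bd : ∀ {u w : ℝ}, |u| ≤ X₀ → |w| ≤ D → |u * w| ≤ X₀ * D := by
    intro u w hu hw
    rw [abs_mul]
    exact mul_le_mul hu hw (abs_nonneg _) hX0
  refine ⟨?_, ?_, ?_, ?_, ?_, ?_, ?_, ?_, ?_, ?_⟩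
  · rw [e]
    exact (hb.comp Complex.reCLM.contDiff).mul (v1.comp Complex.imCLM.contDiff)
  · rw [e]
    exact GNul_prod hb.continuous hbN v1.continuous hv hm
  · intro z hz
    exact S6_tst hP0 hbN z (by rw [mem_closedBall_zero_iff, not_le]; exact hz)
  · intro z
    rw [e]
    exact bd (hX _).1 (hD 0 (by norm_num) _)
  · intro z
    rw [ex]
    exact bd (hX _).2.1 (hD 0 (by norm_num) _)
  · intro z
    rw [ey]
    exact bd (hX _).1 (hD 1 (by norm_num) _)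
  · intro z
    rw [ex, (p1 z).1]
    exact bd (hX _).2.2 (hD 0 (by norm_num) _)
  · intro z
    rw [ey, (p2 z).1]
    exact bd (hX _).2.1 (hD 1 (by norm_num) _)
  · intro z
    rw [ex, (p1 z).2]
    exact bd (hX _).2.1 (hD 1 (by norm_num) _)
  · intro z
    rw [ey, (p2 z).2]
    exact bd (hX _).1 (hD 2 (by norm_num) _)

/-- joint smoothness of the derivative -/
theorem GS_joint {F : ℝ → ℝ → ℝ} (hF : ContDiff ℝ ∞ (fun p : ℝ × ℝ => F p.1 p.2)) :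
    ContDiff ℝ ∞ (fun p : ℝ × ℝ => deriv (F p.1) p.2) := by
  refine (GL_mixed (G := fun Λ x => deriv (fun Λ' => F Λ' x) Λ) hF fun Λ x => ?_).1
  have h1 : ContDiff ℝ ∞ fun Λ' : ℝ => F Λ' x := by
    have h2 : ContDiff ℝ ∞ (fun Λ' : ℝ => ((Λ', x) : ℝ × ℝ)) := contDiff_id.prodMk contDiff_const
    exact ContDiff.comp (g := fun p : ℝ × ℝ => F p.1 p.2) hF h2
  exact ((h1.differentiable (by simp)) Λ).hasDerivAt

/-- bounds which are uniform in the parameter -/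
theorem GS_unif1 {F : ℝ → ℝ → ℝ} (hF : Continuous (fun p : ℝ × ℝ => F p.1 p.2)) {N Λs : ℝ}
    (h0 : ∀ Λ x, N ≤ |x| → F Λ x = 0) : ∃ X : ℝ, 0 ≤ X ∧ ∀ Λ, 0 ≤ Λ → Λ ≤ Λs → ∀ x, |F Λ x| ≤ X := by
  have hK : IsCompact (Icc (0 : ℝ) Λs ×ˢ Icc (-N) N) := isCompact_Icc.prod isCompact_Icc
  obtain ⟨A, hA⟩ := hK.exists_bound_of_continuousOn hF.continuousOn
  refine ⟨max A 0, le_max_right _ _, fun Λ h1 h2 x => ?_⟩
  by_cases hx : N ≤ |x|
  · rw [h0 Λ x hx, abs_zero]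
    exact le_max_right _ _
  · rw [not_le, abs_lt] at hx
    exact (hA (Λ, x) ⟨⟨h1, h2⟩, ⟨hx.1.le, hx.2.le⟩⟩).trans (le_max_left _ _)

theorem GS_unif2 {F : ℝ → ℝ → ℝ} (hF : ContDiff ℝ ∞ (fun p : ℝ × ℝ => F p.1 p.2)) {N Λs : ℝ}
    (h0 : ∀ Λ x, N ≤ |x| → F Λ x = 0) : ∃ X : ℝ, 0 ≤ X ∧ ∀ Λ, 0 ≤ Λ → Λ ≤ Λs → ∀ x,
      |F Λ x| ≤ X ∧ |deriv (F Λ) x| ≤ X ∧ |deriv (deriv (F Λ)) x| ≤ X := by
  have hF1 := GS_joint hF
  have hF2 := GS_joint (F := fun Λ => deriv (F Λ)) hF1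
  have z1 : ∀ Λ x, N + 1 ≤ |x| → deriv (F Λ) x = 0 := fun Λ x hx => GL_deriv_supp (h0 Λ) x hx
  have z2 : ∀ Λ x, N + 1 + 1 ≤ |x| → deriv (deriv (F Λ)) x = 0 := fun Λ x hx =>
    GL_deriv_supp (z1 Λ) x hx
  obtain ⟨X0, a0, b0⟩ := GS_unif1 (Λs := Λs) hF.continuous h0
  obtain ⟨X1, a1, b1⟩ := GS_unif1 (Λs := Λs) (F := fun Λ => deriv (F Λ)) hF1.continuous z1
  obtain ⟨X2, a2, b2⟩ := GS_unif1 (Λs := Λs) (F := fun Λ => deriv (deriv (F Λ))) hF2.continuous z2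
  refine ⟨X0 + X1 + X2, by positivity, fun Λ h1 h2 x => ⟨?_, ?_, ?_⟩⟩
  · linarith [b0 Λ h1 h2 x]
  · linarith [b1 Λ h1 h2 x]
  · linarith [b2 Λ h1 h2 x]

/-- the two families of test functions -/
theorem GS_fam {B κ S Λs τ N : ℝ} {a : ℕ → ℝ → ℝ → ℝ} {e : ℝ → ℝ → ℝ}
    (hp : Packet B κ S Λs τ N a e) {P : ℝ} (hP : 1 ≤ P) :
    ∃ X : ℝ, 0 ≤ X ∧ ∀ Λ, 0 ≤ Λ → Λ ≤ Λs → GTst (N + 2 * P) X 7 (tst (a 0 Λ) P) ∧
      GTst (N + 2 * P) X 3 (tst (fun x => a 1 Λ x + e Λ x) P) := by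
  obtain ⟨D, hD, hvk⟩ := vk_int
  have hD2 : ∀ k, k ≤ 2 → ∀ y, |vk k P y| ≤ D := fun k hk y => (hvk k (by omega) P hP).1 y
  obtain ⟨X0, p0, q0⟩ := GS_unif2 (Λs := Λs) (hp.smooth 0) (hp.supp 0)
  obtain ⟨X1, p1, q1⟩ := GS_unif2 (Λs := Λs) (F := fun Λ x => a 1 Λ x + e Λ x)
    ((hp.smooth 1).add hp.e_smooth) (N := N) (fun Λ x hx => by rw [hp.supp 1 Λ x hx, hp.e_supp Λ x hx, add_zero])
  refine ⟨(X0 + X1) * D, by positivity, fun Λ h1 h2 => ⟨?_, ?_⟩⟩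
  · refine GS_tst (GL_a hp 0 Λ) (hp.supp 0 Λ) (fun i hi => packet_van hp i 0 (by omega) Λ) hP
      (fun x => ?_) hD2
    have := q0 Λ h1 h2 x
    refine ⟨?_, ?_, ?_⟩ <;> linarith [this.1, this.2.1, this.2.2]
  · refine GS_tst ((GL_a hp 1 Λ).add (GL_e hp Λ))
      (fun x hx => by rw [hp.supp 1 Λ x hx, hp.e_supp Λ x hx, add_zero]) (fun i hi => ?_) hP
      (fun x => ?_) hD2
    · have i1 := S7_int (GL_a hp 1 Λ).continuous (hp.supp 1 Λ) i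
      have i2 := S7_int (GL_e hp Λ).continuous (hp.e_supp Λ) i
      have h3 : (fun x : ℝ => x ^ i * (a 1 Λ x + e Λ x)) = fun x => x ^ i * a 1 Λ x + x ^ i * e Λ x := by
        funext x; ring
      rw [h3, integral_add i1 i2, packet_van hp i 1 (by omega) Λ, hp.e_van i hi Λ, add_zero]
    · have := q1 Λ h1 h2 x
      refine ⟨?_, ?_, ?_⟩ <;> linarith [this.1, this.2.1, this.2.2]

end Pool.Agent.YUL
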