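import Pool.Agent.YUL.GS1

/-!
# [YUL-GS] the corrected test function
-/

open MeasureTheory Set Filter Topology
open scoped ContDiff

namespace Pool.Agent.YUL

open Pool.Agent.YUD Pool.Agent.YUT Pool.Agent.YUB Pool.Agent.YUR

/-- a test function with bounds of the first order -/
structure GT1 (ρ Y : ℝ) (n : ℕ) (f : ℂ → ℝ) : Prop where
  smooth : ContDiff ℝ ∞ f
  nul : GNul f n
  off : ∀ z, ρ < ‖z‖ → f z = 0
  le : ∀ z, |f z| ≤ Y
  dx_le : ∀ z, |dx f z| ≤ Y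
  dy_le : ∀ z, |dy f z| ≤ Y

theorem GTst.t1 {ρ X : ℝ} {n : ℕ} {f : ℂ → ℝ} (h : GTst ρ X n f) : GT1 ρ X n f :=
  ⟨h.smooth, h.nul, h.off, h.le, h.dx_le, h.dy_le⟩

theorem GT1.diff {ρ X : ℝ} {n : ℕ} {f : ℂ → ℝ} (h : GT1 ρ X n f) (z : ℂ) : DifferentiableAt ℝ f z :=
  h.smooth.differentiable (by simp) z

theorem GT1.mono {ρ X Y : ℝ} {n m : ℕ} {f : ℂ → ℝ} (h : GT1 ρ X n f) (hXY : X ≤ Y) (hm : m ≤ n) :
    GT1 ρ Y m f :=
  ⟨h.smooth, h.nul.mono hm, h.off, fun z => (h.le z).trans hXY, fun z => (h.dx_le z).trans hXY,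
    fun z => (h.dy_le z).trans hXY⟩

theorem GT1.const_mul {ρ X : ℝ} {n : ℕ} {f : ℂ → ℝ} (h : GT1 ρ X n f) (c : ℝ) :
    GT1 ρ (|c| * X) n (fun z => c * f z) := by
  refine ⟨contDiff_const.mul h.smooth, h.nul.const_mul c, fun z hz => by rw [h.off z hz, mul_zero],
    fun z => ?_, fun z => ?_, fun z => ?_⟩
  · rw [abs_mul]
    exact mul_le_mul_of_nonneg_left (h.le z) (abs_nonneg _)
  · rw [dx_const_mul c (h.diff z), abs_mul]
    exact mul_le_mul_of_nonneg_left (h.dx_le z) (abs_nonneg _)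
  · rw [dy_const_mul c (h.diff z), abs_mul]
    exact mul_le_mul_of_nonneg_left (h.dy_le z) (abs_nonneg _)

theorem GT1.sub {ρ X Y : ℝ} {n : ℕ} {f g : ℂ → ℝ} (h : GT1 ρ X n f) (k : GT1 ρ Y n g) :
    GT1 ρ (X + Y) n (fun z => f z - g z) := by
  refine ⟨h.smooth.sub k.smooth, h.nul.sub k.nul, fun z hz => by rw [h.off z hz, k.off z hz, sub_zero],
    fun z => ?_, fun z => ?_, fun z => ?_⟩
  · exact (abs_sub _ _).trans (add_le_add (h.le z) (k.le z))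
  · rw [dx_sub (h.diff z) (k.diff z)]
    exact (abs_sub _ _).trans (add_le_add (h.dx_le z) (k.dx_le z))
  · rw [dy_sub (h.diff z) (k.diff z)]
    exact (abs_sub _ _).trans (add_le_add (h.dy_le z) (k.dy_le z))

theorem GS_tsupp {ρ : ℝ} {f : ℂ → ℝ} (h : ∀ z, ρ < ‖z‖ → f z = 0) :
    tsupport f ⊆ Metric.closedBall 0 ρ := by
  refine closure_minimal ?_ Metric.isClosed_closedBall
  intro z hz
  rw [mem_closedBall_zero_iff]
  by_contra hcon
  exact hz (h z (not_le.1 hcon))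

theorem GS_off {ρ : ℝ} {f : ℂ → ℝ} (h : ∀ z, ρ < ‖z‖ → f z = 0) (z : ℂ) (hz : ρ < ‖z‖) :
    dx f z = 0 ∧ dy f z = 0 := by
  have h1 : z ∉ tsupport f := fun hz' => by
    have := GS_tsupp h hz'
    rw [mem_closedBall_zero_iff] at this
    linarith
  exact ⟨A3_dx_off h1, A3_dy_off h1⟩

theorem GS_quaC (k : Fin 3 → ℝ) {n : WithTop ℕ∞} : ContDiff ℝ n (qua k) := by
  unfold qua
  exact ((contDiff_const.mul (S7_cd_re.pow 2)).add
    (contDiff_const.mul (S7_cd_re.mul S7_cd_im))).add (contDiff_const.mul (S7_cd_im.pow 2))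

theorem GS_qua_d (k : Fin 3 → ℝ) (z : ℂ) :
    dx (qua k) z = lin ![2 * k 0, k 1] z ∧ dy (qua k) z = lin ![k 1, 2 * k 2] z := by
  have h := S7_dqd (k 0) (k 1) (k 2) z
  have e : qua k = S7_qd (k 0) (k 1) (k 2) := rfl
  rw [e, h.1, h.2]
  unfold lin
  simp

theorem GS_lin_le (u v q ρ : ℝ) (hu : |u| ≤ 2 * q) (hv : |v| ≤ q) (z : ℂ) (hz : ‖z‖ ≤ ρ) :
    |lin ![u, v] z| ≤ 3 * q * ρ := by
  have h1 := (Complex.abs_re_le_norm z).trans hz
  have h2 := (Complex.abs_im_le_norm z).trans hz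
  have hq : 0 ≤ q := (abs_nonneg _).trans hv
  have hρ : 0 ≤ ρ := (norm_nonneg z).trans hz
  unfold lin
  simp only [Matrix.cons_val_zero, Matrix.cons_val_one]
  calc |u * z.re + v * z.im| ≤ |u * z.re| + |v * z.im| := abs_add_le _ _
    _ = |u| * |z.re| + |v| * |z.im| := by rw [abs_mul, abs_mul]
    _ ≤ 2 * q * ρ + q * ρ := by gcongr
    _ = 3 * q * ρ := by ring

theorem GS_lin_le' (u v q ρ : ℝ) (hu : |u| ≤ q) (hv : |v| ≤ 2 * q) (z : ℂ) (hz : ‖z‖ ≤ ρ) :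
    |lin ![u, v] z| ≤ 3 * q * ρ := by
  have h1 := (Complex.abs_re_le_norm z).trans hz
  have h2 := (Complex.abs_im_le_norm z).trans hz
  have hq : 0 ≤ q := (abs_nonneg _).trans hu
  have hρ : 0 ≤ ρ := (norm_nonneg z).trans hz
  unfold lin
  simp only [Matrix.cons_val_zero, Matrix.cons_val_one]
  calc |u * z.re + v * z.im| ≤ |u * z.re| + |v * z.im| := abs_add_le _ _
    _ = |u| * |z.re| + |v| * |z.im| := by rw [abs_mul, abs_mul]
    _ ≤ q * ρ + 2 * q * ρ := by gcongr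
    _ = 3 * q * ρ := by ring

theorem GS_phi {ρ X : ℝ} {m : ℕ} {f : ℂ → ℝ} (h : GTst ρ X (m + 1) f) (hρ : 1 ≤ ρ)
    (Q₁ Q₂ : Fin 3 → ℝ) :
    GT1 ρ (6 * ρ ^ 2 * (‖Q₁‖ + ‖Q₂‖) * X) m (dv (qua Q₁) (qua Q₂) f) := by
  have hX : 0 ≤ X := (abs_nonneg _).trans (h.le 0)
  have sx : ContDiff ℝ ∞ (dx f) := S7_cd_dx h.smooth
  have sy : ContDiff ℝ ∞ (dy f) := S7_cd_dy h.smooth
  have f1 : ContDiff ℝ 1 f := h.smooth.of_le (by exact_mod_cast le_top)
  have nx : GNul (dx f) (m + 2) := h.nul.dx' f1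
  have ny : GNul (dy f) (m + 2) := h.nul.dy' f1
  have ex : dv (qua Q₁) (qua Q₂) f = fun z => qua Q₁ z * dx f z + qua Q₂ z * dy f z := rfl
  have o1 := GS_off h.off
  have dqx : ∀ (k : Fin 3 → ℝ) (z : ℂ), DifferentiableAt ℝ (qua k) z := fun k z =>
    (GS_quaC k (n := 1)).differentiable one_ne_zero z
  have dsx : ∀ z, DifferentiableAt ℝ (dx f) z := sx.differentiable (by simp)
  have dsy : ∀ z, DifferentiableAt ℝ (dy f) z := sy.differentiable (by simp)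
  have hoff : ∀ z, ρ < ‖z‖ → dv (qua Q₁) (qua Q₂) f z = 0 := by
    intro z hz
    rw [ex]
    simp only
    rw [(o1 z hz).1, (o1 z hz).2, mul_zero, mul_zero, add_zero]
  have o2 := GS_off hoff
  have hB : 0 ≤ 6 * ρ ^ 2 * (‖Q₁‖ + ‖Q₂‖) * X := by positivity
  have hρ2 : ρ ≤ ρ ^ 2 := by nlinarith
  refine ⟨?_, ?_, hoff, ?_, ?_, ?_⟩
  · rw [ex]
    exact ((GS_quaC Q₁).mul sx).add ((GS_quaC Q₂).mul sy)
  · exact (nx.qua Q₁).add (ny.qua Q₂)
  · intro z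
    rcases lt_or_ge ρ ‖z‖ with hz | hz
    · rw [hoff z hz, abs_zero]
      exact hB
    · have q1 := GL_qua_norm (Q := Q₁) hz
      have q2 := GL_qua_norm (Q := Q₂) hz
      calc |dv (qua Q₁) (qua Q₂) f z| ≤ |qua Q₁ z * dx f z| + |qua Q₂ z * dy f z| := abs_add_le _ _
        _ = |qua Q₁ z| * |dx f z| + |qua Q₂ z| * |dy f z| := by rw [abs_mul, abs_mul]
        _ ≤ (3 * ‖Q₁‖ * ρ ^ 2) * X + (3 * ‖Q₂‖ * ρ ^ 2) * X := by
            gcongr
            · exact h.dx_le z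
            · exact h.dy_le z
        _ ≤ 6 * ρ ^ 2 * (‖Q₁‖ + ‖Q₂‖) * X := by
            have : 0 ≤ ρ ^ 2 * (‖Q₁‖ + ‖Q₂‖) * X := by positivity
            nlinarith
  · intro z
    rcases lt_or_ge ρ ‖z‖ with hz | hz
    · rw [(o2 z hz).1, abs_zero]
      exact hB
    · have q1 := GL_qua_norm (Q := Q₁) hz
      have q2 := GL_qua_norm (Q := Q₂) hz
      have e1 : dx (dv (qua Q₁) (qua Q₂) f) z = (dx (qua Q₁) z * dx f z + qua Q₁ z * dx (dx f) z) +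
          (dx (qua Q₂) z * dy f z + qua Q₂ z * dx (dy f) z) := by
        rw [ex, dx_add (f := fun z => qua Q₁ z * dx f z) (g := fun z => qua Q₂ z * dy f z)
          ((dqx Q₁ z).mul (dsx z)) ((dqx Q₂ z).mul (dsy z)), dx_mul (dqx Q₁ z) (dsx z),
          dx_mul (dqx Q₂ z) (dsy z)]
      have l1 : |dx (qua Q₁) z| ≤ 3 * ‖Q₁‖ * ρ := by
        rw [(GS_qua_d Q₁ z).1]
        refine GS_lin_le _ _ _ _ ?_ (norm_le_pi_norm Q₁ 1) z hz
        rw [abs_mul, abs_two]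
        exact mul_le_mul_of_nonneg_left (norm_le_pi_norm Q₁ 0) (by norm_num)
      have l2 : |dx (qua Q₂) z| ≤ 3 * ‖Q₂‖ * ρ := by
        rw [(GS_qua_d Q₂ z).1]
        refine GS_lin_le _ _ _ _ ?_ (norm_le_pi_norm Q₂ 1) z hz
        rw [abs_mul, abs_two]
        exact mul_le_mul_of_nonneg_left (norm_le_pi_norm Q₂ 0) (by norm_num)
      rw [e1]
      calc |(dx (qua Q₁) z * dx f z + qua Q₁ z * dx (dx f) z) +
            (dx (qua Q₂) z * dy f z + qua Q₂ z * dx (dy f) z)|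
          ≤ (|dx (qua Q₁) z * dx f z| + |qua Q₁ z * dx (dx f) z|) +
            (|dx (qua Q₂) z * dy f z| + |qua Q₂ z * dx (dy f) z|) :=
              (abs_add_le _ _).trans (add_le_add (abs_add_le _ _) (abs_add_le _ _))
        _ = (|dx (qua Q₁) z| * |dx f z| + |qua Q₁ z| * |dx (dx f) z|) +
            (|dx (qua Q₂) z| * |dy f z| + |qua Q₂ z| * |dx (dy f) z|) := by
              rw [abs_mul, abs_mul, abs_mul, abs_mul]
        _ ≤ ((3 * ‖Q₁‖ * ρ) * X + (3 * ‖Q₁‖ * ρ ^ 2) * X) +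
            ((3 * ‖Q₂‖ * ρ) * X + (3 * ‖Q₂‖ * ρ ^ 2) * X) := by
            gcongr
            · exact h.dx_le z
            · exact h.dxx_le z
            · exact h.dy_le z
            · exact h.dxy_le z
        _ ≤ ((3 * ‖Q₁‖ * ρ ^ 2) * X + (3 * ‖Q₁‖ * ρ ^ 2) * X) +
            ((3 * ‖Q₂‖ * ρ ^ 2) * X + (3 * ‖Q₂‖ * ρ ^ 2) * X) := by gcongr
        _ = 6 * ρ ^ 2 * (‖Q₁‖ + ‖Q₂‖) * X := by ring
  · intro z
    rcases lt_or_ge ρ ‖z‖ with hz | hz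
    · rw [(o2 z hz).2, abs_zero]
      exact hB
    · have q1 := GL_qua_norm (Q := Q₁) hz
      have q2 := GL_qua_norm (Q := Q₂) hz
      have e1 : dy (dv (qua Q₁) (qua Q₂) f) z = (dy (qua Q₁) z * dx f z + qua Q₁ z * dy (dx f) z) +
          (dy (qua Q₂) z * dy f z + qua Q₂ z * dy (dy f) z) := by
        rw [ex, dy_add (f := fun z => qua Q₁ z * dx f z) (g := fun z => qua Q₂ z * dy f z)
          ((dqx Q₁ z).mul (dsx z)) ((dqx Q₂ z).mul (dsy z)), dy_mul (dqx Q₁ z) (dsx z),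
          dy_mul (dqx Q₂ z) (dsy z)]
      have l1 : |dy (qua Q₁) z| ≤ 3 * ‖Q₁‖ * ρ := by
        rw [(GS_qua_d Q₁ z).2]
        refine GS_lin_le' _ _ _ _ (norm_le_pi_norm Q₁ 1) ?_ z hz
        rw [abs_mul, abs_two]
        exact mul_le_mul_of_nonneg_left (norm_le_pi_norm Q₁ 2) (by norm_num)
      have l2 : |dy (qua Q₂) z| ≤ 3 * ‖Q₂‖ * ρ := by
        rw [(GS_qua_d Q₂ z).2]
        refine GS_lin_le' _ _ _ _ (norm_le_pi_norm Q₂ 1) ?_ z hz
        rw [abs_mul, abs_two]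
        exact mul_le_mul_of_nonneg_left (norm_le_pi_norm Q₂ 2) (by norm_num)
      rw [e1]
      calc |(dy (qua Q₁) z * dx f z + qua Q₁ z * dy (dx f) z) +
            (dy (qua Q₂) z * dy f z + qua Q₂ z * dy (dy f) z)|
          ≤ (|dy (qua Q₁) z * dx f z| + |qua Q₁ z * dy (dx f) z|) +
            (|dy (qua Q₂) z * dy f z| + |qua Q₂ z * dy (dy f) z|) :=
              (abs_add_le _ _).trans (add_le_add (abs_add_le _ _) (abs_add_le _ _))
        _ = (|dy (qua Q₁) z| * |dx f z| + |qua Q₁ z| * |dy (dx f) z|) +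
            (|dy (qua Q₂) z| * |dy f z| + |qua Q₂ z| * |dy (dy f) z|) := by
              rw [abs_mul, abs_mul, abs_mul, abs_mul]
        _ ≤ ((3 * ‖Q₁‖ * ρ) * X + (3 * ‖Q₁‖ * ρ ^ 2) * X) +
            ((3 * ‖Q₂‖ * ρ) * X + (3 * ‖Q₂‖ * ρ ^ 2) * X) := by
            gcongr
            · exact h.dx_le z
            · exact h.dyx_le z
            · exact h.dy_le z
            · exact h.dyy_le z
        _ ≤ ((3 * ‖Q₁‖ * ρ ^ 2) * X + (3 * ‖Q₁‖ * ρ ^ 2) * X) +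
            ((3 * ‖Q₂‖ * ρ ^ 2) * X + (3 * ‖Q₂‖ * ρ ^ 2) * X) := by gcongr
        _ = 6 * ρ ^ 2 * (‖Q₁‖ + ‖Q₂‖) * X := by ring

end Pool.Agent.YUL
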