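import Pool.Agent.YUL.GS2

/-!
# [YUL-GS] the terms killed by the vanishing moments
-/

open MeasureTheory Set Filter Topology
open scoped ContDiff

namespace Pool.Agent.YUL

open Pool.Agent.YUD Pool.Agent.YUT Pool.Agent.YUB Pool.Agent.YUR

theorem GS_kill {R ρ Y : ℝ} {K T : ℂ → ℝ} (hρR : ρ < R) (hK : GNul K 0)
    (hT : ContinuousOn T (Metric.ball 0 R)) (hT0 : ∀ z, ρ < ‖z‖ → T z = 0)
    (hK0 : ∀ z, ρ < ‖z‖ → K z = 0) (hY : ∀ z, ‖z‖ ≤ ρ → |T z - K z| ≤ Y) :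
    |∫ z, T z| ≤ Y * (volume (Metric.closedBall (0 : ℂ) ρ)).toReal := by
  have iT : Integrable T := GL_integrable hρR hT hT0
  have iK : Integrable K := hK.cont.integrable_of_hasCompactSupport hK.cpt
  have h1 : ∫ z, T z = ∫ z, (T z - K z) := by
    rw [integral_sub iT iK, hK.integral, sub_zero]
  rw [h1]
  refine GL_int_le (fun z hz => ?_) hY
  rw [hT0 z hz, hK0 z hz, sub_zero]

theorem GS_cub_le {k : Fin 4 → ℝ} {C ρ : ℝ} (hk : ∀ i, |k i| ≤ C) {z : ℂ} (hz : ‖z‖ ≤ ρ) :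
    |cub k z| ≤ 4 * C * ρ ^ 3 := by
  have h1 := (Complex.abs_re_le_norm z).trans hz
  have h2 := (Complex.abs_im_le_norm z).trans hz
  have hC : 0 ≤ C := (abs_nonneg _).trans (hk 0)
  have hρ : 0 ≤ ρ := (norm_nonneg z).trans hz
  have a1 : |k 0 * z.re ^ 3| ≤ C * ρ ^ 3 := by
    rw [abs_mul, abs_pow]
    have := hk 0
    gcongr
  have a2 : |k 1 * (z.re ^ 2 * z.im)| ≤ C * (ρ ^ 2 * ρ) := by
    rw [abs_mul, abs_mul, abs_pow]
    have := hk 1
    gcongr
  have a3 : |k 2 * (z.re * z.im ^ 2)| ≤ C * (ρ * ρ ^ 2) := by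
    rw [abs_mul, abs_mul, abs_pow]
    have := hk 2
    gcongr
  have a4 : |k 3 * z.im ^ 3| ≤ C * ρ ^ 3 := by
    rw [abs_mul, abs_pow]
    have := hk 3
    gcongr
  unfold cub
  have b1 := abs_add_le (k 0 * z.re ^ 3 + k 1 * (z.re ^ 2 * z.im) + k 2 * (z.re * z.im ^ 2)) (k 3 * z.im ^ 3)
  have b2 := abs_add_le (k 0 * z.re ^ 3 + k 1 * (z.re ^ 2 * z.im)) (k 2 * (z.re * z.im ^ 2))
  have b3 := abs_add_le (k 0 * z.re ^ 3) (k 1 * (z.re ^ 2 * z.im))
  nlinarith [a1, a2, a3, a4, b1, b2, b3]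

/-- the transport term against the linear part of the vorticity -/
theorem GS_T1 {α C R r : ℝ} {qa qb : Fin 3 → ℝ} {γ μ ν p : ℝ} {s η m W₁ W₂ : ℂ → ℝ}
    (h : GSlc α C R r qa qb γ μ ν p s η m W₁ W₂) (hC : 0 ≤ C) {ρ X Y β g : ℝ} {H F : ℂ → ℝ}
    (hH : GT1 ρ X 4 H) (hF : GNul F 2) (hF0 : ∀ z, ρ < ‖z‖ → F z = 0) (hFY : ∀ z, |F z| ≤ Y)
    (hρ : 0 ≤ ρ) (hρR : ρ < R) (hr : 0 < r) (hr1 : r ≤ 1) (hβ : 0 < β) (hβC : β ≤ C)
    (hg : |g| ≤ C) :
    |∫ z, (g + r * β * z.im) * (F z * m z + dv W₁ W₂ H z)| ≤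
      r ^ 3 * ((3 * C * C * ρ ^ 3 * Y + (C + C * ρ) * (C * ρ ^ 3) * Y +
        2 * ((C + C * ρ) * (C * ρ ^ 4) * X)) *
        (volume (Metric.closedBall (0 : ℂ) ρ)).toReal) := by
  obtain ⟨m₁, m₂, h1, h2, h3⟩ := h.m_eq
  obtain ⟨c₁, h4, h5⟩ := h.W₁_eq
  obtain ⟨c₂, h6, h7⟩ := h.W₂_eq
  have hX0 : 0 ≤ X := (abs_nonneg _).trans (hH.le 0)
  have hY0 : 0 ≤ Y := (abs_nonneg _).trans (hFY 0)
  have H1 : ContDiff ℝ 1 H := hH.smooth.of_le (by exact_mod_cast le_top)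
  have nx : GNul (dx H) 5 := hH.nul.dx' H1
  have ny : GNul (dy H) 5 := hH.nul.dy' H1
  have oH := GS_off hH.off
  -- killed terms
  set K₀ : ℂ → ℝ := fun z => g * F z + r * (β * (z.im * F z) + g * (lin m₁ z * F z)) +
    r ^ 2 * (g * (qua m₂ z * F z) + β * (z.im * (lin m₁ z * F z))) with hK₀
  have kK₀ : GNul K₀ 0 := by
    have n1 : GNul (fun z => z.im * F z) 1 := GNul.im_mul (n := 1) hF
    have n2 : GNul (fun z => lin m₁ z * F z) 1 := GNul.lin (n := 1) hF m₁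
    have n3 : GNul (fun z => qua m₂ z * F z) 0 := GNul.qua (n := 0) hF m₂
    have n4 : GNul (fun z => z.im * (lin m₁ z * F z)) 0 := GNul.im_mul (n := 0) n2
    exact (((hF.mono (by norm_num : (0 : ℕ) ≤ 2)).const_mul g).add
      (((((n1.mono (by norm_num : (0 : ℕ) ≤ 1)).const_mul β).add
        ((n2.mono (by norm_num : (0 : ℕ) ≤ 1)).const_mul g))).const_mul r)).add
        (((n3.const_mul g).add (n4.const_mul β)).const_mul (r ^ 2))
  have kD : ∀ (q : Fin 3 → ℝ) (c : Fin 4 → ℝ) {G : ℂ → ℝ}, GNul G 5 →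
      GNul (fun z => (g + r * β * z.im) * ((r * qua q z + r ^ 2 * cub c z) * G z)) 0 := by
    intro q c G hG
    have n1 : GNul (fun z => qua q z * G z) 3 := GNul.qua (n := 3) hG q
    have n2 : GNul (fun z => cub c z * G z) 2 := GNul.cub (n := 2) hG c
    have n3 : GNul (fun z => r * (qua q z * G z) + r ^ 2 * (cub c z * G z)) 1 :=
      ((n1.mono (by norm_num : (1 : ℕ) ≤ 3)).const_mul r).add
        ((n2.mono (by norm_num : (1 : ℕ) ≤ 2)).const_mul (r ^ 2))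
    have n4 := GNul.im_mul (n := 0) n3
    exact (((n3.mono (by norm_num : (0 : ℕ) ≤ 1)).const_mul g).add (n4.const_mul (r * β))).congr
      fun z => by ring
  have kW₁ := kD qa c₁ nx
  have kW₂ := kD qb c₂ ny
  have kK := (kK₀.add kW₁).add kW₂
  have cI : ContinuousOn (fun z : ℂ => g + r * β * z.im) (Metric.ball (0 : ℂ) R) := by fun_prop
  have cdx : Continuous (dx H) := nx.cont
  have cdy : Continuous (dy H) := ny.cont
  have cT : ContinuousOn (fun z => (g + r * β * z.im) * (F z * m z + dv W₁ W₂ H z))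
      (Metric.ball (0 : ℂ) R) :=
    cI.mul ((hF.cont.continuousOn.mul h.m_cont).add ((h.W₁_cont.mul cdx.continuousOn).add
      (h.W₂_cont.mul cdy.continuousOn)))
  have main := GS_kill (R := R) (ρ := ρ) hρR kK cT (Y := r ^ 3 * (3 * C * C * ρ ^ 3 * Y +
    (C + C * ρ) * (C * ρ ^ 3) * Y + 2 * ((C + C * ρ) * (C * ρ ^ 4) * X))) ?_ ?_ ?_
  · calc _ ≤ _ := main
      _ = _ := by ring
  · intro z hz
    unfold dv
    rw [hF0 z hz, (oH z hz).1, (oH z hz).2]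
    ring
  · intro z hz
    simp only [hK₀]
    rw [hF0 z hz, (oH z hz).1, (oH z hz).2]
    ring
  · intro z hz
    have hz' : z ∈ Metric.ball (0 : ℂ) R := by
      rw [Metric.mem_ball, dist_zero_right]
      linarith
    have hzρ : |z.im| ≤ ρ := (Complex.abs_im_le_norm z).trans hz
    have e1 := h3 z hz'
    have e2 := h5 z hz'
    have e3 := h7 z hz'
    have e4 := GL_qua_le h2 hz
    have e5 : |g + r * β * z.im| ≤ C + C * ρ := by
      refine (abs_add_le _ _).trans (add_le_add hg ?_)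
      rw [abs_mul, abs_mul, abs_of_pos hr, abs_of_pos hβ]
      have : r * β ≤ C := by nlinarith
      gcongr
    have k3 : C * r ^ 3 * ‖z‖ ^ 3 ≤ C * r ^ 3 * ρ ^ 3 := by gcongr
    have k4 : C * r ^ 3 * ‖z‖ ^ 4 ≤ C * r ^ 3 * ρ ^ 4 := by gcongr
    have e6 : (g + r * β * z.im) * (F z * m z + dv W₁ W₂ H z) - (K₀ z +
        (g + r * β * z.im) * ((r * qua qa z + r ^ 2 * cub c₁ z) * dx H z) +
        (g + r * β * z.im) * ((r * qua qb z + r ^ 2 * cub c₂ z) * dy H z)) =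
        r ^ 3 * (β * (z.im * (qua m₂ z * F z))) +
        (g + r * β * z.im) * ((m z - 1 - r * lin m₁ z - r ^ 2 * qua m₂ z) * F z) +
        (g + r * β * z.im) * ((W₁ z - r * qua qa z - r ^ 2 * cub c₁ z) * dx H z) +
        (g + r * β * z.im) * ((W₂ z - r * qua qb z - r ^ 2 * cub c₂ z) * dy H z) := by
      simp only [hK₀, dv]
      ring
    rw [e6]
    have b1 : |r ^ 3 * (β * (z.im * (qua m₂ z * F z)))| ≤ r ^ 3 * (C * (ρ * ((3 * C * ρ ^ 2) * Y))) := by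
      rw [abs_mul, abs_mul, abs_mul, abs_mul, abs_of_pos (pow_pos hr 3), abs_of_pos hβ]
      have := hFY z
      gcongr
    have b2 : |(g + r * β * z.im) * ((m z - 1 - r * lin m₁ z - r ^ 2 * qua m₂ z) * F z)| ≤
        (C + C * ρ) * ((C * r ^ 3 * ρ ^ 3) * Y) := by
      rw [abs_mul, abs_mul]
      have := hFY z
      have := e1.trans k3
      gcongr
    have b3 : |(g + r * β * z.im) * ((W₁ z - r * qua qa z - r ^ 2 * cub c₁ z) * dx H z)| ≤
        (C + C * ρ) * ((C * r ^ 3 * ρ ^ 4) * X) := by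
      rw [abs_mul, abs_mul]
      have := hH.dx_le z
      have := e2.trans k4
      gcongr
    have b4 : |(g + r * β * z.im) * ((W₂ z - r * qua qb z - r ^ 2 * cub c₂ z) * dy H z)| ≤
        (C + C * ρ) * ((C * r ^ 3 * ρ ^ 4) * X) := by
      rw [abs_mul, abs_mul]
      have := hH.dy_le z
      have := e3.trans k4
      gcongr
    refine (abs_add_le _ _).trans ((add_le_add ((abs_add_le _ _).trans (add_le_add
      ((abs_add_le _ _).trans (add_le_add b1 b2)) b3)) b4).trans (le_of_eq ?_))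
    ring

/-- the bracket with the stream function against the linear part of the vorticity -/
theorem GS_T2 {R ρ : ℝ} (hρR : ρ < R) {s H : ℂ → ℝ} (hs : ContDiffOn ℝ 2 s (Metric.ball 0 R))
    (hH : ContDiff ℝ ∞ H) (h0 : ∀ z, ρ < ‖z‖ → H z = 0) :
    ∫ z, pb s H z = 0 ∧ ∫ z, z.im * pb s H z = ∫ z, s z * dx H z := by
  have hsub : tsupport H ⊆ Metric.ball 0 R :=
    (GS_tsupp h0).trans (Metric.closedBall_subset_ball hρR)
  have hc : HasCompactSupport H :=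
    HasCompactSupport.of_support_subset_isCompact (isCompact_closedBall (0 : ℂ) ρ)
      ((subset_tsupport _).trans (GS_tsupp h0))
  have hH2 : ContDiff ℝ 2 H := contDiff_infty.mp hH 2
  have hs1 : ContDiffOn ℝ 1 s (Metric.ball 0 R) := hs.of_le (by norm_num)
  refine ⟨int_pb_zero Metric.isOpen_ball hs1 hH2 hc hsub, ?_⟩
  rw [int_pb Metric.isOpen_ball (S7_cd_im (n := 1)).contDiffOn hs1 hH2 hc hsub]
  congr 1
  funext z
  unfold pb
  rw [(S7_dim z).1, (S7_dim z).2]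
  ring

end Pool.Agent.YUL
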