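import Pool.Agent.YUL.GS3

/-!
# [YUL-GS] the error terms with the singular part of the vorticity
-/

open MeasureTheory Set Filter Topology
open scoped ContDiff

namespace Pool.Agent.YUL

open Pool.Agent.YUD Pool.Agent.YUT Pool.Agent.YUB Pool.Agent.YUR

theorem GS_rpow_le {x ρ a : ℝ} (hx : 0 ≤ x) (hxρ : x ≤ ρ) (ha : 0 ≤ a) : x ^ a ≤ ρ ^ a :=
  Real.rpow_le_rpow hx hxρ ha

/-- the velocity is close to its quadratic part -/
theorem GS_W {α C R r : ℝ} {qa qb : Fin 3 → ℝ} {γ μ ν p : ℝ} {s η m W₁ W₂ : ℂ → ℝ}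
    (h : GSlc α C R r qa qb γ μ ν p s η m W₁ W₂) (hC : 0 ≤ C) {ρ : ℝ} (hρR : ρ < R)
    (hr : 0 < r) (hr1 : r ≤ 1) (z : ℂ) (hz : ‖z‖ ≤ ρ) :
    |W₁ z - r * qua qa z| ≤ r ^ 2 * (4 * C * ρ ^ 3 + C * ρ ^ 4) ∧
      |W₂ z - r * qua qb z| ≤ r ^ 2 * (4 * C * ρ ^ 3 + C * ρ ^ 4) ∧
      |W₁ z| ≤ r * (3 * C * ρ ^ 2 + (4 * C * ρ ^ 3 + C * ρ ^ 4)) ∧
      |W₂ z| ≤ r * (3 * C * ρ ^ 2 + (4 * C * ρ ^ 3 + C * ρ ^ 4)) := by
  obtain ⟨c₁, h4, h5⟩ := h.W₁_eq
  obtain ⟨c₂, h6, h7⟩ := h.W₂_eq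
  have hρ : 0 ≤ ρ := (norm_nonneg z).trans hz
  have hz' : z ∈ Metric.ball (0 : ℂ) R := by
    rw [Metric.mem_ball, dist_zero_right]
    linarith
  have k4 : C * r ^ 3 * ‖z‖ ^ 4 ≤ r ^ 2 * (C * ρ ^ 4) := by
    have : r ^ 3 ≤ r ^ 2 := pow_le_pow_of_le_one hr.le hr1 (by norm_num)
    calc C * r ^ 3 * ‖z‖ ^ 4 ≤ C * r ^ 2 * ρ ^ 4 := by gcongr
      _ = _ := by ring
  have key : ∀ (W : ℝ) (q : Fin 3 → ℝ) (c : Fin 4 → ℝ), (∀ i, |q i| ≤ C) → (∀ i, |c i| ≤ C) →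
      |W - r * qua q z - r ^ 2 * cub c z| ≤ C * r ^ 3 * ‖z‖ ^ 4 →
      |W - r * qua q z| ≤ r ^ 2 * (4 * C * ρ ^ 3 + C * ρ ^ 4) ∧
      |W| ≤ r * (3 * C * ρ ^ 2 + (4 * C * ρ ^ 3 + C * ρ ^ 4)) := by
    intro W q c hq hc hW
    have e1 := GS_cub_le hc hz
    have e2 := GL_qua_le hq hz
    have e3 : |W - r * qua q z| ≤ r ^ 2 * (4 * C * ρ ^ 3 + C * ρ ^ 4) := by
      have e4 : W - r * qua q z = r ^ 2 * cub c z + (W - r * qua q z - r ^ 2 * cub c z) := by ring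
      rw [e4]
      refine (abs_add_le _ _).trans ?_
      rw [abs_mul, abs_of_pos (pow_pos hr 2), mul_add]
      exact add_le_add (mul_le_mul_of_nonneg_left e1 (by positivity)) (hW.trans k4)
    refine ⟨e3, ?_⟩
    have e5 : W = r * qua q z + (W - r * qua q z) := by ring
    rw [e5]
    refine (abs_add_le _ _).trans ?_
    rw [abs_mul, abs_of_pos hr, mul_add]
    refine add_le_add (mul_le_mul_of_nonneg_left e2 hr.le) (e3.trans ?_)
    have : r ^ 2 ≤ r := by nlinarith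
    exact mul_le_mul_of_nonneg_right this (by positivity)
  obtain ⟨x1, x2⟩ := key (W₁ z) qa c₁ h.a_le h4 (h5 z hz')
  obtain ⟨y1, y2⟩ := key (W₂ z) qb c₂ h.b_le h6 (h7 z hz')
  exact ⟨x1, y1, x2, y2⟩

theorem GS_dv_le {u v a b U V A B : ℝ} (hu : |u| ≤ U) (hv : |v| ≤ V) (ha : |a| ≤ A) (hb : |b| ≤ B) :
    |u * a + v * b| ≤ U * A + V * B := by
  refine (abs_add_le _ _).trans ?_
  rw [abs_mul, abs_mul]
  exact add_le_add (mul_le_mul hu ha (abs_nonneg _) ((abs_nonneg _).trans hu))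
    (mul_le_mul hv hb (abs_nonneg _) ((abs_nonneg _).trans hv))

/-- the transport term against the singular part of the vorticity -/
theorem GS_T3 {α C R r : ℝ} {qa qb : Fin 3 → ℝ} {γ μ ν p : ℝ} {s η m W₁ W₂ : ℂ → ℝ}
    (h : GSlc α C R r qa qb γ μ ν p s η m W₁ W₂) (hα : 0 < α) (hC : 0 ≤ C) {ρ X K Φ Ψ D : ℝ}
    {f ft φ φt d : ℂ → ℝ} (hf : GT1 ρ X 0 f) (hft : GT1 ρ (r * K) 0 ft) (hφ : GT1 ρ Φ 0 φ)
    (hφt : GT1 ρ (r * Ψ) 0 φt) (hd : GT1 ρ D 0 d) (hdf : d = dv (qua qa) (qua qb) f)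
    (hρ : 0 ≤ ρ) (hρR : ρ < R) (hr : 0 < r) (hr1 : r ≤ 1) :
    |(∫ z, η z * ((ft z - r * d z - r * φt z) * m z + dv W₁ W₂ (fun z => f z - r * φ z) z)) -
      ∫ z, η z * ft z| ≤
      r ^ 2 * ((C * ρ ^ (1 + α)) * ((K + D) * (2 * C * ρ + 3 * C * ρ ^ 2 + C * ρ ^ 3) +
        2 * ((4 * C * ρ ^ 3 + C * ρ ^ 4) * X) +
        (Ψ * (1 + (2 * C * ρ + 3 * C * ρ ^ 2 + C * ρ ^ 3)) +
        2 * ((3 * C * ρ ^ 2 + (4 * C * ρ ^ 3 + C * ρ ^ 4)) * Φ))) *
        (volume (Metric.closedBall (0 : ℂ) ρ)).toReal) := by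
  have cη : ContinuousOn η (Metric.ball (0 : ℂ) R) := h.η_c1.continuousOn
  have oft := hft.off
  have hdx : ∀ z, dx (fun z => f z - r * φ z) z = dx f z - r * dx φ z := by
    intro z
    rw [dx_sub (f := f) (g := fun z => r * φ z) (hf.diff z) ((hφ.diff z).const_mul r),
      dx_const_mul r (hφ.diff z)]
  have hdy : ∀ z, dy (fun z => f z - r * φ z) z = dy f z - r * dy φ z := by
    intro z
    rw [dy_sub (f := f) (g := fun z => r * φ z) (hf.diff z) ((hφ.diff z).const_mul r),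
      dy_const_mul r (hφ.diff z)]
  have cdxf : Continuous (dx f) := (S7_cd_dx hf.smooth).continuous
  have cdyf : Continuous (dy f) := (S7_cd_dy hf.smooth).continuous
  have cdxφ : Continuous (dx φ) := (S7_cd_dx hφ.smooth).continuous
  have cdyφ : Continuous (dy φ) := (S7_cd_dy hφ.smooth).continuous
  have eq0 : ∀ z, (ft z - r * d z - r * φt z) * m z + dv W₁ W₂ (fun z => f z - r * φ z) z =
      (ft z - r * d z - r * φt z) * m z + (W₁ z * (dx f z - r * dx φ z) +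
        W₂ z * (dy f z - r * dy φ z)) := by
    intro z
    unfold dv
    rw [hdx, hdy]
  have c1 : ContinuousOn (fun z => η z * ((ft z - r * d z - r * φt z) * m z +
      (W₁ z * (dx f z - r * dx φ z) + W₂ z * (dy f z - r * dy φ z)))) (Metric.ball (0 : ℂ) R) := by
    have a1 : Continuous fun z => ft z - r * d z - r * φt z :=
      (hft.smooth.continuous.sub (continuous_const.mul hd.smooth.continuous)).sub
        (continuous_const.mul hφt.smooth.continuous)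
    have a2 : Continuous fun z => dx f z - r * dx φ z := cdxf.sub (continuous_const.mul cdxφ)
    have a3 : Continuous fun z => dy f z - r * dy φ z := cdyf.sub (continuous_const.mul cdyφ)
    exact cη.mul ((a1.continuousOn.mul h.m_cont).add ((h.W₁_cont.mul a2.continuousOn).add
      (h.W₂_cont.mul a3.continuousOn)))
  have o1 := GS_off hf.off
  have o2 := GS_off hφ.off
  have z1 : ∀ z, ρ < ‖z‖ → η z * ((ft z - r * d z - r * φt z) * m z +
      (W₁ z * (dx f z - r * dx φ z) + W₂ z * (dy f z - r * dy φ z))) = 0 := by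
    intro z hz
    rw [hft.off z hz, hd.off z hz, hφt.off z hz, (o1 z hz).1, (o1 z hz).2, (o2 z hz).1, (o2 z hz).2]
    ring
  have i1 := GL_integrable hρR c1 z1
  have i2 : Integrable (fun z => η z * ft z) :=
    GL_integrable hρR (cη.mul hft.smooth.continuous.continuousOn)
      (fun z hz => by rw [hft.off z hz, mul_zero])
  have e1 : (∫ z, η z * ((ft z - r * d z - r * φt z) * m z +
      dv W₁ W₂ (fun z => f z - r * φ z) z)) = ∫ z, η z * ((ft z - r * d z - r * φt z) * m z +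
      (W₁ z * (dx f z - r * dx φ z) + W₂ z * (dy f z - r * dy φ z))) := by
    congr 1
    funext z
    rw [eq0 z]
  rw [e1, ← integral_sub i1 i2]
  have main := GL_int_le (u := fun z => η z * ((ft z - r * d z - r * φt z) * m z +
      (W₁ z * (dx f z - r * dx φ z) + W₂ z * (dy f z - r * dy φ z))) - η z * ft z) (ρ := ρ)
      (X := r ^ 2 * ((C * ρ ^ (1 + α)) * ((K + D) * (2 * C * ρ + 3 * C * ρ ^ 2 + C * ρ ^ 3) +
        2 * ((4 * C * ρ ^ 3 + C * ρ ^ 4) * X) +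
        (Ψ * (1 + (2 * C * ρ + 3 * C * ρ ^ 2 + C * ρ ^ 3)) +
        2 * ((3 * C * ρ ^ 2 + (4 * C * ρ ^ 3 + C * ρ ^ 4)) * Φ))))) ?_ ?_
  · calc _ ≤ _ := main
      _ = _ := by ring
  · intro z hz
    rw [z1 z hz, hft.off z hz, mul_zero, sub_zero]
  · intro z hz
    have hz' : z ∈ Metric.ball (0 : ℂ) R := by
      rw [Metric.mem_ball, dist_zero_right]
      linarith
    have e2 := GL_m h hC hρR hr hr1 z hz
    obtain ⟨w1, w2, w3, w4⟩ := GS_W h hC hρR hr hr1 z hz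
    have e3 : |η z| ≤ C * ρ ^ (1 + α) :=
      (h.η_le z hz').trans (mul_le_mul_of_nonneg_left
        (GS_rpow_le (norm_nonneg z) hz (by linarith)) hC)
    set M : ℝ := 2 * C * ρ + 3 * C * ρ ^ 2 + C * ρ ^ 3 with hM
    have hM0 : 0 ≤ M := by positivity
    set w : ℝ := 4 * C * ρ ^ 3 + C * ρ ^ 4 with hw
    have hw0 : 0 ≤ w := by positivity
    have hE0 : 0 ≤ C * ρ ^ (1 + α) := (abs_nonneg _).trans e3
    have hD0 : 0 ≤ D := (abs_nonneg _).trans (hd.le 0)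
    have e4 : |m z| ≤ 1 + M := by
      have : m z = 1 + (m z - 1) := by ring
      rw [this]
      refine (abs_add_le _ _).trans ?_
      rw [abs_one]
      have : r * M ≤ M := by nlinarith
      linarith
    have e5 : η z * ((ft z - r * d z - r * φt z) * m z +
      (W₁ z * (dx f z - r * dx φ z) + W₂ z * (dy f z - r * dy φ z))) - η z * ft z =
      η z * (((ft z * (m z - 1) + (-(r * d z)) * (m z - 1)) +
        ((W₁ z - r * qua qa z) * dx f z + (W₂ z - r * qua qb z) * dy f z)) +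
        ((-(r * φt z)) * m z + (-r) * (W₁ z * dx φ z + W₂ z * dy φ z))) := by
      rw [hdf]
      unfold dv
      ring
    rw [e5, abs_mul]
    have b1 : |ft z * (m z - 1) + (-(r * d z)) * (m z - 1)| ≤ (r * K) * (r * M) + (r * D) * (r * M) := by
      refine GS_dv_le (hft.le z) ?_ e2 e2
      rw [abs_neg, abs_mul, abs_of_pos hr]
      exact mul_le_mul_of_nonneg_left (hd.le z) hr.le
    have b2 : |(W₁ z - r * qua qa z) * dx f z + (W₂ z - r * qua qb z) * dy f z| ≤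
        (r ^ 2 * w) * X + (r ^ 2 * w) * X := GS_dv_le w1 w2 (hf.dx_le z) (hf.dy_le z)
    have b3 : |(-(r * φt z)) * m z + (-r) * (W₁ z * dx φ z + W₂ z * dy φ z)| ≤
        (r * (r * Ψ)) * (1 + M) + r * ((r * (3 * C * ρ ^ 2 + w)) * Φ + (r * (3 * C * ρ ^ 2 + w)) * Φ) := by
      refine GS_dv_le ?_ ?_ e4 (GS_dv_le w3 w4 (hφ.dx_le z) (hφ.dy_le z))
      · rw [abs_neg, abs_mul, abs_of_pos hr]
        exact mul_le_mul_of_nonneg_left (hφt.le z) hr.le
      · rw [abs_neg, abs_of_pos hr]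
    have b4 := ((abs_add_le ((ft z * (m z - 1) + (-(r * d z)) * (m z - 1)) +
        ((W₁ z - r * qua qa z) * dx f z + (W₂ z - r * qua qb z) * dy f z))
        ((-(r * φt z)) * m z + (-r) * (W₁ z * dx φ z + W₂ z * dy φ z))).trans
        (add_le_add ((abs_add_le _ _).trans (add_le_add b1 b2)) b3))
    refine (mul_le_mul e3 b4 (abs_nonneg _) hE0).trans (le_of_eq ?_)
    ring

/-- the bracket with the stream function against the singular part of the vorticity -/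
theorem GS_T4 {α C R r : ℝ} {qa qb : Fin 3 → ℝ} {γ μ ν p : ℝ} {s η m W₁ W₂ : ℂ → ℝ}
    (h : GSlc α C R r qa qb γ μ ν p s η m W₁ W₂) (hα : 0 < α) (hC : 0 ≤ C) {ρ X : ℝ}
    {H : ℂ → ℝ} (hH : GT1 ρ X 0 H) (hρR : ρ < R) :
    |∫ z, η z * pb s H z| ≤ (C * ρ ^ (1 + α)) * (2 * ((C * ρ ^ (2 + α)) * X)) *
      (volume (Metric.closedBall (0 : ℂ) ρ)).toReal := by
  have oH := GS_off hH.off
  refine GL_int_le ?_ ?_
  · intro z hz
    unfold pb
    rw [(oH z hz).1, (oH z hz).2]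
    ring
  · intro z hz
    have hz' : z ∈ Metric.ball (0 : ℂ) R := by
      rw [Metric.mem_ball, dist_zero_right]
      linarith
    have hρ : 0 ≤ ρ := (norm_nonneg z).trans hz
    have e3 : |η z| ≤ C * ρ ^ (1 + α) :=
      (h.η_le z hz').trans (mul_le_mul_of_nonneg_left
        (GS_rpow_le (norm_nonneg z) hz (by linarith)) hC)
    have e4 : ‖fderiv ℝ s z‖ ≤ C * ρ ^ (2 + α) :=
      (h.ds_le z hz').trans (mul_le_mul_of_nonneg_left
        (GS_rpow_le (norm_nonneg z) hz (by linarith)) hC)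
    have e5 := (abs_dx_le s z).trans e4
    have e6 := (abs_dy_le s z).trans e4
    have e6' : |-dy s z| ≤ C * ρ ^ (2 + α) := by
      rw [abs_neg]
      exact e6
    rw [abs_mul]
    have hE0 : 0 ≤ C * ρ ^ (1 + α) := (abs_nonneg _).trans e3
    refine mul_le_mul e3 ?_ (abs_nonneg _) hE0
    have e7 : pb s H z = dx s z * dy H z + (-dy s z) * dx H z := by
      unfold pb
      ring
    rw [e7]
    refine (GS_dv_le e5 e6' (hH.dy_le z) (hH.dx_le z)).trans (le_of_eq ?_)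
    ring

end Pool.Agent.YUL
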