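import Pool.Agent.YUL.GS4

/-!
# [YUL-GS] assembly of the error terms
-/

open MeasureTheory Set Filter Topology
open scoped ContDiff

namespace Pool.Agent.YUL

open Pool.Agent.YUD Pool.Agent.YUT Pool.Agent.YUB Pool.Agent.YUR

theorem GS_int4 {u₁ u₂ u₃ u₄ : ℂ → ℝ} (h₁ : Integrable u₁) (h₂ : Integrable u₂)
    (h₃ : Integrable u₃) (h₄ : Integrable u₄) (b c : ℝ) :
    ∫ z, (u₁ z + b * u₂ z + b * u₃ z + c * u₄ z) =
      (∫ z, u₁ z) + b * (∫ z, u₂ z) + b * (∫ z, u₃ z) + c * ∫ z, u₄ z := by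
  rw [integral_add (f := fun z => u₁ z + b * u₂ z + b * u₃ z) (g := fun z => c * u₄ z)
      ((h₁.add (h₂.const_mul b)).add (h₃.const_mul b)) (h₄.const_mul c),
    integral_add (f := fun z => u₁ z + b * u₂ z) (g := fun z => b * u₃ z)
      (h₁.add (h₂.const_mul b)) (h₃.const_mul b),
    integral_add (f := fun z => u₁ z) (g := fun z => b * u₂ z) h₁ (h₂.const_mul b),
    integral_const_mul, integral_const_mul, integral_const_mul]

theorem GS_core {α C ρ X : ℝ} (hα : 0 < α) (hα1 : α < 1) (hC : 1 ≤ C) (hρ : 1 ≤ ρ) (hX : 0 ≤ X) :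
    ∃ A : ℝ, 0 ≤ A ∧ ∀ (R r β g : ℝ) (qa qb : Fin 3 → ℝ) (γ μ ν p : ℝ) (s η m W₁ W₂ : ℂ → ℝ),
      0 < r → r ≤ 1 → 0 < β → β ≤ C → |g| ≤ C → GSlc α C R r qa qb γ μ ν p s η m W₁ W₂ → ρ < R →
      ∀ (Q₁ Q₂ : Fin 3 → ℝ), r * ‖Q₁‖ ≤ 1 → r * ‖Q₂‖ ≤ 1 → ∀ f F₁ ft H : ℂ → ℝ, GTst ρ X 7 f →
        GTst ρ X 3 F₁ → (ft = fun z => -(r * β * p / γ) * F₁ z) →
        (H = fun z => f z - r * dv (qua Q₁) (qua Q₂) f z) →
        |(∫ z, omg α r β g η z * ((ft z - r * dv (qua qa) (qua qb) f z -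
            r * dv (qua Q₁) (qua Q₂) ft z) * m z + dv W₁ W₂ H z + r ^ (1 + α) * pb s H z)) -
          r ^ (2 + α) * (β * ((∫ z, s z * dx f z) - p / γ * ∫ z, η z * F₁ z))| ≤
          r ^ (2 + α) * (A * (r ^ α + r ^ (1 - α) + r * ‖Q₁‖ + r * ‖Q₂‖)) := by
  have hC0 : 0 < C := by linarith
  have hρ0 : 0 < ρ := by linarith
  obtain ⟨V, hV⟩ : ∃ V : ℝ, V = (volume (Metric.closedBall (0 : ℂ) ρ)).toReal := ⟨_, rfl⟩
  have hV0 : 0 ≤ V := hV ▸ ENNReal.toReal_nonneg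
  -- constants
  obtain ⟨K, hK⟩ : ∃ K : ℝ, K = C * C * C * X := ⟨_, rfl⟩
  have hK0 : 0 ≤ K := by rw [hK]; positivity
  obtain ⟨X₁, hX₁⟩ : ∃ X₁ : ℝ, X₁ = X + 12 * ρ ^ 2 * X := ⟨_, rfl⟩
  have hX₁0 : 0 ≤ X₁ := by rw [hX₁]; positivity
  obtain ⟨D, hD⟩ : ∃ D : ℝ, D = 12 * ρ ^ 2 * C * X := ⟨_, rfl⟩
  have hD0 : 0 ≤ D := by rw [hD]; positivity
  obtain ⟨Y, hY⟩ : ∃ Y : ℝ, Y = K + D + 12 * ρ ^ 2 * (C * C * C) * X := ⟨_, rfl⟩
  have hY0 : 0 ≤ Y := by rw [hY]; positivity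
  obtain ⟨A₁, hA₁⟩ : ∃ A₁ : ℝ, A₁ = (3 * C * C * ρ ^ 3 * Y + (C + C * ρ) * (C * ρ ^ 3) * Y +
        2 * ((C + C * ρ) * (C * ρ ^ 4) * X₁)) * V := ⟨_, rfl⟩
  have hA₁0 : 0 ≤ A₁ := by rw [hA₁]; positivity
  obtain ⟨E, hE⟩ : ∃ E : ℝ, E = C * ρ ^ (1 + α) := ⟨_, rfl⟩
  have hE0 : 0 ≤ E := by rw [hE]; positivity
  obtain ⟨M, hM⟩ : ∃ M : ℝ, M = 2 * C * ρ + 3 * C * ρ ^ 2 + C * ρ ^ 3 := ⟨_, rfl⟩
  have hM0 : 0 ≤ M := by rw [hM]; positivity
  obtain ⟨w, hw⟩ : ∃ w : ℝ, w = 4 * C * ρ ^ 3 + C * ρ ^ 4 := ⟨_, rfl⟩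
  have hw0 : 0 ≤ w := by rw [hw]; positivity
  obtain ⟨A₂, hA₂⟩ : ∃ A₂ : ℝ, A₂ = C * ((C * ρ ^ (3 + α)) * (6 * ρ ^ 2 * X) * V) := ⟨_, rfl⟩
  have hA₂0 : 0 ≤ A₂ := by rw [hA₂]; positivity
  obtain ⟨A₃, hA₃⟩ : ∃ A₃ : ℝ, A₃ = E * ((K + D) * M + 2 * (w * X)) * V := ⟨_, rfl⟩
  have hA₃0 : 0 ≤ A₃ := by rw [hA₃]; positivity
  obtain ⟨A₄, hA₄⟩ : ∃ A₄ : ℝ, A₄ = E * ((6 * ρ ^ 2 * (C * C * C) * X) * (1 + M) +
    2 * ((3 * C * ρ ^ 2 + w) * (6 * ρ ^ 2 * X))) * V := ⟨_, rfl⟩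
  have hA₄0 : 0 ≤ A₄ := by rw [hA₄]; positivity
  obtain ⟨A₅, hA₅⟩ : ∃ A₅ : ℝ, A₅ = E * (2 * ((C * ρ ^ (2 + α)) * X₁)) * V := ⟨_, rfl⟩
  have hA₅0 : 0 ≤ A₅ := by rw [hA₅]; positivity
  refine ⟨A₁ + A₂ + A₃ + A₄ + A₅, by positivity, ?_⟩
  intro R r β g qa qb γ μ ν p s η m W₁ W₂ hr hr1 hβ hβC hg h hρR Q₁ Q₂ hQ₁ hQ₂ f F₁ ft H hf hF
    hft hH
  have hCγ := h.γ_lo
  have hγ0 : 0 < γ := by
    by_contra hcon
    have : C * γ ≤ 0 := mul_nonpos_of_nonneg_of_nonpos hC0.le (not_lt.1 hcon)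
    linarith
  have hp0 : 0 < p := by
    by_contra hcon
    have : C * p ≤ 0 := mul_nonpos_of_nonneg_of_nonpos hC0.le (not_lt.1 hcon)
    linarith [h.p_lo]
  obtain ⟨c, hc⟩ : ∃ c : ℝ, c = -(r * β * p / γ) := ⟨_, rfl⟩
  have hγi : 1 / γ ≤ C := by
    rw [div_le_iff₀ hγ0]
    exact hCγ
  have hcabs : |c| ≤ r * (C * C * C) := by
    rw [hc, abs_neg, abs_of_nonneg (by positivity)]
    have e1 : r * β * p / γ = r * (β * p * (1 / γ)) := by ring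
    rw [e1]
    have := h.p_le
    gcongr
  rw [← hc] at hft
  -- the functions
  obtain ⟨q, hq⟩ : ∃ q : ℝ, q = ‖Q₁‖ + ‖Q₂‖ := ⟨_, rfl⟩
  have hq0 : 0 ≤ q := by rw [hq]; positivity
  have hrq : r * q ≤ 2 := by
    rw [hq, mul_add]
    linarith
  obtain ⟨φ, hφ⟩ : ∃ φ : ℂ → ℝ, φ = dv (qua Q₁) (qua Q₂) f := ⟨_, rfl⟩
  obtain ⟨φt, hφt⟩ : ∃ φt : ℂ → ℝ, φt = dv (qua Q₁) (qua Q₂) ft := ⟨_, rfl⟩
  obtain ⟨d, hd⟩ : ∃ d : ℂ → ℝ, d = dv (qua qa) (qua qb) f := ⟨_, rfl⟩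
  have tφ : GT1 ρ (6 * ρ ^ 2 * q * X) 6 φ := by
    rw [hφ, hq]
    exact GS_phi (m := 6) hf hρ Q₁ Q₂
  have td : GT1 ρ D 6 d := by
    have h1 := GS_phi (m := 6) hf hρ qa qb
    rw [hd]
    refine h1.mono ?_ le_rfl
    rw [hD]
    have a1 : ‖qa‖ ≤ C := (pi_norm_le_iff_of_nonneg hC0.le).2 h.a_le
    have a2 : ‖qb‖ ≤ C := (pi_norm_le_iff_of_nonneg hC0.le).2 h.b_le
    calc 6 * ρ ^ 2 * (‖qa‖ + ‖qb‖) * X ≤ 6 * ρ ^ 2 * (C + C) * X := by gcongr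
      _ = _ := by ring
  have tft : GT1 ρ (r * K) 3 ft := by
    rw [hft]
    refine (hF.t1.const_mul c).mono ?_ le_rfl
    rw [hK]
    calc |c| * X ≤ (r * (C * C * C)) * X := by gcongr
      _ = _ := by ring
  have eφt : φt = fun z => c * dv (qua Q₁) (qua Q₂) F₁ z := by
    rw [hφt, hft]
    funext z
    unfold dv
    rw [dx_const_mul c (hF.t1.diff z), dy_const_mul c (hF.t1.diff z)]
    ring
  have tφt : GT1 ρ (r * (6 * ρ ^ 2 * (C * C * C) * X * q)) 2 φt := by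
    rw [eφt]
    refine ((GS_phi (m := 2) hF hρ Q₁ Q₂).const_mul c).mono ?_ le_rfl
    rw [← hq]
    calc |c| * (6 * ρ ^ 2 * q * X) ≤ (r * (C * C * C)) * (6 * ρ ^ 2 * q * X) := by gcongr
      _ = _ := by ring
  have hH' : H = fun z => f z - r * φ z := by rw [hH, hφ]
  have tH : GT1 ρ X₁ 6 H := by
    rw [hH']
    refine ((hf.t1.mono le_rfl (by norm_num : 6 ≤ 7)).sub (tφ.const_mul r)).mono ?_ le_rfl
    rw [hX₁, abs_of_pos hr]
    have e1 : r * (6 * ρ ^ 2 * q * X) = (r * q) * (6 * ρ ^ 2 * X) := by ring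
    rw [e1]
    have e2 : (r * q) * (6 * ρ ^ 2 * X) ≤ 2 * (6 * ρ ^ 2 * X) := by gcongr
    linarith
  obtain ⟨F, hFd⟩ : ∃ F : ℂ → ℝ, F = fun z => ft z - r * d z - r * φt z := ⟨_, rfl⟩
  have nF : GNul F 2 := by
    rw [hFd]
    exact ((tft.nul.mono (by norm_num)).sub ((td.nul.mono (by norm_num)).const_mul r)).sub
      (tφt.nul.const_mul r)
  have F0 : ∀ z, ρ < ‖z‖ → F z = 0 := by
    intro z hz
    rw [hFd]
    simp only
    rw [tft.off z hz, td.off z hz, tφt.off z hz]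
    ring
  have FY : ∀ z, |F z| ≤ r * Y := by
    intro z
    rw [hFd]
    have a1 := tft.le z
    have a2 := td.le z
    have a3 := tφt.le z
    have b1 : |r * d z| ≤ r * D := by
      rw [abs_mul, abs_of_pos hr]
      exact mul_le_mul_of_nonneg_left a2 hr.le
    have b2 : |r * φt z| ≤ r * (12 * ρ ^ 2 * (C * C * C) * X) := by
      rw [abs_mul, abs_of_pos hr]
      refine mul_le_mul_of_nonneg_left (a3.trans ?_) hr.le
      calc r * (6 * ρ ^ 2 * (C * C * C) * X * q) = (r * q) * (6 * ρ ^ 2 * (C * C * C) * X) := by ring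
        _ ≤ 2 * (6 * ρ ^ 2 * (C * C * C) * X) := by gcongr
        _ = _ := by ring
    have b3 := (abs_sub (ft z - r * d z) (r * φt z)).trans
      (add_le_add ((abs_sub _ _).trans (add_le_add a1 b1)) b2)
    refine b3.trans (le_of_eq ?_)
    rw [hY]
    ring
  have hrY : r * Y ≤ Y := mul_le_of_le_one_left hY0 hr1
  -- the four terms
  have T1 := GS_T1 (X := X₁) (Y := Y) h hC0.le (tH.mono le_rfl (by norm_num)) nF F0
    (fun z => (FY z).trans hrY) hρ0.le hρR hr hr1 hβ hβC hg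
  rw [← hV, ← hA₁] at T1
  obtain ⟨T2a, T2b⟩ := GS_T2 hρR h.s_c2 tH.smooth tH.off
  have T3 := GS_T3 h hα hC0.le (hf.t1.mono le_rfl (by norm_num)) (tft.mono le_rfl (by norm_num))
    (tφ.mono le_rfl (by norm_num)) (tφt.mono le_rfl (by norm_num)) (td.mono le_rfl (by norm_num))
    hd hρ0.le hρR hr hr1
  have T4 := GS_T4 h hα hC0.le (tH.mono le_rfl (by norm_num)) hρR
  rw [← hV, ← hE, ← hA₅] at T4
  rw [← hV, ← hE, ← hM, ← hw] at T3
  -- the second term: the correction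
  have dxH : ∀ z, dx H z = dx f z - r * dx φ z := by
    intro z
    rw [hH', dx_sub (f := f) (g := fun z => r * φ z) (hf.t1.diff z) ((tφ.diff z).const_mul r),
      dx_const_mul r (tφ.diff z)]
  have cdxf : Continuous (dx f) := (S7_cd_dx hf.smooth).continuous
  have cdxφ : Continuous (dx φ) := (S7_cd_dx tφ.smooth).continuous
  have cs : ContinuousOn s (Metric.ball (0 : ℂ) R) := h.s_c2.continuousOn
  have of := GS_off hf.off
  have oφ := GS_off tφ.off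
  have oH := GS_off tH.off
  have is1 : Integrable (fun z => s z * dx f z) := GL_integrable hρR (cs.mul cdxf.continuousOn)
    (fun z hz => by rw [(of z hz).1, mul_zero])
  have is2 : Integrable (fun z => s z * dx φ z) := GL_integrable hρR (cs.mul cdxφ.continuousOn)
    (fun z hz => by rw [(oφ z hz).1, mul_zero])
  have T2c : ∫ z, s z * dx H z = (∫ z, s z * dx f z) - r * ∫ z, s z * dx φ z := by
    have e1 : (fun z => s z * dx H z) = fun z => s z * dx f z - r * (s z * dx φ z) := by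
      funext z
      rw [dxH z]
      ring
    rw [e1, integral_sub is1 (is2.const_mul r), integral_const_mul]
  have T2d : |∫ z, s z * dx φ z| ≤ ((C * ρ ^ (3 + α)) * (6 * ρ ^ 2 * q * X)) * V := by
    rw [hV]
    refine GL_int_le (fun z hz => by rw [(oφ z hz).1, mul_zero]) fun z hz => ?_
    have hz' : z ∈ Metric.ball (0 : ℂ) R := by
      rw [Metric.mem_ball, dist_zero_right]
      linarith
    rw [abs_mul]
    refine mul_le_mul ((h.s_le z hz').trans (mul_le_mul_of_nonneg_left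
      (GS_rpow_le (norm_nonneg z) hz (by linarith)) hC0.le)) (tφ.dx_le z) (abs_nonneg _)
      (by positivity)
  -- integrability
  have cI : ContinuousOn (fun z : ℂ => g + r * β * z.im) (Metric.ball (0 : ℂ) R) := by fun_prop
  have cη : ContinuousOn η (Metric.ball (0 : ℂ) R) := h.η_c1.continuousOn
  have cdxH : Continuous (dx H) := (S7_cd_dx tH.smooth).continuous
  have cdyH : Continuous (dy H) := (S7_cd_dy tH.smooth).continuous
  have cdv : ContinuousOn (fun z => F z * m z + dv W₁ W₂ H z) (Metric.ball (0 : ℂ) R) :=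
    (nF.cont.continuousOn.mul h.m_cont).add ((h.W₁_cont.mul cdxH.continuousOn).add
      (h.W₂_cont.mul cdyH.continuousOn))
  have hs1 : ContDiffOn ℝ 1 s (Metric.ball 0 R) := h.s_c2.of_le (by norm_num)
  have cpb : ContinuousOn (fun z => pb s H z) (Metric.ball (0 : ℂ) R) :=
    ((S2_cdx Metric.isOpen_ball hs1).mul cdyH.continuousOn).sub
      ((S2_cdy Metric.isOpen_ball hs1).mul cdxH.continuousOn)
  have zdv : ∀ z, ρ < ‖z‖ → F z * m z + dv W₁ W₂ H z = 0 := by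
    intro z hz
    unfold dv
    rw [F0 z hz, (oH z hz).1, (oH z hz).2]
    ring
  have zpb : ∀ z, ρ < ‖z‖ → pb s H z = 0 := by
    intro z hz
    unfold pb
    rw [(oH z hz).1, (oH z hz).2]
    ring
  have i1 : Integrable (fun z : ℂ => (g + r * β * z.im) * (F z * m z + dv W₁ W₂ H z)) :=
    GL_integrable hρR (cI.mul cdv) (fun z hz => by rw [zdv z hz, mul_zero])
  have i2 : Integrable (fun z : ℂ => (g + r * β * z.im) * pb s H z) :=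
    GL_integrable hρR (cI.mul cpb) (fun z hz => by rw [zpb z hz, mul_zero])
  have i3 : Integrable (fun z => η z * (F z * m z + dv W₁ W₂ H z)) :=
    GL_integrable hρR (cη.mul cdv) (fun z hz => by rw [zdv z hz, mul_zero])
  have i4 : Integrable (fun z => η z * pb s H z) :=
    GL_integrable hρR (cη.mul cpb) (fun z hz => by rw [zpb z hz, mul_zero])
  have i5 : Integrable (fun z => pb s H z) := GL_integrable hρR cpb zpb
  have i6 : Integrable (fun z : ℂ => z.im * pb s H z) :=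
    GL_integrable hρR (Complex.continuous_im.continuousOn.mul cpb)
      (fun z hz => by rw [zpb z hz, mul_zero])
  have eI2 : ∫ z : ℂ, (g + r * β * z.im) * pb s H z =
      r * β * ((∫ z, s z * dx f z) - r * ∫ z, s z * dx φ z) := by
    have e1 : (fun z : ℂ => (g + r * β * z.im) * pb s H z) =
        fun z => g * pb s H z + (r * β) * (z.im * pb s H z) := by
      funext z
      ring
    rw [e1, integral_add (i5.const_mul g) (i6.const_mul (r * β)), integral_const_mul,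
      integral_const_mul, T2a, T2b, T2c]
    ring
  have eη : ∫ z, η z * ft z = c * ∫ z, η z * F₁ z := by
    rw [hft]
    have e1 : (fun z => η z * (c * F₁ z)) = fun z => c * (η z * F₁ z) := by
      funext z
      ring
    rw [e1, integral_const_mul]
  -- the sum
  obtain ⟨r₁, hr₁⟩ : ∃ r₁ : ℝ, r₁ = r ^ (1 + α) := ⟨_, rfl⟩
  obtain ⟨r₂, hr₂⟩ : ∃ r₂ : ℝ, r₂ = r ^ (2 + α) := ⟨_, rfl⟩
  have hr₁0 : 0 < r₁ := hr₁ ▸ Real.rpow_pos_of_pos hr _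
  have hr₂0 : 0 < r₂ := hr₂ ▸ Real.rpow_pos_of_pos hr _
  have e12 : r₁ * r = r₂ := by
    rw [hr₁, hr₂, show 2 + α = (1 + α) + 1 by ring, Real.rpow_add_one hr.ne']
  have e11 : r₁ * r₁ = r₂ * r ^ α := by
    rw [hr₁, hr₂, ← Real.rpow_add hr, ← Real.rpow_add hr]
    congr 1
    ring
  have e13 : r ^ 3 = r₂ * r ^ (1 - α) := by
    rw [hr₂, ← Real.rpow_add hr, ← Real.rpow_natCast]
    congr 1
    push_cast
    ring
  have eD : (∫ z, omg α r β g η z * ((ft z - r * dv (qua qa) (qua qb) f z -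
      r * dv (qua Q₁) (qua Q₂) ft z) * m z + dv W₁ W₂ H z + r ^ (1 + α) * pb s H z)) =
      (∫ z : ℂ, (g + r * β * z.im) * (F z * m z + dv W₁ W₂ H z)) +
      r₁ * (∫ z : ℂ, (g + r * β * z.im) * pb s H z) +
      r₁ * (∫ z, η z * (F z * m z + dv W₁ W₂ H z)) + (r₁ * r₁) * ∫ z, η z * pb s H z := by
    rw [← GS_int4 i1 i2 i3 i4 r₁ (r₁ * r₁)]
    congr 1
    funext z
    unfold omg
    rw [← hr₁, hFd, hd, hφt]
    ring
  have eT3 : (∫ z, η z * (F z * m z + dv W₁ W₂ H z)) = ∫ z, η z * ((ft z - r * d z - r * φt z) *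
      m z + dv W₁ W₂ (fun z => f z - r * φ z) z) := by
    rw [hFd, hH']
  rw [← eT3] at T3
  rw [eD, ← hr₂]
  obtain ⟨I₁, hI₁⟩ : ∃ I₁ : ℝ, I₁ = ∫ z : ℂ, (g + r * β * z.im) * (F z * m z + dv W₁ W₂ H z) :=
    ⟨_, rfl⟩
  obtain ⟨I₂, hI₂⟩ : ∃ I₂ : ℝ, I₂ = ∫ z, s z * dx φ z := ⟨_, rfl⟩
  obtain ⟨I₃, hI₃⟩ : ∃ I₃ : ℝ, I₃ = ∫ z, η z * (F z * m z + dv W₁ W₂ H z) := ⟨_, rfl⟩
  obtain ⟨I₄, hI₄⟩ : ∃ I₄ : ℝ, I₄ = ∫ z, η z * pb s H z := ⟨_, rfl⟩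
  obtain ⟨J₁, hJ₁⟩ : ∃ J₁ : ℝ, J₁ = ∫ z, s z * dx f z := ⟨_, rfl⟩
  obtain ⟨J₂, hJ₂⟩ : ∃ J₂ : ℝ, J₂ = ∫ z, η z * F₁ z := ⟨_, rfl⟩
  rw [eI2]
  rw [eη] at T3
  rw [← hI₁] at T1 ⊢
  rw [← hI₂] at T2d ⊢
  rw [← hI₃, ← hJ₂] at T3
  rw [← hI₃, ← hJ₁, ← hJ₂]
  rw [← hI₄] at T4 ⊢
  have eq : I₁ + r₁ * (r * β * (J₁ - r * I₂)) + r₁ * I₃ + r₁ * r₁ * I₄ -
      r₂ * (β * (J₁ - p / γ * J₂)) =
      I₁ + (-(r₂ * (β * (r * I₂)))) + r₁ * (I₃ - c * J₂) + r₂ * r ^ α * I₄ := by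
    rw [← e11, ← e12, hc]
    ring
  rw [eq]
  have b1 : |I₁| ≤ r₂ * (r ^ (1 - α) * A₁) := by
    rw [e13] at T1
    linarith
  have b2 : |-(r₂ * (β * (r * I₂)))| ≤ r₂ * (A₂ * (r * q)) := by
    rw [abs_neg, abs_mul, abs_mul, abs_mul, abs_of_pos hr₂0, abs_of_pos hβ, abs_of_pos hr]
    refine mul_le_mul_of_nonneg_left ?_ hr₂0.le
    calc β * (r * |I₂|) ≤ C * (r * (((C * ρ ^ (3 + α)) * (6 * ρ ^ 2 * q * X)) * V)) := by gcongr
      _ = A₂ * (r * q) := by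
        rw [hA₂]
        ring
  have b3 : |r₁ * (I₃ - c * J₂)| ≤ r₂ * (A₃ * r + A₄ * (r * q)) := by
    rw [abs_mul, abs_of_pos hr₁0]
    calc r₁ * |I₃ - c * J₂| ≤ r₁ * (r ^ 2 * (E * ((K + D) * M + 2 * (w * X) +
        (6 * ρ ^ 2 * (C * C * C) * X * q * (1 + M) + 2 * ((3 * C * ρ ^ 2 + w) *
          (6 * ρ ^ 2 * q * X)))) * V)) := mul_le_mul_of_nonneg_left T3 hr₁0.le
      _ = (r₁ * r) * (A₃ * r + A₄ * (r * q)) := by
        rw [hA₃, hA₄]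
        ring
      _ = _ := by rw [e12]
  have b4 : |r₂ * r ^ α * I₄| ≤ r₂ * (r ^ α * A₅) := by
    have : 0 < r ^ α := Real.rpow_pos_of_pos hr _
    rw [abs_mul, abs_mul, abs_of_pos hr₂0, abs_of_pos this, mul_assoc]
    exact mul_le_mul_of_nonneg_left (mul_le_mul_of_nonneg_left T4 this.le) hr₂0.le
  have b5 := (abs_add_le (I₁ + (-(r₂ * (β * (r * I₂)))) + r₁ * (I₃ - c * J₂)) (r₂ * r ^ α * I₄)).trans
    (add_le_add ((abs_add_le _ _).trans (add_le_add ((abs_add_le _ _).trans (add_le_add b1 b2)) b3)) b4)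
  refine b5.trans ?_
  have hrr : r ≤ r ^ (1 - α) := by
    have := Real.rpow_le_rpow_of_exponent_ge hr hr1 (show 1 - α ≤ 1 by linarith)
    rwa [Real.rpow_one] at this
  obtain ⟨x, hx⟩ : ∃ x : ℝ, x = r ^ α := ⟨_, rfl⟩
  obtain ⟨y, hy⟩ : ∃ y : ℝ, y = r ^ (1 - α) := ⟨_, rfl⟩
  have hx0 : 0 ≤ x := hx ▸ (Real.rpow_pos_of_pos hr _).le
  have hy0 : 0 ≤ y := hy ▸ (Real.rpow_pos_of_pos hr _).le
  rw [← hy] at hrr
  rw [← hx, ← hy]
  have hqr : r * ‖Q₁‖ + r * ‖Q₂‖ = r * q := by rw [hq]; ring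
  have e9 : A₁ + A₂ + A₃ + A₄ + A₅ ≥ 0 := by positivity
  have hrq0 : 0 ≤ r * q := by positivity
  calc r₂ * (y * A₁) + r₂ * (A₂ * (r * q)) + r₂ * (A₃ * r + A₄ * (r * q)) + r₂ * (x * A₅)
      = r₂ * (y * A₁ + A₂ * (r * q) + A₃ * r + A₄ * (r * q) + x * A₅) := by ring
    _ ≤ r₂ * ((A₁ + A₂ + A₃ + A₄ + A₅) * (x + y + r * q)) := by
        refine mul_le_mul_of_nonneg_left ?_ hr₂0.le
        have k1 : A₃ * r ≤ A₃ * y := mul_le_mul_of_nonneg_left hrr hA₃0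
        have k2 : 0 ≤ A₁ * x := by positivity
        have k3 : 0 ≤ A₂ * x := by positivity
        have k4 : 0 ≤ A₃ * x := by positivity
        have k5 : 0 ≤ A₄ * x := by positivity
        have k6 : 0 ≤ A₂ * y := by positivity
        have k7 : 0 ≤ A₄ * y := by positivity
        have k8 : 0 ≤ A₅ * y := by positivity
        have k9 : 0 ≤ A₁ * (r * q) := by positivity
        have k10 : 0 ≤ A₃ * (r * q) := by positivity
        have k11 : 0 ≤ A₅ * (r * q) := by positivity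
        linarith
    _ = r₂ * ((A₁ + A₂ + A₃ + A₄ + A₅) * (x + y + r * ‖Q₁‖ + r * ‖Q₂‖)) := by
        rw [← hqr]
        ring

end Pool.Agent.YUL
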