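import Pool.Agent.YUL.Defs
import Pool.Agent.YUR.S1
import Pool.Agent.YUR.S3

/-!
# [YUL-GL] the focusing time, the test function and its time derivative
-/

open MeasureTheory Set Filter Topology
open scoped ContDiff

namespace Pool.Agent.YUL

open Pool.Agent.YUD Pool.Agent.YUT Pool.Agent.YUB Pool.Agent.YUR

/-! ### the focusing time -/

theorem GL_time {φ : ℝ → ℝ} {c₀ Λs : ℝ} (hφ : Continuous φ) (hc₀ : 0 < c₀)
    (hlo : ∀ t, c₀ ≤ φ t) (hΛ : 0 < Λs) :
    ∃ T : ℝ, 0 ≤ T ∧ c₀ * T ≤ Λs ∧ (∫ τ in (0 : ℝ)..T, φ τ) = Λs ∧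
      (∀ t, 0 ≤ t → t ≤ T → 0 ≤ (∫ τ in (0 : ℝ)..t, φ τ) ∧
        (∫ τ in (0 : ℝ)..t, φ τ) ≤ Λs) ∧
      ∀ t, HasDerivAt (fun t => ∫ τ in (0 : ℝ)..t, φ τ) (φ t) t := by
  set F : ℝ → ℝ := fun t => ∫ τ in (0 : ℝ)..t, φ τ with hF
  have hd : ∀ t, HasDerivAt F (φ t) t := fun t =>
    intervalIntegral.integral_hasDerivAt_right (hφ.intervalIntegrable _ _)
      hφ.stronglyMeasurable.stronglyMeasurableAtFilter hφ.continuousAt
  have hcont : Continuous F := continuous_iff_continuousAt.2 fun t => (hd t).continuousAt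
  have hF0 : F 0 = 0 := intervalIntegral.integral_same
  have hmono : StrictMono F := by
    refine strictMono_of_deriv_pos fun t => ?_
    rw [(hd t).deriv]
    linarith [hlo t]
  have hge : ∀ t, 0 ≤ t → c₀ * t ≤ F t := by
    intro t ht
    have h1 : (∫ τ in (0 : ℝ)..t, c₀) ≤ ∫ τ in (0 : ℝ)..t, φ τ :=
      intervalIntegral.integral_mono_on ht (by simp) (hφ.intervalIntegrable _ _)
        fun x _ => hlo x
    rw [intervalIntegral.integral_const, sub_zero, smul_eq_mul] at h1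
    linarith
  have hbig : Λs ≤ F (Λs / c₀) := by
    have := hge (Λs / c₀) (by positivity)
    rwa [mul_div_cancel₀ _ hc₀.ne'] at this
  obtain ⟨T, ⟨hT0, hT1⟩, hT⟩ : Λs ∈ F '' Icc 0 (Λs / c₀) := by
    refine intermediate_value_Icc (by positivity) hcont.continuousOn ⟨?_, hbig⟩
    rw [hF0]
    exact hΛ.le
  refine ⟨T, hT0, ?_, hT, ?_, hd⟩
  · rw [← hT]
    exact hge T hT0
  · intro t ht0 htT
    constructor
    · have h := hmono.monotone ht0
      rw [hF0] at h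
      exact h
    · rw [← hT]
      exact hmono.monotone htT

/-! ### mixed derivatives -/

theorem GL_mixed {F G : ℝ → ℝ → ℝ} (hF : ContDiff ℝ ∞ (fun p : ℝ × ℝ => F p.1 p.2))
    (hG : ∀ Λ x, HasDerivAt (fun Λ' => F Λ' x) (G Λ x) Λ) :
    ContDiff ℝ ∞ (fun p : ℝ × ℝ => deriv (F p.1) p.2) ∧
      ∀ Λ x, HasDerivAt (fun Λ' => deriv (F Λ') x) (deriv (G Λ) x) Λ := by
  set K : ℝ × ℝ → ℝ := fun p => F p.1 p.2 with hK
  have hKd : Differentiable ℝ K := hF.differentiable (by simp)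
  have hK' : ContDiff ℝ ∞ (fderiv ℝ K) := (contDiff_infty_iff_fderiv.1 hF).2
  have hK'd : Differentiable ℝ (fderiv ℝ K) := hK'.differentiable (by simp)
  have lx : ∀ Λ x : ℝ, HasDerivAt (fun x' : ℝ => ((Λ, x') : ℝ × ℝ)) (0, 1) x := fun Λ x =>
    (hasDerivAt_const x Λ).prodMk (hasDerivAt_id x)
  have lL : ∀ Λ x : ℝ, HasDerivAt (fun Λ' : ℝ => ((Λ', x) : ℝ × ℝ)) (1, 0) Λ := fun Λ x =>
    (hasDerivAt_id Λ).prodMk (hasDerivAt_const Λ x)
  have ex : ∀ Λ x, HasDerivAt (F Λ) (fderiv ℝ K (Λ, x) (0, 1)) x := fun Λ x =>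
    (hKd (Λ, x)).hasFDerivAt.comp_hasDerivAt x (lx Λ x)
  have eL' : ∀ Λ x, HasDerivAt (fun Λ' => F Λ' x) (fderiv ℝ K (Λ, x) (1, 0)) Λ := by
    intro Λ x
    have h := HasFDerivAt.comp_hasDerivAt (l := K) Λ (hKd (Λ, x)).hasFDerivAt (lL Λ x)
    exact h
  have eL : ∀ Λ x, G Λ x = fderiv ℝ K (Λ, x) (1, 0) := fun Λ x => (hG Λ x).unique (eL' Λ x)
  have e1 : (fun p : ℝ × ℝ => deriv (F p.1) p.2) = fun p => fderiv ℝ K p (0, 1) := by
    funext p
    exact (ex p.1 p.2).deriv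
  constructor
  · rw [e1]
    exact hK'.clm_apply contDiff_const
  · intro Λ x
    have e2 : (fun Λ' => deriv (F Λ') x) = fun Λ' => fderiv ℝ K (Λ', x) (0, 1) := by
      funext Λ'
      exact (ex Λ' x).deriv
    have e3 : G Λ = fun x' => fderiv ℝ K (Λ, x') (1, 0) := by
      funext x'
      exact eL Λ x'
    have h2 := (hK'd (Λ, x)).hasFDerivAt
    have d1 : HasDerivAt (fun Λ' => fderiv ℝ K (Λ', x) (0, 1))
        (fderiv ℝ (fderiv ℝ K) (Λ, x) (1, 0) (0, 1)) Λ := by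
      have h3 : HasDerivAt (fun Λ' => fderiv ℝ K (Λ', x)) (fderiv ℝ (fderiv ℝ K) (Λ, x) (1, 0)) Λ :=
        h2.comp_hasDerivAt Λ (lL Λ x)
      simpa using h3.clm_apply (hasDerivAt_const Λ ((0, 1) : ℝ × ℝ))
    have d2 : HasDerivAt (fun x' => fderiv ℝ K (Λ, x') (1, 0))
        (fderiv ℝ (fderiv ℝ K) (Λ, x) (0, 1) (1, 0)) x := by
      have h3 : HasDerivAt (fun x' => fderiv ℝ K (Λ, x')) (fderiv ℝ (fderiv ℝ K) (Λ, x) (0, 1)) x :=
        h2.comp_hasDerivAt x (lx Λ x)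
      simpa using h3.clm_apply (hasDerivAt_const x ((1, 0) : ℝ × ℝ))
    have hsym : fderiv ℝ (fderiv ℝ K) (Λ, x) (1, 0) (0, 1) =
        fderiv ℝ (fderiv ℝ K) (Λ, x) (0, 1) (1, 0) :=
      second_derivative_symmetric (fun y => (hKd y).hasFDerivAt) h2 _ _
    rw [e2, e3, d2.deriv, ← hsym]
    exact d1

/-! ### derivatives of test functions -/

theorem GL_tst_deriv {b : ℝ → ℝ} (hb : ContDiff ℝ ∞ b) {P : ℝ} (hP : 1 ≤ P) (z : ℂ) :
    dx (tst b P) z = deriv b z.re * vk 0 P z.im ∧ dy (tst b P) z = b z.re * vk 1 P z.im := by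
  have hP0 : 0 < P := by linarith
  obtain ⟨v1, v2, v3, v4, v5⟩ := vk_facts hP0 0
  have e : tst b P = fun z : ℂ => b z.re * vk 0 P z.im := by
    funext z
    rw [v5]
    rfl
  have h := prod_deriv (contDiff_infty.mp hb 2) (contDiff_infty.mp v1 2) 0 0 0 z
  rw [e]
  refine ⟨h.1, ?_⟩
  rw [h.2.1, (v2 z.im).deriv]

theorem GL_C1 {θ ρ : ℝ → ℝ} (hθ : ∀ t, HasDerivAt θ (ρ t) t) (hρ : Continuous ρ) :
    ContDiff ℝ 1 θ := by
  rw [contDiff_one_iff_deriv]
  refine ⟨fun t => (hθ t).differentiableAt, ?_⟩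
  have : deriv θ = ρ := funext fun t => (hθ t).deriv
  rw [this]
  exact hρ

theorem GL_a {B κ S Λs τ N : ℝ} {a : ℕ → ℝ → ℝ → ℝ} {e : ℝ → ℝ → ℝ}
    (hp : Packet B κ S Λs τ N a e) (j : ℕ) (Λ : ℝ) : ContDiff ℝ ∞ (a j Λ) := by
  have h1 : ContDiff ℝ ∞ (fun x : ℝ => ((Λ, x) : ℝ × ℝ)) := contDiff_const.prodMk contDiff_id
  have h2 := ContDiff.comp (g := fun p : ℝ × ℝ => a j p.1 p.2) (hp.smooth j) h1
  exact h2

theorem GL_e {B κ S Λs τ N : ℝ} {a : ℕ → ℝ → ℝ → ℝ} {e : ℝ → ℝ → ℝ}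
    (hp : Packet B κ S Λs τ N a e) (Λ : ℝ) : ContDiff ℝ ∞ (e Λ) := by
  have h1 : ContDiff ℝ ∞ (fun x : ℝ => ((Λ, x) : ℝ × ℝ)) := contDiff_const.prodMk contDiff_id
  have h2 := ContDiff.comp (g := fun p : ℝ × ℝ => e p.1 p.2) hp.e_smooth h1
  exact h2

theorem GL_prim {q : ℝ → Fin 3 → ℝ} (hq : Continuous q) (i : Fin 3) (t : ℝ) :
    HasDerivAt (fun t => ∫ τ in (0 : ℝ)..t, q τ i) (q t i) t := by
  have h : Continuous fun t => q t i := (continuous_apply i).comp hq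
  exact intervalIntegral.integral_hasDerivAt_right (h.intervalIntegrable _ _)
    h.stronglyMeasurable.stronglyMeasurableAtFilter h.continuousAt

theorem GL_qua_deriv {q : ℝ → Fin 3 → ℝ} (hq : Continuous q) (t : ℝ) (z : ℂ) :
    HasDerivAt (fun t => qua (fun i => ∫ τ in (0 : ℝ)..t, q τ i) z) (qua (q t) z) t := by
  unfold qua
  exact ((((GL_prim hq 0 t).mul_const _).add ((GL_prim hq 1 t).mul_const _)).add
    ((GL_prim hq 2 t).mul_const _))

theorem GL_qua_cd {q : ℝ → Fin 3 → ℝ} (hq : Continuous q) :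
    ContDiff ℝ 1 (fun x : ℝ × ℂ => qua (fun i => ∫ τ in (0 : ℝ)..x.1, q τ i) x.2) := by
  have h : ∀ i : Fin 3, ContDiff ℝ 1 (fun x : ℝ × ℂ => ∫ τ in (0 : ℝ)..x.1, q τ i) := fun i =>
    (GL_C1 (GL_prim hq i) ((continuous_apply i).comp hq)).comp contDiff_fst
  have hre : ContDiff ℝ 1 (fun x : ℝ × ℂ => x.2.re) := Complex.reCLM.contDiff.comp contDiff_snd
  have him : ContDiff ℝ 1 (fun x : ℝ × ℂ => x.2.im) := Complex.imCLM.contDiff.comp contDiff_snd
  unfold qua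
  exact (((h 0).mul (hre.pow 2)).add ((h 1).mul (hre.mul him))).add ((h 2).mul (him.pow 2))

/-- the test function and its time derivative -/
theorem gH_facts {B κ S Λs τ N : ℝ} {a : ℕ → ℝ → ℝ → ℝ} {e : ℝ → ℝ → ℝ}
    (hp : Packet B κ S Λs τ N a e) {P : ℝ} (hP : 1 ≤ P) (hN : 1 ≤ N) {r : ℝ} {θ ρ : ℝ → ℝ}
    (hθ : ∀ t, HasDerivAt θ (ρ t) t) (hρ : Continuous ρ) {qa qb : ℝ → Fin 3 → ℝ}
    (hqa : Continuous qa) (hqb : Continuous qb) :
    ContDiff ℝ 1 (fun x : ℝ × ℂ => tst (a 0 (θ x.1)) P x.2 -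
      r * dv (qua (fun i => ∫ τ in (0 : ℝ)..x.1, qa τ i)) (qua (fun i => ∫ τ in (0 : ℝ)..x.1, qb τ i))
        (tst (a 0 (θ x.1)) P) x.2) ∧
      (∀ t z, N + 2 * P ≤ ‖z‖ → tst (a 0 (θ t)) P z -
        r * dv (qua (fun i => ∫ τ in (0 : ℝ)..t, qa τ i)) (qua (fun i => ∫ τ in (0 : ℝ)..t, qb τ i))
          (tst (a 0 (θ t)) P) z = 0) ∧
      ∀ (t : ℝ) (ft : ℂ → ℝ), (ft = fun z => ρ t * tst (fun x => a 1 (θ t) x + e (θ t) x) P z) →
        ∀ z, deriv (fun t => tst (a 0 (θ t)) P z -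
          r * dv (qua (fun i => ∫ τ in (0 : ℝ)..t, qa τ i)) (qua (fun i => ∫ τ in (0 : ℝ)..t, qb τ i))
            (tst (a 0 (θ t)) P) z) t =
          ft z - r * dv (qua (qa t)) (qua (qb t)) (tst (a 0 (θ t)) P) z -
            r * dv (qua (fun i => ∫ τ in (0 : ℝ)..t, qa τ i))
              (qua (fun i => ∫ τ in (0 : ℝ)..t, qb τ i)) ft z := by
  have hP0 : 0 < P := by linarith
  obtain ⟨v1, v2, v3, v4, v5⟩ := vk_facts hP0 0
  obtain ⟨w1, w2, w3, w4, -⟩ := vk_facts hP0 1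
  obtain ⟨m1, m2⟩ := GL_mixed (hp.smooth 0) hp.time
  have htst : ∀ b : ℝ → ℝ, ∀ z : ℂ, tst b P z = b z.re * vk 0 P z.im := by
    intro b z
    rw [v5]
    rfl
  -- the explicit formula
  have hform : ∀ (t : ℝ) (z : ℂ), tst (a 0 (θ t)) P z -
      r * dv (qua (fun i => ∫ τ in (0 : ℝ)..t, qa τ i)) (qua (fun i => ∫ τ in (0 : ℝ)..t, qb τ i))
        (tst (a 0 (θ t)) P) z = a 0 (θ t) z.re * vk 0 P z.im -
      r * (qua (fun i => ∫ τ in (0 : ℝ)..t, qa τ i) z * (deriv (a 0 (θ t)) z.re * vk 0 P z.im) +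
        qua (fun i => ∫ τ in (0 : ℝ)..t, qb τ i) z * (a 0 (θ t) z.re * vk 1 P z.im)) := by
    intro t z
    obtain ⟨d1, d2⟩ := GL_tst_deriv (GL_a hp 0 (θ t)) hP z
    rw [dv, d1, d2, htst]
  refine ⟨?_, ?_, ?_⟩
  · have e1 : (fun x : ℝ × ℂ => tst (a 0 (θ x.1)) P x.2 -
        r * dv (qua (fun i => ∫ τ in (0 : ℝ)..x.1, qa τ i))
          (qua (fun i => ∫ τ in (0 : ℝ)..x.1, qb τ i)) (tst (a 0 (θ x.1)) P) x.2) =
        fun x : ℝ × ℂ => a 0 (θ x.1) x.2.re * vk 0 P x.2.im -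
          r * (qua (fun i => ∫ τ in (0 : ℝ)..x.1, qa τ i) x.2 *
            (deriv (a 0 (θ x.1)) x.2.re * vk 0 P x.2.im) +
          qua (fun i => ∫ τ in (0 : ℝ)..x.1, qb τ i) x.2 *
            (a 0 (θ x.1) x.2.re * vk 1 P x.2.im)) := by
      funext x
      exact hform x.1 x.2
    rw [e1]
    have hre : ContDiff ℝ 1 (fun x : ℝ × ℂ => x.2.re) := Complex.reCLM.contDiff.comp contDiff_snd
    have him : ContDiff ℝ 1 (fun x : ℝ × ℂ => x.2.im) := Complex.imCLM.contDiff.comp contDiff_snd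
    have hth : ContDiff ℝ 1 (fun x : ℝ × ℂ => θ x.1) := (GL_C1 hθ hρ).comp contDiff_fst
    have hpt : ContDiff ℝ 1 (fun x : ℝ × ℂ => ((θ x.1, x.2.re) : ℝ × ℝ)) := hth.prodMk hre
    have c1 : ContDiff ℝ 1 (fun x : ℝ × ℂ => a 0 (θ x.1) x.2.re) :=
      ContDiff.comp (g := fun p : ℝ × ℝ => a 0 p.1 p.2) ((hp.smooth 0).of_le (by norm_cast)) hpt
    have c2 : ContDiff ℝ 1 (fun x : ℝ × ℂ => deriv (a 0 (θ x.1)) x.2.re) :=
      ContDiff.comp (g := fun p : ℝ × ℝ => deriv (a 0 p.1) p.2) (m1.of_le (by norm_cast)) hpt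
    have c3 : ContDiff ℝ 1 (fun x : ℝ × ℂ => vk 0 P x.2.im) := (v1.of_le (by norm_cast)).comp him
    have c4 : ContDiff ℝ 1 (fun x : ℝ × ℂ => vk 1 P x.2.im) := (w1.of_le (by norm_cast)).comp him
    exact (c1.mul c3).sub (contDiff_const.mul (((GL_qua_cd hqa).mul (c2.mul c3)).add
      ((GL_qua_cd hqb).mul (c1.mul c4))))
  · intro t z hz
    rw [hform]
    by_cases hre : N ≤ |z.re|
    · have hd : deriv (a 0 (θ t)) z.re = 0 := by
        have h1 := hp.supp 0 (θ t)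
        have hcl : deriv (a 0 (θ t)) z.re = 0 := by
          have hU : IsOpen {x : ℝ | N < |x|} := isOpen_lt continuous_const continuous_abs
          have hz0 : ∀ x : ℝ, N < |x| → deriv (a 0 (θ t)) x = 0 := by
            intro x hx
            have : a 0 (θ t) =ᶠ[𝓝 x] fun _ => (0 : ℝ) := by
              filter_upwards [hU.mem_nhds hx] with y hy
              exact h1 y (le_of_lt hy)
            rw [this.deriv_eq]
            exact deriv_const _ _
          have hc : Continuous (deriv (a 0 (θ t))) :=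
            ((contDiff_infty_iff_deriv.1 (GL_a hp 0 (θ t))).2).continuous
          rcases hre.lt_or_eq with h | h
          · exact hz0 _ h
          · have hcl : IsClosed {x : ℝ | deriv (a 0 (θ t)) x = 0} :=
              isClosed_eq hc continuous_const
            have hsub : {x : ℝ | N < |x|} ⊆ {x : ℝ | deriv (a 0 (θ t)) x = 0} := hz0
            have hmem : z.re ∈ closure {x : ℝ | N < |x|} := by
              rw [Metric.mem_closure_iff]
              intro ε hε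
              rcases le_or_gt 0 z.re with h0 | h0
              · refine ⟨z.re + ε / 2, ?_, ?_⟩
                · rw [abs_of_nonneg h0] at h
                  show N < |z.re + ε / 2|
                  rw [abs_of_nonneg (by linarith)]
                  linarith
                · rw [Real.dist_eq, abs_sub_comm, abs_of_nonneg (by linarith)]
                  linarith
              · refine ⟨z.re - ε / 2, ?_, ?_⟩
                · rw [abs_of_neg h0] at h
                  show N < |z.re - ε / 2|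
                  rw [abs_of_neg (by linarith)]
                  linarith
                · rw [Real.dist_eq, abs_of_nonneg (by linarith)]
                  linarith
            exact closure_minimal hsub hcl hmem
        exact hcl
      rw [hd, hp.supp 0 (θ t) _ hre]
      ring
    · rw [not_le] at hre
      have h1 := Complex.norm_le_abs_re_add_abs_im z
      have h2 : 2 * P < |z.im| := by linarith
      have h3 : vk 0 P z.im = 0 ∧ vk 1 P z.im = 0 := by
        rcases lt_or_ge z.im 0 with h | h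
        · exact ⟨v3 _ (by linarith), w3 _ (by linarith)⟩
        · rw [abs_of_nonneg h] at h2
          exact ⟨v4 _ h2, w4 _ h2⟩
      rw [h3.1, h3.2]
      ring
  · intro t ft hft z
    simp only [hform]
    have hbs : ContDiff ℝ ∞ (fun x => a 1 (θ t) x + e (θ t) x) :=
      (GL_a hp 1 (θ t)).add (GL_e hp (θ t))
    obtain ⟨d1, d2⟩ := GL_tst_deriv hbs hP z
    have hd : DifferentiableAt ℝ (tst (fun x => a 1 (θ t) x + e (θ t) x) P) z := by
      have e2 : tst (fun x => a 1 (θ t) x + e (θ t) x) P =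
          fun z : ℂ => (fun x => a 1 (θ t) x + e (θ t) x) z.re * vk 0 P z.im := funext (htst _)
      rw [e2]
      exact (((hbs.differentiable (by simp)).comp Complex.reCLM.differentiable).mul
        ((v1.differentiable (by simp)).comp Complex.imCLM.differentiable)) z
    have hx : dx ft z = ρ t * (deriv (fun x => a 1 (θ t) x + e (θ t) x) z.re * vk 0 P z.im) := by
      rw [hft, dx_const_mul _ hd, d1]
    have hy : dy ft z = ρ t * ((a 1 (θ t) z.re + e (θ t) z.re) * vk 1 P z.im) := by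
      rw [hft, dy_const_mul _ hd, d2]
    obtain ⟨f1, f2⟩ := GL_tst_deriv (GL_a hp 0 (θ t)) hP z
    have k1 : HasDerivAt (fun t => a 0 (θ t) z.re) (ρ t * (a 1 (θ t) z.re + e (θ t) z.re)) t := by
      have := (hp.time (θ t) z.re).comp t (hθ t)
      refine this.congr_deriv ?_
      ring
    have k2 : HasDerivAt (fun t => deriv (a 0 (θ t)) z.re)
        (ρ t * deriv (fun x => a 1 (θ t) x + e (θ t) x) z.re) t := by
      have := (m2 (θ t) z.re).comp t (hθ t)
      refine this.congr_deriv ?_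
      ring
    have k3 := (k1.mul_const (vk 0 P z.im)).sub
      ((((GL_qua_deriv hqa t z).mul (k2.mul_const (vk 0 P z.im))).add
        ((GL_qua_deriv hqb t z).mul (k1.mul_const (vk 1 P z.im)))).const_mul r)
    have k4 : deriv (fun t => a 0 (θ t) z.re * vk 0 P z.im -
      r * (qua (fun i => ∫ τ in (0 : ℝ)..t, qa τ i) z * (deriv (a 0 (θ t)) z.re * vk 0 P z.im) +
        qua (fun i => ∫ τ in (0 : ℝ)..t, qb τ i) z * (a 0 (θ t) z.re * vk 1 P z.im))) t = _ :=
      k3.deriv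
    rw [k4, dv, dv, f1, f2, hx, hy, hft]
    simp only [htst]
    ring

end Pool.Agent.YUL
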