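import Pool.Agent.YUL.L1
import Pool.Agent.YUR.S4

/-!
# [YUL-GL] vanishing moments; the values at the end and at the start
-/

open MeasureTheory Set Filter Topology
open scoped ContDiff

namespace Pool.Agent.YUL

open Pool.Agent.YUD Pool.Agent.YUT Pool.Agent.YUB Pool.Agent.YUR

/-- all moments of order `≤ n` vanish -/
structure GNul (F : ℂ → ℝ) (n : ℕ) : Prop where
  cont : Continuous F
  cpt : HasCompactSupport F
  van : ∀ i j : ℕ, i + j ≤ n → ∫ z : ℂ, z.re ^ i * z.im ^ j * F z = 0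

theorem GNul.mono {F : ℂ → ℝ} {n m : ℕ} (h : GNul F n) (hm : m ≤ n) : GNul F m :=
  ⟨h.cont, h.cpt, fun i j hij => h.van i j (hij.trans hm)⟩

theorem GNul.integrable {F : ℂ → ℝ} {n : ℕ} (h : GNul F n) (i j : ℕ) :
    Integrable fun z : ℂ => z.re ^ i * z.im ^ j * F z := by
  have hc : Continuous fun z : ℂ => z.re ^ i * z.im ^ j * F z :=
    ((Complex.continuous_re.pow i).mul (Complex.continuous_im.pow j)).mul h.cont
  exact hc.integrable_of_hasCompactSupport h.cpt.mul_left

theorem GNul.add {F G : ℂ → ℝ} {n : ℕ} (h : GNul F n) (k : GNul G n) :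
    GNul (fun z => F z + G z) n := by
  refine ⟨h.cont.add k.cont, h.cpt.add k.cpt, fun i j hij => ?_⟩
  have e : (fun z : ℂ => z.re ^ i * z.im ^ j * (F z + G z)) =
      fun z => z.re ^ i * z.im ^ j * F z + z.re ^ i * z.im ^ j * G z := by
    funext z; ring
  rw [e, integral_add (h.integrable i j) (k.integrable i j), h.van i j hij, k.van i j hij, add_zero]

theorem GNul.const_mul {F : ℂ → ℝ} {n : ℕ} (h : GNul F n) (c : ℝ) :
    GNul (fun z => c * F z) n := by
  refine ⟨continuous_const.mul h.cont, h.cpt.mul_left, fun i j hij => ?_⟩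
  have e : (fun z : ℂ => z.re ^ i * z.im ^ j * (c * F z)) =
      fun z => c * (z.re ^ i * z.im ^ j * F z) := by
    funext z; ring
  rw [e, integral_const_mul, h.van i j hij, mul_zero]

theorem GNul.re_mul {F : ℂ → ℝ} {n : ℕ} (h : GNul F (n + 1)) :
    GNul (fun z => z.re * F z) n := by
  refine ⟨Complex.continuous_re.mul h.cont, h.cpt.mul_left, fun i j hij => ?_⟩
  have e : (fun z : ℂ => z.re ^ i * z.im ^ j * (z.re * F z)) =
      fun z => z.re ^ (i + 1) * z.im ^ j * F z := by
    funext z; ring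
  rw [e, h.van (i + 1) j (by omega)]

theorem GNul.im_mul {F : ℂ → ℝ} {n : ℕ} (h : GNul F (n + 1)) :
    GNul (fun z => z.im * F z) n := by
  refine ⟨Complex.continuous_im.mul h.cont, h.cpt.mul_left, fun i j hij => ?_⟩
  have e : (fun z : ℂ => z.re ^ i * z.im ^ j * (z.im * F z)) =
      fun z => z.re ^ i * z.im ^ (j + 1) * F z := by
    funext z; ring
  rw [e, h.van i (j + 1) (by omega)]

theorem GNul.integral {F : ℂ → ℝ} {n : ℕ} (h : GNul F n) : ∫ z, F z = 0 := by
  have := h.van 0 0 (by omega)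
  simpa using this

theorem GNul.congr {F G : ℂ → ℝ} {n : ℕ} (h : GNul F n) (e : ∀ z, G z = F z) : GNul G n := by
  have : G = F := funext e
  rw [this]
  exact h

theorem GNul.lin {F : ℂ → ℝ} {n : ℕ} (h : GNul F (n + 1)) (k : Fin 2 → ℝ) :
    GNul (fun z => lin k z * F z) n :=
  ((h.re_mul.const_mul (k 0)).add (h.im_mul.const_mul (k 1))).congr fun z => by
    unfold YUL.lin; ring

theorem GNul.qua {F : ℂ → ℝ} {n : ℕ} (h : GNul F (n + 2)) (k : Fin 3 → ℝ) :
    GNul (fun z => qua k z * F z) n := by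
  have h1 : GNul (fun z => z.re * F z) (n + 1) := GNul.re_mul h
  have h2 : GNul (fun z => z.im * F z) (n + 1) := GNul.im_mul h
  exact (((h1.re_mul.const_mul (k 0)).add (h1.im_mul.const_mul (k 1))).add
    (h2.im_mul.const_mul (k 2))).congr fun z => by
      unfold YUL.qua; ring

theorem GL_cpt1 {b : ℝ → ℝ} {N : ℝ} (h : ∀ x, N ≤ |x| → b x = 0) : HasCompactSupport b :=
  HasCompactSupport.intro (isCompact_closedBall (0 : ℝ) |N|) fun x hx => h x (by
    rw [Metric.mem_closedBall, dist_zero_right, Real.norm_eq_abs, not_le] at hx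
    exact (le_abs_self N).trans hx.le)

theorem GNul_prod {b h : ℝ → ℝ} {N N' : ℝ} {n : ℕ} (hb : Continuous b)
    (hbN : ∀ x, N ≤ |x| → b x = 0) (hh : Continuous h) (hhN : ∀ y, N' ≤ |y| → h y = 0)
    (hm : ∀ i, i ≤ n → ∫ x, x ^ i * b x = 0) : GNul (fun z : ℂ => b z.re * h z.im) n := by
  refine ⟨(hb.comp Complex.continuous_re).mul (hh.comp Complex.continuous_im), ?_, ?_⟩
  · refine HasCompactSupport.intro (isCompact_closedBall (0 : ℂ) (|N| + |N'|)) fun z hz => ?_
    rw [Metric.mem_closedBall, dist_zero_right, not_le] at hz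
    rcases le_or_gt N |z.re| with h1 | h1
    · rw [hbN _ h1, zero_mul]
    · rcases le_or_gt N' |z.im| with h2 | h2
      · rw [hhN _ h2, mul_zero]
      · exfalso
        have h3 := Complex.norm_le_abs_re_add_abs_im z
        have h4 := le_abs_self N
        have h5 := le_abs_self N'
        linarith
  · intro i j hij
    have e : (fun z : ℂ => z.re ^ i * z.im ^ j * (b z.re * h z.im)) =
        fun z : ℂ => (fun x : ℝ => x ^ i * b x) z.re * (fun y : ℝ => y ^ j * h y) z.im := by
      funext z; ring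
    rw [e, prod_int (fun x : ℝ => x ^ i * b x) (fun y : ℝ => y ^ j * h y), hm i (by omega),
      zero_mul]

theorem GL_deriv_van {b : ℝ → ℝ} (hb : ContDiff ℝ ∞ b) (hc : HasCompactSupport b) {n : ℕ}
    (hm : ∀ i, i ≤ n → ∫ x, x ^ i * b x = 0) (i : ℕ) (hi : i ≤ n + 1) :
    ∫ x, x ^ i * deriv b x = 0 := by
  have hd : ∀ x, HasDerivAt b (deriv b x) x := fun x =>
    ((hb.differentiable (by simp)) x).hasDerivAt
  have hb' : Continuous (deriv b) := ((contDiff_infty_iff_deriv.1 hb).2).continuous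
  have hint : ∀ i : ℕ, Integrable fun x : ℝ => x ^ i * b x := fun i =>
    ((continuous_pow i).mul hb.continuous).integrable_of_hasCompactSupport hc.mul_left
  have hint' : ∀ i : ℕ, Integrable fun x : ℝ => x ^ i * deriv b x := fun i =>
    ((continuous_pow i).mul hb').integrable_of_hasCompactSupport hc.deriv.mul_left
  cases i with
  | zero =>
    have := integral_eq_zero_of_hasDerivAt_of_integrable hd (by simpa using hint' 0)
      (by simpa using hint 0)
    simpa using this
  | succ i =>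
    have h1 := integral_eq_zero_of_hasDerivAt_of_integrable
      (f := fun x => x ^ (i + 1) * b x)
      (f' := fun x => ((i : ℝ) + 1) * (x ^ i * b x) + x ^ (i + 1) * deriv b x) (fun x => by
        refine ((hasDerivAt_pow (i + 1) x).mul (hd x)).congr_deriv ?_
        have e9 : i + 1 - 1 = i := by omega
        rw [e9]
        push_cast
        ring) (((hint i).const_mul _).add (hint' (i + 1))) (hint (i + 1))
    rw [integral_add ((hint i).const_mul _) (hint' (i + 1)), integral_const_mul,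
      hm i (by omega), mul_zero, zero_add] at h1
    exact h1

theorem GL_deriv_supp {b : ℝ → ℝ} {N : ℝ} (h : ∀ x, N ≤ |x| → b x = 0)
    (x : ℝ) (hx : N + 1 ≤ |x|) : deriv b x = 0 := by
  have hU : IsOpen {x : ℝ | N < |x|} := isOpen_lt continuous_const continuous_abs
  have hx' : x ∈ {x : ℝ | N < |x|} := show N < |x| by linarith
  have : b =ᶠ[𝓝 x] fun _ => (0 : ℝ) := by
    filter_upwards [hU.mem_nhds hx'] with y hy
    exact h y (le_of_lt hy)
  rw [this.deriv_eq]
  exact deriv_const _ _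

/-! ### test functions -/

/-- the facts on `tst b P` -/
theorem GL_tst {b : ℝ → ℝ} {N P : ℝ} (hb : ContDiff ℝ ∞ b) (hbN : ∀ x, N ≤ |x| → b x = 0)
    (hm : ∀ i, i ≤ 7 → ∫ x, x ^ i * b x = 0) (hN : 1 ≤ N) (hP : 1 ≤ P) :
    GNul (tst b P) 7 ∧ GNul (dx (tst b P)) 7 ∧ GNul (dy (tst b P)) 7 ∧
      (∀ z, N + 2 * P ≤ ‖z‖ → tst b P z = 0 ∧ dx (tst b P) z = 0 ∧ dy (tst b P) z = 0) ∧
      ∃ X : ℝ, 0 ≤ X ∧ ∀ z, |tst b P z| ≤ X ∧ |dx (tst b P) z| ≤ X ∧ |dy (tst b P) z| ≤ X := by
  have hP0 : 0 < P := by linarith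
  obtain ⟨v1, v2, v3, v4, v5⟩ := vk_facts hP0 0
  obtain ⟨w1, w2, w3, w4, -⟩ := vk_facts hP0 1
  have hv : ∀ y, 2 * P + 1 ≤ |y| → vk 0 P y = 0 := by
    intro y hy
    rcases le_or_gt 0 y with h | h
    · rw [abs_of_nonneg h] at hy
      exact v4 y (by linarith)
    · exact v3 y (by linarith)
  have hw : ∀ y, 2 * P + 1 ≤ |y| → vk 1 P y = 0 := by
    intro y hy
    rcases le_or_gt 0 y with h | h
    · rw [abs_of_nonneg h] at hy
      exact w4 y (by linarith)
    · exact w3 y (by linarith)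
  have e0 : tst b P = fun z : ℂ => b z.re * vk 0 P z.im := by
    funext z
    rw [v5]
    rfl
  have e1 : dx (tst b P) = fun z : ℂ => deriv b z.re * vk 0 P z.im := by
    funext z
    exact (GL_tst_deriv hb hP z).1
  have e2 : dy (tst b P) = fun z : ℂ => b z.re * vk 1 P z.im := by
    funext z
    exact (GL_tst_deriv hb hP z).2
  have hb' : Continuous (deriv b) := ((contDiff_infty_iff_deriv.1 hb).2).continuous
  have n0 : GNul (tst b P) 7 := by
    rw [e0]
    exact GNul_prod hb.continuous hbN v1.continuous hv hm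
  have n1 : GNul (dx (tst b P)) 7 := by
    rw [e1]
    exact GNul_prod hb' (GL_deriv_supp hbN) v1.continuous hv
      fun i hi => GL_deriv_van hb (GL_cpt1 hbN) hm i (by omega)
  have n2 : GNul (dy (tst b P)) 7 := by
    rw [e2]
    exact GNul_prod hb.continuous hbN w1.continuous hw hm
  refine ⟨n0, n1, n2, ?_, ?_⟩
  · have key : ∀ z : ℂ, N + 2 * P < ‖z‖ → tst b P z = 0 ∧ dx (tst b P) z = 0 ∧
        dy (tst b P) z = 0 := by
      have hz0 : ∀ z : ℂ, N + 2 * P < ‖z‖ → tst b P z = 0 := by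
        intro z hz
        rw [e0]
        show b z.re * vk 0 P z.im = 0
        by_cases hre : N ≤ |z.re|
        · rw [hbN _ hre, zero_mul]
        · rw [not_le] at hre
          have h1 := Complex.norm_le_abs_re_add_abs_im z
          have h2 : 2 * P < |z.im| := by linarith
          have h3 : vk 0 P z.im = 0 := by
            rcases lt_or_ge z.im 0 with h | h
            · exact v3 _ (by linarith)
            · rw [abs_of_nonneg h] at h2
              exact v4 _ h2
          rw [h3, mul_zero]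
      intro z hz
      have hU : IsOpen {z : ℂ | N + 2 * P < ‖z‖} := isOpen_lt continuous_const continuous_norm
      have hev : tst b P =ᶠ[𝓝 z] fun _ => (0 : ℝ) := by
        filter_upwards [hU.mem_nhds hz] with y hy
        exact hz0 y hy
      have hf : fderiv ℝ (tst b P) z = 0 := by
        rw [hev.fderiv_eq]
        exact fderiv_const_apply 0
      refine ⟨hz0 z hz, ?_, ?_⟩
      · rw [dx, hf]; rfl
      · rw [dy, hf]; rfl
    intro z hz
    rcases hz.lt_or_eq with h | h
    · exact key z h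
    · have hzne : z ≠ 0 := by
        rintro rfl
        rw [norm_zero] at h
        linarith
      have hmem : z ∈ closure {z : ℂ | N + 2 * P < ‖z‖} := by
        rw [Metric.mem_closure_iff]
        intro ε hε
        have hnz : 0 < ‖z‖ := norm_pos_iff.2 hzne
        refine ⟨z + ((ε / 2 / ‖z‖ : ℝ) : ℂ) * z, ?_, ?_⟩
        · show N + 2 * P < ‖z + ((ε / 2 / ‖z‖ : ℝ) : ℂ) * z‖
          have : z + ((ε / 2 / ‖z‖ : ℝ) : ℂ) * z = ((1 + ε / 2 / ‖z‖ : ℝ) : ℂ) * z := by
            push_cast; ring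
          rw [this, norm_mul, Complex.norm_real, Real.norm_eq_abs, abs_of_pos (by positivity),
            h]
          have h7 : 0 < ε / 2 / ‖z‖ := by positivity
          nlinarith
        · rw [dist_comm, dist_eq_norm, add_sub_cancel_left, norm_mul, Complex.norm_real,
            Real.norm_eq_abs, abs_of_pos (by positivity), div_mul_cancel₀ _ hnz.ne']
          linarith
      have cl : ∀ {F : ℂ → ℝ}, Continuous F → (∀ z, N + 2 * P < ‖z‖ → F z = 0) → F z = 0 := by
        intro F hF hF0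
        exact closure_minimal (fun y hy => hF0 y hy : {z : ℂ | N + 2 * P < ‖z‖} ⊆ {z | F z = 0})
          (isClosed_eq hF continuous_const) hmem
      exact ⟨cl n0.cont fun z hz => (key z hz).1, cl n1.cont fun z hz => (key z hz).2.1,
        cl n2.cont fun z hz => (key z hz).2.2⟩
  · obtain ⟨X0, h0⟩ := n0.cpt.exists_bound_of_continuous n0.cont
    obtain ⟨X1, h1⟩ := n1.cpt.exists_bound_of_continuous n1.cont
    obtain ⟨X2, h2⟩ := n2.cpt.exists_bound_of_continuous n2.cont
    refine ⟨max X0 (max X1 X2), ((norm_nonneg _).trans (h0 0)).trans (le_max_left _ _),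
      fun z => ⟨(h0 z).trans (le_max_left _ _), (h1 z).trans ((le_max_left _ _).trans
        (le_max_right _ _)), (h2 z).trans ((le_max_right _ _).trans (le_max_right _ _))⟩⟩

/-! ### integrals -/

theorem GL_int_le {u : ℂ → ℝ} {ρ X : ℝ} (h0 : ∀ z, ρ < ‖z‖ → u z = 0)
    (hX : ∀ z, ‖z‖ ≤ ρ → |u z| ≤ X) :
    |∫ z, u z| ≤ X * (volume (Metric.closedBall (0 : ℂ) ρ)).toReal := by
  have h1 : ∫ z, u z = ∫ z in Metric.closedBall (0 : ℂ) ρ, u z := by
    rw [setIntegral_eq_integral_of_forall_compl_eq_zero]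
    intro z hz
    rw [Metric.mem_closedBall, dist_zero_right, not_le] at hz
    exact h0 z hz
  rw [h1, ← Real.norm_eq_abs]
  refine norm_setIntegral_le_of_norm_le_const measure_closedBall_lt_top fun z hz => ?_
  rw [Metric.mem_closedBall, dist_zero_right] at hz
  exact hX z hz

theorem GL_integrable {ρ R : ℝ} (hρR : ρ < R) {w : ℂ → ℝ} (hw : ContinuousOn w (Metric.ball 0 R))
    (h0 : ∀ z, ρ < ‖z‖ → w z = 0) : Integrable w := by
  have hc : Continuous w := by
    rw [continuous_iff_continuousAt]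
    intro z
    by_cases hz : z ∈ Metric.ball (0 : ℂ) R
    · exact hw.continuousAt (Metric.isOpen_ball.mem_nhds hz)
    · have hz' : ρ < ‖z‖ := by
        rw [Metric.mem_ball, dist_zero_right, not_lt] at hz
        linarith
      have hU : IsOpen {z : ℂ | ρ < ‖z‖} := isOpen_lt continuous_const continuous_norm
      have h2 : w =ᶠ[𝓝 z] fun _ => 0 := by
        filter_upwards [hU.mem_nhds hz'] with x hx
        exact h0 x hx
      exact (continuousAt_const (y := (0 : ℝ))).congr h2.symm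
  exact hc.integrable_of_hasCompactSupport
    (HasCompactSupport.intro (isCompact_closedBall (0 : ℂ) ρ) fun z hz => h0 z (by
      rw [Metric.mem_closedBall, dist_zero_right, not_le] at hz
      exact hz))

theorem GL_lin_le {k : Fin 2 → ℝ} {C ρ : ℝ} (hk : ∀ i, |k i| ≤ C) {z : ℂ} (hz : ‖z‖ ≤ ρ) :
    |lin k z| ≤ 2 * C * ρ := by
  have h1 := (Complex.abs_re_le_norm z).trans hz
  have h2 := (Complex.abs_im_le_norm z).trans hz
  have hC : 0 ≤ C := (abs_nonneg _).trans (hk 0)
  unfold lin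
  calc |k 0 * z.re + k 1 * z.im| ≤ |k 0 * z.re| + |k 1 * z.im| := abs_add_le _ _
    _ = |k 0| * |z.re| + |k 1| * |z.im| := by rw [abs_mul, abs_mul]
    _ ≤ C * ρ + C * ρ := by
        have := hk 0
        have := hk 1
        gcongr
    _ = 2 * C * ρ := by ring

theorem GL_qua_le {k : Fin 3 → ℝ} {C ρ : ℝ} (hk : ∀ i, |k i| ≤ C) {z : ℂ} (hz : ‖z‖ ≤ ρ) :
    |qua k z| ≤ 3 * C * ρ ^ 2 := by
  have h1 := (Complex.abs_re_le_norm z).trans hz
  have h2 := (Complex.abs_im_le_norm z).trans hz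
  have hC : 0 ≤ C := (abs_nonneg _).trans (hk 0)
  have hρ : 0 ≤ ρ := (norm_nonneg z).trans hz
  unfold qua
  calc |k 0 * z.re ^ 2 + k 1 * (z.re * z.im) + k 2 * z.im ^ 2|
      ≤ |k 0 * z.re ^ 2| + |k 1 * (z.re * z.im)| + |k 2 * z.im ^ 2| := abs_add_three _ _ _
    _ = |k 0| * |z.re| ^ 2 + |k 1| * (|z.re| * |z.im|) + |k 2| * |z.im| ^ 2 := by
        rw [abs_mul, abs_mul, abs_mul, abs_mul, abs_pow, abs_pow]
    _ ≤ C * ρ ^ 2 + C * (ρ * ρ) + C * ρ ^ 2 := by
        have := hk 0
        have := hk 1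
        have := hk 2
        gcongr
    _ = 3 * C * ρ ^ 2 := by ring

theorem GL_qua_norm {Q : Fin 3 → ℝ} {ρ : ℝ} {z : ℂ} (hz : ‖z‖ ≤ ρ) :
    |qua Q z| ≤ 3 * ‖Q‖ * ρ ^ 2 :=
  GL_qua_le (fun i => norm_le_pi_norm Q i) hz

end Pool.Agent.YUL
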