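import Pool.Agent.YUL.L2

/-!
# [YUL-GL] the values at the end and at the start
-/

open MeasureTheory Set Filter Topology
open scoped ContDiff

namespace Pool.Agent.YUL

open Pool.Agent.YUD Pool.Agent.YUT Pool.Agent.YUB Pool.Agent.YUR

theorem GL_split4 {u₀ u₁ u₂ u₃ : ℂ → ℝ} (h₀ : Integrable u₀) (h₁ : Integrable u₁)
    (h₂ : Integrable u₂) (h₃ : Integrable u₃) (b c : ℝ) :
    ∫ z, (u₀ z + b * u₁ z + c * u₂ z + u₃ z) =
      (∫ z, u₀ z) + b * (∫ z, u₁ z) + c * (∫ z, u₂ z) + ∫ z, u₃ z := by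
  rw [integral_add (f := fun z => u₀ z + b * u₁ z + c * u₂ z) (g := fun z => u₃ z)
      ((h₀.add (h₁.const_mul b)).add (h₂.const_mul c)) h₃,
    integral_add (f := fun z => u₀ z + b * u₁ z) (g := fun z => c * u₂ z)
      (h₀.add (h₁.const_mul b)) (h₂.const_mul c),
    integral_add (f := fun z => u₀ z) (g := fun z => b * u₁ z) h₀ (h₁.const_mul b),
    integral_const_mul, integral_const_mul]

theorem GL_split3 {u₀ u₁ u₂ u₃ : ℂ → ℝ} (h₀ : Integrable u₀) (h₁ : Integrable u₁)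
    (h₂ : Integrable u₂) (h₃ : Integrable u₃) (c : ℝ) :
    ∫ z, (u₀ z + c * (u₁ z + u₂ z - u₃ z)) =
      (∫ z, u₀ z) + c * ((∫ z, u₁ z) + (∫ z, u₂ z) - ∫ z, u₃ z) := by
  have e : (fun z => u₀ z + c * (u₁ z + u₂ z - u₃ z)) = fun z =>
      u₀ z + c * u₁ z + c * u₂ z + (-c) * u₃ z := by
    funext z; ring
  rw [e, GL_split4 h₀ h₁ h₂ (h₃.const_mul (-c)) c c, integral_const_mul]
  ring

/-- `m - 1` is small -/
theorem GL_m {α C R r : ℝ} {qa qb : Fin 3 → ℝ} {γ μ ν p : ℝ} {s η m W₁ W₂ : ℂ → ℝ}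
    (h : GSlc α C R r qa qb γ μ ν p s η m W₁ W₂) (hC : 0 ≤ C) {ρ : ℝ} (hρR : ρ < R)
    (hr : 0 < r) (hr1 : r ≤ 1) (z : ℂ) (hz : ‖z‖ ≤ ρ) :
    |m z - 1| ≤ r * (2 * C * ρ + 3 * C * ρ ^ 2 + C * ρ ^ 3) := by
  obtain ⟨m₁, m₂, h1, h2, h3⟩ := h.m_eq
  have hz' : z ∈ Metric.ball (0 : ℂ) R := by
    rw [Metric.mem_ball, dist_zero_right]
    linarith
  have e1 := GL_lin_le h1 hz
  have e2 := GL_qua_le h2 hz
  have e3 := h3 z hz'
  have hr2 : r ^ 2 ≤ r := by nlinarith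
  have hr3 : r ^ 3 ≤ r := by
    calc r ^ 3 = r ^ 2 * r := by ring
      _ ≤ 1 * r := by nlinarith
      _ = r := one_mul r
  have hz3 : ‖z‖ ^ 3 ≤ ρ ^ 3 := pow_le_pow_left₀ (norm_nonneg _) hz 3
  calc |m z - 1| = |(m z - 1 - r * lin m₁ z - r ^ 2 * qua m₂ z) + r * lin m₁ z +
        r ^ 2 * qua m₂ z| := by ring_nf
    _ ≤ |m z - 1 - r * lin m₁ z - r ^ 2 * qua m₂ z| + |r * lin m₁ z| + |r ^ 2 * qua m₂ z| :=
        abs_add_three _ _ _
    _ ≤ C * r ^ 3 * ‖z‖ ^ 3 + r * |lin m₁ z| + r ^ 2 * |qua m₂ z| := by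
        rw [abs_mul, abs_mul, abs_of_pos hr, abs_of_pos (pow_pos hr 2)]
        gcongr
    _ ≤ C * r * ρ ^ 3 + r * (2 * C * ρ) + r * (3 * C * ρ ^ 2) := by
        have t1 : C * r ^ 3 * ‖z‖ ^ 3 ≤ C * r * ρ ^ 3 := by gcongr
        have t2 : r * |lin m₁ z| ≤ r * (2 * C * ρ) := mul_le_mul_of_nonneg_left e1 hr.le
        have t3 : r ^ 2 * |qua m₂ z| ≤ r * (3 * C * ρ ^ 2) :=
          mul_le_mul hr2 e2 (abs_nonneg _) hr.le
        linarith
    _ = _ := by ring

/-- the polynomial part of the vorticity is killed up to the third order -/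
theorem GL_mass {α C R r : ℝ} {qa qb : Fin 3 → ℝ} {γ μ ν p : ℝ} {s η m W₁ W₂ : ℂ → ℝ}
    (h : GSlc α C R r qa qb γ μ ν p s η m W₁ W₂) (hC : 0 ≤ C) {ρ X β g : ℝ} {F : ℂ → ℝ}
    (hF : GNul F 3) (hρ : 0 ≤ ρ) (hρR : ρ < R) (hX : ∀ z, |F z| ≤ X)
    (h0 : ∀ z, ρ < ‖z‖ → F z = 0) (hr : 0 < r) (hr1 : r ≤ 1) (hβ : 0 < β) (hβC : β ≤ C)
    (hg : |g| ≤ C) :
    |∫ z, (g + r * β * z.im) * F z * m z| ≤
      (C + C * ρ) * X * (C * r ^ 3 * ρ ^ 3) *
        (volume (Metric.closedBall (0 : ℂ) ρ)).toReal := by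
  obtain ⟨m₁, m₂, h1, h2, h3⟩ := h.m_eq
  have hX0 : 0 ≤ X := (abs_nonneg _).trans (hX 0)
  set F' : ℂ → ℝ := fun z => (g + r * β * z.im) * F z with hF'
  have n2 : GNul F' 2 := ((hF.mono (by norm_num : (2 : ℕ) ≤ 3)).const_mul g |>.add
    (GNul.im_mul (n := 2) hF |>.const_mul (r * β))).congr fun z => by
      simp only [hF']; ring
  have i1 : ∫ z, F' z = 0 := n2.integral
  have n3 : GNul (fun z => lin m₁ z * F' z) 1 := GNul.lin (n := 1) n2 m₁
  have n4 : GNul (fun z => qua m₂ z * F' z) 0 := GNul.qua (n := 0) n2 m₂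
  have hcF : Continuous F' := n2.cont
  have off : ∀ z, ρ < ‖z‖ → F' z = 0 := fun z hz => by
    simp only [hF']
    rw [h0 z hz, mul_zero]
  have int0 : Integrable F' := by simpa using n2.integrable 0 0
  have int1 : Integrable (fun z => lin m₁ z * F' z) := by simpa using n3.integrable 0 0
  have int2 : Integrable (fun z => qua m₂ z * F' z) := by simpa using n4.integrable 0 0
  have clin : Continuous (lin m₁) := by
    unfold lin
    exact (continuous_const.mul Complex.continuous_re).add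
      (continuous_const.mul Complex.continuous_im)
  have cqua : Continuous (qua m₂) := by
    unfold qua
    exact ((continuous_const.mul (Complex.continuous_re.pow 2)).add
      (continuous_const.mul (Complex.continuous_re.mul Complex.continuous_im))).add
      (continuous_const.mul (Complex.continuous_im.pow 2))
  have int3 : Integrable (fun z => F' z * (m z - 1 - r * lin m₁ z - r ^ 2 * qua m₂ z)) := by
    refine GL_integrable hρR ?_ fun z hz => by rw [off z hz, zero_mul]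
    exact hcF.continuousOn.mul (((h.m_cont.sub continuousOn_const).sub
      (continuousOn_const.mul clin.continuousOn)).sub (continuousOn_const.mul cqua.continuousOn))
  have e : ∫ z, (g + r * β * z.im) * F z * m z =
      ∫ z, F' z * (m z - 1 - r * lin m₁ z - r ^ 2 * qua m₂ z) := by
    have e1 : (fun z : ℂ => (g + r * β * z.im) * F z * m z) = fun z : ℂ =>
        (F' z + r * (lin m₁ z * F' z) + r ^ 2 * (qua m₂ z * F' z)) +
          F' z * (m z - 1 - r * lin m₁ z - r ^ 2 * qua m₂ z) := by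
      funext z
      simp only [hF']
      ring
    rw [e1, GL_split4 int0 int1 int2 int3, i1, n3.integral, n4.integral]
    ring
  rw [e]
  refine GL_int_le (fun z hz => by rw [off z hz, zero_mul]) fun z hz => ?_
  have hz' : z ∈ Metric.ball (0 : ℂ) R := by
    rw [Metric.mem_ball, dist_zero_right]
    linarith
  have t1 : |F' z| ≤ (C + C * ρ) * X := by
    simp only [hF']
    rw [abs_mul]
    refine mul_le_mul ?_ (hX z) (abs_nonneg _) (by positivity)
    calc |g + r * β * z.im| ≤ |g| + |r * β * z.im| := abs_add_le _ _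
      _ = |g| + r * β * |z.im| := by rw [abs_mul, abs_of_pos (mul_pos hr hβ)]
      _ ≤ C + 1 * C * ρ := by
          have := (Complex.abs_im_le_norm z).trans hz
          gcongr
      _ = C + C * ρ := by ring
  have t2 : |m z - 1 - r * lin m₁ z - r ^ 2 * qua m₂ z| ≤ C * r ^ 3 * ρ ^ 3 :=
    (h3 z hz').trans (by gcongr)
  rw [abs_mul]
  exact mul_le_mul t1 t2 (abs_nonneg _) (by positivity)

theorem GL_win_int {P : ℝ} (hP : 1 ≤ P) : ∫ y, |vk 0 P y| ≤ P := by
  have hP0 : 0 < P := by linarith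
  obtain ⟨v1, v2, v3, v4, v5⟩ := vk_facts hP0 0
  obtain ⟨w1, w2, w3, w4, w5, w6⟩ := win_facts
  have h1 : ∫ y, |vk 0 P y| = ∫ y in Icc P (2 * P), |vk 0 P y| := by
    rw [setIntegral_eq_integral_of_forall_compl_eq_zero]
    intro y hy
    rw [mem_Icc, not_and_or, not_le, not_le] at hy
    rcases hy with h | h
    · rw [v3 y h, abs_zero]
    · rw [v4 y h, abs_zero]
  have h2 : ∫ y in Icc P (2 * P), |vk 0 P y| ≤ ∫ y in Icc P (2 * P), (1 : ℝ) := by
    refine setIntegral_mono_on (v1.continuous.abs.continuousOn.integrableOn_compact isCompact_Icc)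
      (continuousOn_const.integrableOn_compact isCompact_Icc) measurableSet_Icc fun y _ => ?_
    rw [v5, abs_of_nonneg (w2 _).1]
    exact (w2 _).2
  rw [h1]
  refine h2.trans ?_
  rw [setIntegral_const, smul_eq_mul, mul_one, Measure.real, Real.volume_Icc,
    ENNReal.toReal_ofReal (by linarith)]
  linarith

theorem GL_rpow3 {α r : ℝ} (hα1 : α < 1) (hr : 0 < r) (hr1 : r ≤ 1) :
    r ^ 3 ≤ r ^ (1 + α) * r := by
  have h1 : r ^ (1 + α) * r = r ^ (2 + α) := by
    rw [show 2 + α = (1 + α) + 1 by ring, Real.rpow_add_one hr.ne']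
  rw [h1, ← Real.rpow_natCast]
  exact Real.rpow_le_rpow_of_exponent_ge hr hr1 (by push_cast; linarith)

/-- the value at the end -/
theorem gend {α C : ℝ} (hα : 0 < α) (hα1 : α < 1) (hC : 1 ≤ C) {B κ S Λs τ N : ℝ}
    {a : ℕ → ℝ → ℝ → ℝ} {e : ℝ → ℝ → ℝ} {P : ℝ} (hp : Packet B κ S Λs τ N a e) (hP : 1 ≤ P)
    (hN : 1 ≤ N) : ∃ A : ℝ, 0 ≤ A ∧ ∀ (R r β g : ℝ) (qa qb : Fin 3 → ℝ) (γ μ ν p : ℝ)
      (s η m W₁ W₂ : ℂ → ℝ), 0 < r → r ≤ 1 → 0 < β → β ≤ C → |g| ≤ C →
        GSlc α C R r qa qb γ μ ν p s η m W₁ W₂ → 2 * (N + 2 * P) ≤ R → ∀ (Q₁ Q₂ : Fin 3 → ℝ),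
          r * ‖Q₁‖ ≤ 1 → r * ‖Q₂‖ ≤ 1 →
          |∫ z, omg α r β g η z * (tst (a 0 0) P z - r * dv (qua Q₁) (qua Q₂) (tst (a 0 0) P) z) *
            m z| ≤ r ^ (1 + α) * (C * (B * P) + A * (r + r * ‖Q₁‖ + r * ‖Q₂‖)) := by
  have hC0 : 0 < C := by linarith
  have hP0 : 0 < P := by linarith
  obtain ⟨n0, n1, n2, hz, X, hX0, hX⟩ := GL_tst (P := P) (GL_a hp 0 0) (hp.supp 0 0)
    (fun i hi => packet_van hp i 0 (by omega) 0) hN hP
  set f : ℂ → ℝ := tst (a 0 0) P with hf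
  obtain ⟨ρ, hρ⟩ : ∃ ρ : ℝ, ρ = N + 2 * P := ⟨_, rfl⟩
  have hρ1 : 1 ≤ ρ := by rw [hρ]; linarith
  have hρ0 : 0 ≤ ρ := by linarith
  rw [← hρ] at hz
  set V : ℝ := (volume (Metric.closedBall (0 : ℂ) ρ)).toReal with hV
  have hV0 : 0 ≤ V := ENNReal.toReal_nonneg
  set M : ℝ := 2 * C * ρ + 3 * C * ρ ^ 2 + C * ρ ^ 3 with hM
  have hM0 : 0 ≤ M := by positivity
  set E : ℝ := C * ρ ^ (1 + α) with hE
  have hE0 : 0 ≤ E := by positivity
  refine ⟨(C + C * ρ) * (X + 6 * ρ ^ 2 * X) * (C * ρ ^ 3) * V +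
    E * V * (X * M + 3 * ρ ^ 2 * X * (1 + M)), by positivity, ?_⟩
  intro R r β g qa qb γ μ ν p s η m W₁ W₂ hr hr1 hβ hβC hg hs hR Q₁ Q₂ hQ₁ hQ₂
  rw [← hρ] at hR
  have hρR : ρ < R := by linarith
  set φ : ℂ → ℝ := dv (qua Q₁) (qua Q₂) f with hφ
  have nφ : GNul φ 5 := (GNul.qua (n := 5) n1 Q₁).add (GNul.qua (n := 5) n2 Q₂)
  have nH : GNul (fun z => f z - r * φ z) 3 :=
    ((n0.mono (by norm_num)).add ((nφ.mono (by norm_num)).const_mul (-r))).congr fun z => by ring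
  have f0 : ∀ z, ρ < ‖z‖ → f z = 0 := fun z h => (hz z h.le).1
  have φ0 : ∀ z, ρ < ‖z‖ → φ z = 0 := fun z h => by
    have := hz z h.le
    simp only [hφ, dv]
    rw [this.2.1, this.2.2]
    ring
  have hφX : ∀ z, |φ z| ≤ 3 * ρ ^ 2 * X * (‖Q₁‖ + ‖Q₂‖) := by
    intro z
    rcases le_or_gt ‖z‖ ρ with h | h
    · simp only [hφ, dv]
      calc |qua Q₁ z * dx f z + qua Q₂ z * dy f z|
          ≤ |qua Q₁ z| * |dx f z| + |qua Q₂ z| * |dy f z| := by
            rw [← abs_mul, ← abs_mul]; exact abs_add_le _ _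
        _ ≤ (3 * ‖Q₁‖ * ρ ^ 2) * X + (3 * ‖Q₂‖ * ρ ^ 2) * X := by
            have := GL_qua_norm (Q := Q₁) h
            have := GL_qua_norm (Q := Q₂) h
            have := (hX z).2.1
            have := (hX z).2.2
            gcongr
        _ = _ := by ring
    · rw [φ0 z h, abs_zero]
      positivity
  have hrφ : ∀ z, r * |φ z| ≤ 6 * ρ ^ 2 * X := by
    intro z
    calc r * |φ z| ≤ r * (3 * ρ ^ 2 * X * (‖Q₁‖ + ‖Q₂‖)) := by
          gcongr; exact hφX z
      _ = 3 * ρ ^ 2 * X * (r * ‖Q₁‖ + r * ‖Q₂‖) := by ring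
      _ ≤ 3 * ρ ^ 2 * X * (1 + 1) := by gcongr
      _ = _ := by ring
  have hH : ∀ z, |f z - r * φ z| ≤ X + 6 * ρ ^ 2 * X := by
    intro z
    calc |f z - r * φ z| ≤ |f z| + |r * φ z| := abs_sub _ _
      _ = |f z| + r * |φ z| := by rw [abs_mul, abs_of_pos hr]
      _ ≤ _ := add_le_add (hX z).1 (hrφ z)
  have hm1 := GL_m hs hC0.le hρR hr hr1
  rw [← hM] at hm1
  have k1 := GL_mass hs hC0.le nH hρ0 hρR hH (fun z h => by rw [f0 z h, φ0 z h]; ring)
    hr hr1 hβ hβC hg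
  -- the second part
  have hη : ∀ z, ‖z‖ ≤ ρ → |η z| ≤ E := fun z h => by
    have hz' : z ∈ Metric.ball (0 : ℂ) R := by
      rw [Metric.mem_ball, dist_zero_right]
      linarith
    refine (hs.η_le z hz').trans ?_
    rw [hE]
    gcongr
  have cη : ContinuousOn η (Metric.ball 0 R) := hs.η_c1.continuousOn
  have cm : ContinuousOn m (Metric.ball 0 R) := hs.m_cont
  have cf : ContinuousOn f (Metric.ball 0 R) := n0.cont.continuousOn
  have cφ : ContinuousOn φ (Metric.ball 0 R) := nφ.cont.continuousOn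
  have j1 : Integrable (fun z => η z * f z) :=
    GL_integrable hρR (cη.mul cf) fun z h => by rw [f0 z h, mul_zero]
  have j2 : Integrable (fun z => η z * f z * (m z - 1)) :=
    GL_integrable hρR ((cη.mul cf).mul (cm.sub continuousOn_const)) fun z h => by
      rw [f0 z h, mul_zero, zero_mul]
  have j3 : Integrable (fun z => r * (η z * φ z * m z)) :=
    (GL_integrable (w := fun z => η z * φ z * m z) hρR ((cη.mul cφ).mul cm) fun z h => by
      rw [φ0 z h, mul_zero, zero_mul]).const_mul r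
  have j4 : Integrable (fun z : ℂ => (g + r * β * z.im) * (f z - r * φ z) * m z) :=
    GL_integrable hρR (((continuousOn_const.add (continuousOn_const.mul
      Complex.continuous_im.continuousOn)).mul (cf.sub (continuousOn_const.mul cφ))).mul cm)
      fun z h => by rw [f0 z h, φ0 z h]; ring
  have e1 : ∫ z, omg α r β g η z * (f z - r * φ z) * m z =
      (∫ z : ℂ, (g + r * β * z.im) * (f z - r * φ z) * m z) +
        r ^ (1 + α) * ((∫ z, η z * f z) + (∫ z, η z * f z * (m z - 1)) -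
          ∫ z, r * (η z * φ z * m z)) := by
    rw [← GL_split3 j4 j1 j2 j3]
    refine integral_congr_ae (Eventually.of_forall fun z => ?_)
    simp only [omg]
    ring
  have hB : 0 ≤ B := by
    have h1 : 0 ≤ ∫ x, (1 + |x|) ^ 2 * |a 0 0 x| := integral_nonneg fun x => by positivity
    exact h1.trans hp.focus
  have b1 : |∫ z, η z * f z| ≤ C * (B * P) := by
    obtain ⟨v1, v2, v3, v4, v5⟩ := vk_facts hP0 0
    have h1 := line_le (η := η) (b := a 0 0) (h := vk 0 P) hα hα1 hC0.le (by linarith : 0 < N) hP0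
      (by rw [← hρ]; exact hR) hs.η_c1 hs.dη_le (GL_a hp 0 0).continuous (hp.supp 0 0) v1.continuous
      v3 v4 (by simpa using packet_van hp 0 0 (by norm_num) 0)
      (by simpa using packet_van hp 1 0 (by norm_num) 0)
    have h2 : (fun z : ℂ => η z * f z) = fun z : ℂ => η z * (a 0 0 z.re * vk 0 P z.im) := by
      funext z
      rw [v5, hf]
      rfl
    rw [h2]
    refine h1.trans ?_
    have h3 := hp.focus
    have h4 := GL_win_int hP
    gcongr
  have b2 : |∫ z, η z * f z * (m z - 1)| ≤ E * X * (r * M) * V := by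
    refine GL_int_le (fun z h => by rw [f0 z h, mul_zero, zero_mul]) fun z h => ?_
    rw [abs_mul, abs_mul]
    have := hη z h
    have := (hX z).1
    have := hm1 z h
    gcongr
  have b3 : |∫ z, r * (η z * φ z * m z)| ≤
      r * (E * (3 * ρ ^ 2 * X * (‖Q₁‖ + ‖Q₂‖)) * (1 + M)) * V := by
    refine GL_int_le (fun z h => by rw [φ0 z h]; ring) fun z h => ?_
    rw [abs_mul, abs_mul, abs_mul, abs_of_pos hr]
    have t1 := hη z h
    have t2 := hφX z
    have t3 : |m z| ≤ 1 + M := by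
      calc |m z| = |1 + (m z - 1)| := by ring_nf
        _ ≤ |1| + |m z - 1| := abs_add_le _ _
        _ ≤ 1 + r * M := by rw [abs_one]; linarith [hm1 z h]
        _ ≤ 1 + 1 * M := by gcongr
        _ = 1 + M := by ring
    gcongr
  have hrα : 0 ≤ r ^ (1 + α) := Real.rpow_nonneg hr.le _
  rw [e1]
  calc |(∫ z : ℂ, (g + r * β * z.im) * (f z - r * φ z) * m z) +
        r ^ (1 + α) * ((∫ z, η z * f z) + (∫ z, η z * f z * (m z - 1)) -
          ∫ z, r * (η z * φ z * m z))|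
      ≤ |∫ z : ℂ, (g + r * β * z.im) * (f z - r * φ z) * m z| +
        r ^ (1 + α) * (|∫ z, η z * f z| + |∫ z, η z * f z * (m z - 1)| +
          |∫ z, r * (η z * φ z * m z)|) := by
        refine (abs_add_le _ _).trans ?_
        rw [abs_mul, abs_of_nonneg hrα]
        gcongr
        exact (abs_sub _ _).trans (add_le_add_left (abs_add_le _ _) _)
    _ ≤ (C + C * ρ) * (X + 6 * ρ ^ 2 * X) * (C * (r ^ (1 + α) * r) * ρ ^ 3) * V +
        r ^ (1 + α) * (C * (B * P) + E * X * (r * M) * V +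
          r * (E * (3 * ρ ^ 2 * X * (‖Q₁‖ + ‖Q₂‖)) * (1 + M)) * V) := by
        have t3 := GL_rpow3 hα1 hr hr1
        have t4 : (C + C * ρ) * (X + 6 * ρ ^ 2 * X) * (C * r ^ 3 * ρ ^ 3) * V ≤
            (C + C * ρ) * (X + 6 * ρ ^ 2 * X) * (C * (r ^ (1 + α) * r) * ρ ^ 3) * V := by
          gcongr
        exact add_le_add (k1.trans t4) (mul_le_mul_of_nonneg_left
          (add_le_add (add_le_add b1 b2) b3) hrα)
    _ = r ^ (1 + α) * (C * (B * P) + (((C + C * ρ) * (X + 6 * ρ ^ 2 * X) * (C * ρ ^ 3) * V +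
        E * V * (X * M)) * r + E * V * (3 * ρ ^ 2 * X * (1 + M)) * (r * ‖Q₁‖ + r * ‖Q₂‖))) := by
        ring
    _ ≤ _ := by
        refine mul_le_mul_of_nonneg_left (add_le_add_right ?_ _) hrα
        have u1 : 0 ≤ r * ‖Q₁‖ + r * ‖Q₂‖ := by positivity
        have u2 : 0 ≤ (C + C * ρ) * (X + 6 * ρ ^ 2 * X) * (C * ρ ^ 3) * V + E * V * (X * M) := by
          positivity
        have u3 : 0 ≤ E * V * (3 * ρ ^ 2 * X * (1 + M)) := by positivity
        nlinarith [mul_nonneg u2 u1, mul_nonneg u3 hr.le]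

/-- the value at the start -/
theorem gstart {α C : ℝ} (hα : 0 < α) (hα1 : α < 1) (hC : 1 ≤ C) {B κ S Λs τ N : ℝ}
    {a : ℕ → ℝ → ℝ → ℝ} {e : ℝ → ℝ → ℝ} {P : ℝ} (hp : Packet B κ S Λs τ N a e) (hP : 1 ≤ P)
    (hN : 1 ≤ N) : ∃ A : ℝ, 0 ≤ A ∧ ∀ (R r β g : ℝ) (qa qb : Fin 3 → ℝ) (γ μ ν p : ℝ)
      (s η m W₁ W₂ : ℂ → ℝ), 0 < r → r ≤ 1 → 0 < β → β ≤ C → |g| ≤ C →
        GSlc α C R r qa qb γ μ ν p s η m W₁ W₂ → 2 * (N + 2 * P) ≤ R →
          |(∫ z, omg α r β g η z * tst (a 0 Λs) P z * m z) -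
            ∫ z, omg α r β g η z * tst (a 0 Λs) P z| ≤ r ^ (1 + α) * (A * r) := by
  have hC0 : 0 < C := by linarith
  have hP0 : 0 < P := by linarith
  obtain ⟨n0, -, -, hz, X, hX0, hX⟩ := GL_tst (P := P) (GL_a hp 0 Λs) (hp.supp 0 Λs)
    (fun i hi => packet_van hp i 0 (by omega) Λs) hN hP
  set f : ℂ → ℝ := tst (a 0 Λs) P with hf
  obtain ⟨ρ, hρ⟩ : ∃ ρ : ℝ, ρ = N + 2 * P := ⟨_, rfl⟩
  have hρ1 : 1 ≤ ρ := by rw [hρ]; linarith
  have hρ0 : 0 ≤ ρ := by linarith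
  rw [← hρ] at hz
  set V : ℝ := (volume (Metric.closedBall (0 : ℂ) ρ)).toReal with hV
  have hV0 : 0 ≤ V := ENNReal.toReal_nonneg
  set M : ℝ := 2 * C * ρ + 3 * C * ρ ^ 2 + C * ρ ^ 3 with hM
  have hM0 : 0 ≤ M := by positivity
  set E : ℝ := C * ρ ^ (1 + α) with hE
  have hE0 : 0 ≤ E := by positivity
  refine ⟨(C + C * ρ) * X * (C * ρ ^ 3) * V + E * V * (X * M), by positivity, ?_⟩
  intro R r β g qa qb γ μ ν p s η m W₁ W₂ hr hr1 hβ hβC hg hs hR
  rw [← hρ] at hR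
  have hρR : ρ < R := by linarith
  have f0 : ∀ z, ρ < ‖z‖ → f z = 0 := fun z h => (hz z h.le).1
  have hm1 := GL_m hs hC0.le hρR hr hr1
  rw [← hM] at hm1
  have k1 := GL_mass hs hC0.le (n0.mono (by norm_num : (3 : ℕ) ≤ 7)) hρ0 hρR
    (fun z => (hX z).1) f0 hr hr1 hβ hβC hg
  have hη : ∀ z, ‖z‖ ≤ ρ → |η z| ≤ E := fun z h => by
    have hz' : z ∈ Metric.ball (0 : ℂ) R := by
      rw [Metric.mem_ball, dist_zero_right]
      linarith
    refine (hs.η_le z hz').trans ?_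
    rw [hE]
    gcongr
  have cη : ContinuousOn η (Metric.ball 0 R) := hs.η_c1.continuousOn
  have cm : ContinuousOn m (Metric.ball 0 R) := hs.m_cont
  have cf : ContinuousOn f (Metric.ball 0 R) := n0.cont.continuousOn
  have cg : ContinuousOn (fun z : ℂ => g + r * β * z.im) (Metric.ball 0 R) :=
    continuousOn_const.add (continuousOn_const.mul Complex.continuous_im.continuousOn)
  have j1 : Integrable (fun z => η z * f z) :=
    GL_integrable hρR (cη.mul cf) fun z h => by rw [f0 z h, mul_zero]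
  have j2 : Integrable (fun z => η z * f z * (m z - 1)) :=
    GL_integrable hρR ((cη.mul cf).mul (cm.sub continuousOn_const)) fun z h => by
      rw [f0 z h, mul_zero, zero_mul]
  have j4 : Integrable (fun z : ℂ => (g + r * β * z.im) * f z * m z) :=
    GL_integrable hρR ((cg.mul cf).mul cm) fun z h => by rw [f0 z h]; ring
  have j5 : Integrable (fun z : ℂ => (g + r * β * z.im) * f z) :=
    GL_integrable hρR (cg.mul cf) fun z h => by rw [f0 z h]; ring
  have z5 : ∫ z : ℂ, (g + r * β * z.im) * f z = 0 := by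
    have n2 : GNul (fun z : ℂ => (g + r * β * z.im) * f z) 6 :=
      (((n0.mono (by norm_num : (6 : ℕ) ≤ 7)).const_mul g).add
        ((GNul.im_mul (n := 6) n0).const_mul (r * β))).congr fun z => by ring
    exact n2.integral
  have e1 : ∫ z, omg α r β g η z * f z * m z = (∫ z : ℂ, (g + r * β * z.im) * f z * m z) +
      r ^ (1 + α) * ((∫ z, η z * f z) + ∫ z, η z * f z * (m z - 1)) := by
    have h := GL_split3 j4 j1 j2 (u₃ := fun _ => (0 : ℝ)) (integrable_zero ℂ ℝ volume)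
      (r ^ (1 + α))
    rw [integral_zero, sub_zero] at h
    rw [← h]
    refine integral_congr_ae (Eventually.of_forall fun z => ?_)
    simp only [omg]
    ring
  have e2 : ∫ z, omg α r β g η z * f z = (∫ z : ℂ, (g + r * β * z.im) * f z) +
      r ^ (1 + α) * ∫ z, η z * f z := by
    rw [← integral_const_mul, ← integral_add (f := fun z : ℂ => (g + r * β * z.im) * f z)
      (g := fun z => r ^ (1 + α) * (η z * f z)) j5 (j1.const_mul _)]
    refine integral_congr_ae (Eventually.of_forall fun z => ?_)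
    simp only [omg]
    ring
  have b2 : |∫ z, η z * f z * (m z - 1)| ≤ E * X * (r * M) * V := by
    refine GL_int_le (fun z h => by rw [f0 z h, mul_zero, zero_mul]) fun z h => ?_
    rw [abs_mul, abs_mul]
    have := hη z h
    have := (hX z).1
    have := hm1 z h
    gcongr
  have hrα : 0 ≤ r ^ (1 + α) := Real.rpow_nonneg hr.le _
  rw [e1, e2, z5]
  have e3 : (∫ z : ℂ, (g + r * β * z.im) * f z * m z) +
      r ^ (1 + α) * ((∫ z, η z * f z) + ∫ z, η z * f z * (m z - 1)) -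
      (0 + r ^ (1 + α) * ∫ z, η z * f z) = (∫ z : ℂ, (g + r * β * z.im) * f z * m z) +
      r ^ (1 + α) * ∫ z, η z * f z * (m z - 1) := by ring
  rw [e3]
  calc |(∫ z : ℂ, (g + r * β * z.im) * f z * m z) + r ^ (1 + α) * ∫ z, η z * f z * (m z - 1)|
      ≤ |∫ z : ℂ, (g + r * β * z.im) * f z * m z| +
        r ^ (1 + α) * |∫ z, η z * f z * (m z - 1)| := by
        refine (abs_add_le _ _).trans ?_
        rw [abs_mul, abs_of_nonneg hrα]
    _ ≤ (C + C * ρ) * X * (C * (r ^ (1 + α) * r) * ρ ^ 3) * V +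
        r ^ (1 + α) * (E * X * (r * M) * V) := by
        have t3 := GL_rpow3 hα1 hr hr1
        have t4 : (C + C * ρ) * X * (C * r ^ 3 * ρ ^ 3) * V ≤
            (C + C * ρ) * X * (C * (r ^ (1 + α) * r) * ρ ^ 3) * V := by
          gcongr
        exact add_le_add (k1.trans t4) (mul_le_mul_of_nonneg_left b2 hrα)
    _ = _ := by ring

end Pool.Agent.YUL
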