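import Pool.Agent.YUL.GS5
import Pool.Agent.YUL.GM

/-!
# [YUL-GS] the slice lemma on surfaces
-/

open MeasureTheory Set Filter Topology
open scoped ContDiff

namespace Pool.Agent.YUL

open Pool.Agent.YUD Pool.Agent.YUT Pool.Agent.YUB Pool.Agent.YUR

/-- [GS] the slice lemma on surfaces -/
theorem gslice {α C S : ℝ} (hα : 0 < α) (hα1 : α < 1) (hC : 1 ≤ C) (hS : 0 ≤ S) :
    ∃ C₁ : ℝ, 0 ≤ C₁ ∧ ∀ (B κ Λs τ N : ℝ) (a : ℕ → ℝ → ℝ → ℝ) (e : ℝ → ℝ → ℝ) (P : ℝ),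
      Packet B κ S Λs τ N a e → 1 ≤ P → 1 ≤ N → 0 ≤ τ → ∃ A : ℝ, 0 ≤ A ∧
        ∀ (R r β g : ℝ) (qa qb : Fin 3 → ℝ) (γ μ ν p : ℝ) (s η m W₁ W₂ : ℂ → ℝ),
          0 < r → r ≤ 1 → 0 < β → β ≤ C → |g| ≤ C →
          GSlc α C R r qa qb γ μ ν p s η m W₁ W₂ → 2 * (N + 2 * P) ≤ R →
          ∀ (Q₁ Q₂ : Fin 3 → ℝ) (Λ : ℝ), r * ‖Q₁‖ ≤ 1 → r * ‖Q₂‖ ≤ 1 → 0 ≤ Λ → Λ ≤ Λs →
          ∀ f ft H : ℂ → ℝ, f = tst (a 0 Λ) P →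
            (ft = fun z => -(r * β * p / γ) * tst (fun x => a 1 Λ x + e Λ x) P z) →
            (H = fun z => f z - r * dv (qua Q₁) (qua Q₂) f z) →
            |∫ z, omg α r β g η z * ((ft z - r * dv (qua qa) (qua qb) f z -
                r * dv (qua Q₁) (qua Q₂) ft z) * m z + dv W₁ W₂ H z + r ^ (1 + α) * pb s H z)| ≤
              r ^ (2 + α) * (C₁ * P ^ α + C₁ * τ * P +
                A * (r ^ α + r ^ (1 - α) + r * ‖Q₁‖ + r * ‖Q₂‖)) := by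
  obtain ⟨c, hc, hmain⟩ := gs_main hα hα1 hC hS
  have hC0 : 0 ≤ C := by linarith
  refine ⟨C * c, mul_nonneg hC0 hc, ?_⟩
  intro B κ Λs τ N a e P hp hP hN hτ
  obtain ⟨A₁, hA₁, hm⟩ := hmain B κ Λs τ N a e P hp hP hN hτ
  obtain ⟨X, hX, hfam⟩ := GS_fam hp hP
  have hρ : 1 ≤ N + 2 * P := by linarith
  obtain ⟨A₂, hA₂, hcore⟩ := GS_core (ρ := N + 2 * P) hα hα1 hC hρ hX
  refine ⟨A₂ + C * A₁, by positivity, ?_⟩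
  intro R r β g qa qb γ μ ν p s η m W₁ W₂ hr hr1 hβ hβC hg h hR Q₁ Q₂ Λ hQ₁ hQ₂ h0 h1 f ft H hf
    hft hH
  obtain ⟨t1, t2⟩ := hfam Λ h0 h1
  rw [← hf] at t1
  have e1 := hcore R r β g qa qb γ μ ν p s η m W₁ W₂ hr hr1 hβ hβC hg h (by linarith) Q₁ Q₂ hQ₁ hQ₂
    f _ ft H t1 t2 hft hH
  have e2 := hm R r qa qb γ μ ν p s η m W₁ W₂ hr hr1 h hR Λ h0 h1
  rw [← hf] at e2
  obtain ⟨D, hD⟩ : ∃ D : ℝ, D = ∫ z, omg α r β g η z * ((ft z - r * dv (qua qa) (qua qb) f z -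
      r * dv (qua Q₁) (qua Q₂) ft z) * m z + dv W₁ W₂ H z + r ^ (1 + α) * pb s H z) := ⟨_, rfl⟩
  obtain ⟨J, hJ⟩ : ∃ J : ℝ, J = (∫ z, s z * dx f z) -
    p / γ * ∫ z, η z * tst (fun x => a 1 Λ x + e Λ x) P z := ⟨_, rfl⟩
  rw [← hD, ← hJ] at e1
  rw [← hJ] at e2
  rw [← hD]
  have hr₂ : 0 < r ^ (2 + α) := Real.rpow_pos_of_pos hr _
  have hx : 0 < r ^ α := Real.rpow_pos_of_pos hr _
  have hy : 0 < r ^ (1 - α) := Real.rpow_pos_of_pos hr _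
  obtain ⟨r₂, hr₂'⟩ : ∃ r₂ : ℝ, r₂ = r ^ (2 + α) := ⟨_, rfl⟩
  obtain ⟨x, hx'⟩ : ∃ x : ℝ, x = r ^ α := ⟨_, rfl⟩
  obtain ⟨y, hy'⟩ : ∃ y : ℝ, y = r ^ (1 - α) := ⟨_, rfl⟩
  obtain ⟨Z, hZ⟩ : ∃ Z : ℝ, Z = P ^ α := ⟨_, rfl⟩
  have hZ0 : 0 < Z := hZ ▸ Real.rpow_pos_of_pos (by linarith) _
  rw [← hr₂', ← hx', ← hy'] at e1
  rw [← hy', ← hZ] at e2
  rw [← hr₂'] at hr₂
  rw [← hx'] at hx
  rw [← hy'] at hy
  rw [← hr₂', ← hx', ← hy', ← hZ]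
  have e3 : |r₂ * (β * J)| ≤ r₂ * (C * (c * Z + c * τ * P + A₁ * y)) := by
    rw [abs_mul, abs_mul, abs_of_pos hr₂, abs_of_pos hβ]
    exact mul_le_mul_of_nonneg_left (mul_le_mul hβC e2 (abs_nonneg _) hC0) hr₂.le
  have e4 : |D| ≤ |D - r₂ * (β * J)| + |r₂ * (β * J)| := by
    have := abs_add_le (D - r₂ * (β * J)) (r₂ * (β * J))
    rwa [sub_add_cancel] at this
  have q1 : 0 ≤ r * ‖Q₁‖ := by positivity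
  have q2 : 0 ≤ r * ‖Q₂‖ := by positivity
  calc |D| ≤ r₂ * (A₂ * (x + y + r * ‖Q₁‖ + r * ‖Q₂‖)) + r₂ * (C * (c * Z + c * τ * P + A₁ * y)) :=
        e4.trans (add_le_add e1 e3)
    _ = r₂ * (C * c * Z + C * c * τ * P + (A₂ * (x + y + r * ‖Q₁‖ + r * ‖Q₂‖) + C * A₁ * y)) := by
        ring
    _ ≤ _ := by
        refine mul_le_mul_of_nonneg_left ?_ hr₂.le
        have k0 : 0 ≤ C * A₁ := mul_nonneg hC0 hA₁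
        have k1 : 0 ≤ (C * A₁) * x := mul_nonneg k0 hx.le
        have k2 : 0 ≤ (C * A₁) * (r * ‖Q₁‖) := mul_nonneg k0 q1
        have k3 : 0 ≤ (C * A₁) * (r * ‖Q₂‖) := mul_nonneg k0 q2
        linarith

end Pool.Agent.YUL
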