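import Pool.Agent.YUL.L3
import Pool.Agent.YUL.S
import Pool.Agent.YUL.Q

/-!
# [YUL-GL] transport of one packet
-/

open MeasureTheory Set Filter Topology
open scoped ContDiff

namespace Pool.Agent.YUL

open Pool.Agent.YUD Pool.Agent.YUT Pool.Agent.YUB Pool.Agent.YUR

theorem GL_dv_zero {Q₁ Q₂ : Fin 3 → ℝ} (h₁ : ∀ i, Q₁ i = 0) (h₂ : ∀ i, Q₂ i = 0) (f : ℂ → ℝ)
    (z : ℂ) : dv (qua Q₁) (qua Q₂) f z = 0 := by
  simp only [dv, qua, h₁, h₂]
  ring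

theorem one_gpacket {α C S : ℝ} (hα : 0 < α) (hα1 : α < 1) (hC : 1 ≤ C) (hS : 0 ≤ S) :
    ∃ C₁ : ℝ, 0 ≤ C₁ ∧ ∀ (B κ Λs τ N : ℝ) (pa : ℕ → ℝ → ℝ → ℝ) (e : ℝ → ℝ → ℝ) (P : ℝ),
      Packet B κ S Λs τ N pa e → 1 ≤ P → 1 ≤ N → 0 ≤ τ → 1 ≤ Λs → 0 < B →
      ∀ β : ℝ, 0 < β → ∀ ε : ℝ, 0 < ε → ∃ R₀ r₁ : ℝ, 0 < r₁ ∧ ∀ (R r g : ℝ) (w : ℂ → ℝ)
        (a b : ℝ → Fin 3 → ℝ) (γ μ ν p : ℝ → ℝ) (s η m W₁ W₂ : ℝ → ℂ → ℝ) (Y : ℝ → ℂ → ℂ),
        GPic α C R r β g w a b γ μ ν p s η m W₁ W₂ Y → R₀ ≤ R → r ≤ r₁ →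
          |∫ y, w y * tst (pa 0 Λs) P y| ≤ r ^ (1 + α) * (C * (B * P) +
            C ^ 2 * Λs / β * (C₁ * P ^ α + C₁ * τ * P) + ε) := by
  obtain ⟨C₁, hC₁, hsl⟩ := gslice (S := S) hα hα1 hC hS
  refine ⟨C₁, hC₁, ?_⟩
  intro B κ Λs τ N pa e P hp hP hN hτ hΛ hB β hβ ε hε
  obtain ⟨A, hA, hsl⟩ := hsl B κ Λs τ N pa e P hp hP hN hτ
  obtain ⟨A', hA', hend⟩ := gend hα hα1 hC hp hP hN
  obtain ⟨A'', hA'', hstart⟩ := gstart hα hα1 hC hp hP hN
  have hC0 : 0 < C := by linarith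
  have hΛ0 : 0 < Λs := by linarith
  have h1α : 0 < 1 - α := by linarith
  set T' : ℝ := C ^ 2 * Λs / β with hT'
  have hT'0 : 0 < T' := by positivity
  set D : ℝ := 3 * A' + A'' + T' * (4 * A) + 1 with hD
  have hD0 : 0 < D := by positivity
  set ε₁ : ℝ := min 1 (ε / D) with hε₁
  have hε₁0 : 0 < ε₁ := lt_min one_pos (by positivity)
  have hε₁1 : ε₁ ≤ 1 := min_le_left _ _
  have hε₁D : (3 * A' + A'' + T' * (4 * A)) * ε₁ ≤ ε := by
    calc (3 * A' + A'' + T' * (4 * A)) * ε₁ ≤ D * (ε / D) := by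
          refine mul_le_mul ?_ (min_le_right _ _) hε₁0.le hD0.le
          rw [hD]
          linarith
      _ = ε := by field_simp
  obtain ⟨R₀', r₁', hr₁', hprim⟩ := gprim_small (C := C) hα hα1 hβ hT'0 hε₁0
  set r₂ : ℝ := ε₁ ^ (1 / α) with hr₂
  have hr₂0 : 0 < r₂ := Real.rpow_pos_of_pos hε₁0 _
  set r₃ : ℝ := ε₁ ^ (1 / (1 - α)) with hr₃
  have hr₃0 : 0 < r₃ := Real.rpow_pos_of_pos hε₁0 _
  refine ⟨max R₀' (max (2 * (N + 2 * P)) (C * (N + 2 * P))),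
    min r₁' (min r₂ (min r₃ ε₁)), lt_min hr₁' (lt_min hr₂0 (lt_min hr₃0 hε₁0)), ?_⟩
  intro R r g w a b γ μ ν p s η m W₁ W₂ Y pic hR hr
  have hR1 : R₀' ≤ R := (le_max_left _ _).trans hR
  have hR2 : 2 * (N + 2 * P) ≤ R := ((le_max_left _ _).trans (le_max_right _ _)).trans hR
  have hR3 : C * (N + 2 * P) ≤ R := ((le_max_right _ _).trans (le_max_right _ _)).trans hR
  have hRC : N + 2 * P ≤ R / C := by
    rw [le_div_iff₀ hC0]
    linarith
  have hrr1 : r ≤ r₁' := hr.trans (min_le_left _ _)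
  have hrr2 : r ≤ r₂ := (hr.trans (min_le_right _ _)).trans (min_le_left _ _)
  have hrr3 : r ≤ r₃ :=
    ((hr.trans (min_le_right _ _)).trans (min_le_right _ _)).trans (min_le_left _ _)
  have hrr4 : r ≤ ε₁ :=
    ((hr.trans (min_le_right _ _)).trans (min_le_right _ _)).trans (min_le_right _ _)
  have hr0 := pic.r_pos
  have hrα : r ^ α ≤ ε₁ := by
    calc r ^ α ≤ r₂ ^ α := Real.rpow_le_rpow hr0.le hrr2 hα.le
      _ = ε₁ := by
        rw [hr₂, ← Real.rpow_mul hε₁0.le, one_div, inv_mul_cancel₀ hα.ne', Real.rpow_one]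
  have hrα' : r ^ (1 - α) ≤ ε₁ := by
    calc r ^ (1 - α) ≤ r₃ ^ (1 - α) := Real.rpow_le_rpow hr0.le hrr3 h1α.le
      _ = ε₁ := by
        rw [hr₃, ← Real.rpow_mul hε₁0.le, one_div, inv_mul_cancel₀ h1α.ne', Real.rpow_one]
  have hγpos : ∀ t, 0 < γ t := by
    intro t
    by_contra hcon
    have h1 : C * γ t ≤ 0 := mul_nonpos_of_nonneg_of_nonpos hC0.le (not_lt.1 hcon)
    linarith [(pic.slc t).γ_lo]
  have hppos : ∀ t, 0 < p t := by
    intro t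
    by_contra hcon
    have h1 : C * p t ≤ 0 := mul_nonpos_of_nonneg_of_nonpos hC0.le (not_lt.1 hcon)
    linarith [(pic.slc t).p_lo]
  set φ : ℝ → ℝ := fun t => r * β * p t / γ t with hφ
  have hφc : Continuous φ :=
    (continuous_const.mul pic.p_cont).div pic.γ_cont fun t => (hγpos t).ne'
  have hφlo : ∀ t, r * β / C ^ 2 ≤ φ t := by
    intro t
    have h1 := (pic.slc t).p_lo
    have h2 := (pic.slc t).γ_le
    have h3 := hγpos t
    have h4 := hppos t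
    simp only [hφ]
    rw [div_le_div_iff₀ (by positivity) h3]
    have h5 : γ t ≤ C ^ 2 * p t := by
      calc γ t ≤ C := h2
        _ = C * 1 := (mul_one C).symm
        _ ≤ C * (C * p t) := mul_le_mul_of_nonneg_left h1 hC0.le
        _ = C ^ 2 * p t := by ring
    calc r * β * γ t ≤ r * β * (C ^ 2 * p t) :=
          mul_le_mul_of_nonneg_left h5 (mul_pos hr0 hβ).le
      _ = r * β * p t * C ^ 2 := by ring
  have hc₀ : 0 < r * β / C ^ 2 := by positivity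
  obtain ⟨T, hT0, hcT, hΛT, hΛt, hΛd⟩ := GL_time hφc hc₀ hφlo hΛ0
  have hrT : r * T ≤ T' := by
    rw [hT', le_div_iff₀ hβ]
    have : r * β / C ^ 2 * T = r * T * β / C ^ 2 := by ring
    rw [this, div_le_iff₀ (by positivity)] at hcT
    linarith
  set Λ : ℝ → ℝ := fun t => ∫ τ in (0 : ℝ)..t, φ τ with hΛdef
  set θ : ℝ → ℝ := fun t => Λs - Λ t with hθdef
  set ρ : ℝ → ℝ := fun t => -(φ t) with hρdef
  have hθ : ∀ t, HasDerivAt θ (ρ t) t := fun t => (hΛd t).const_sub Λs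
  have hρ : Continuous ρ := hφc.neg
  obtain ⟨hH1, hH2, hH3⟩ := gH_facts hp hP hN (r := r) hθ hρ pic.a_cont pic.b_cont
  set Q₁ : ℝ → Fin 3 → ℝ := fun t i => ∫ τ in (0 : ℝ)..t, a τ i with hQ₁def
  set Q₂ : ℝ → Fin 3 → ℝ := fun t i => ∫ τ in (0 : ℝ)..t, b τ i with hQ₂def
  set H : ℝ → ℂ → ℝ := fun t z => tst (pa 0 (θ t)) P z -
    r * dv (qua (Q₁ t)) (qua (Q₂ t)) (tst (pa 0 (θ t)) P) z with hHdef
  have htr := pic.transport H hH1 (fun t z hz => hH2 t z (hRC.trans hz)) T hT0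
  have hQs : ∀ t, 0 ≤ t → t ≤ T → r * ‖Q₁ t‖ ≤ ε₁ ∧ r * ‖Q₂ t‖ ≤ ε₁ := by
    intro t ht0 htT
    have h1 : r * t ≤ T' := (mul_le_mul_of_nonneg_left htT hr0.le).trans hrT
    have h2 := hprim R r β g w a b γ μ ν p s η m W₁ W₂ Y pic le_rfl hR1 hrr1 t ht0 h1
    have h3 : ‖r • Q₁ t‖ ≤ ε₁ := by
      rw [pi_norm_le_iff_of_nonneg hε₁0.le]
      intro i
      rw [Pi.smul_apply, smul_eq_mul, Real.norm_eq_abs]
      exact (h2 i).1
    have h4 : ‖r • Q₂ t‖ ≤ ε₁ := by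
      rw [pi_norm_le_iff_of_nonneg hε₁0.le]
      intro i
      rw [Pi.smul_apply, smul_eq_mul, Real.norm_eq_abs]
      exact (h2 i).2
    rw [norm_smul, Real.norm_eq_abs, abs_of_pos hr0] at h3 h4
    exact ⟨h3, h4⟩
  have hrp : 0 ≤ r ^ (1 + α) := Real.rpow_nonneg hr0.le _
  -- time zero
  have hΛ00 : Λ 0 = 0 := intervalIntegral.integral_same
  have hH0 : ∀ y, H 0 y = tst (pa 0 Λs) P y := by
    intro y
    have h1 : θ 0 = Λs := by
      show Λs - Λ 0 = Λs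
      rw [hΛ00, sub_zero]
    have h2 : ∀ i, Q₁ 0 i = 0 := fun i => intervalIntegral.integral_same
    have h3 : ∀ i, Q₂ 0 i = 0 := fun i => intervalIntegral.integral_same
    show tst (pa 0 (θ 0)) P y - r * dv (qua (Q₁ 0)) (qua (Q₂ 0)) (tst (pa 0 (θ 0)) P) y = _
    rw [GL_dv_zero h2 h3, mul_zero, sub_zero, h1]
  have hw0 : ∫ y, w y * tst (pa 0 Λs) P y = ∫ y, omg α r β g (η 0) y * tst (pa 0 Λs) P y := by
    refine integral_congr_ae (Eventually.of_forall fun y => ?_)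
    show w y * tst (pa 0 Λs) P y = omg α r β g (η 0) y * tst (pa 0 Λs) P y
    by_cases hy : ‖y‖ < R / C
    · rw [pic.w_eq y hy]
    · rw [not_lt] at hy
      have h1 := hH2 0 y (hRC.trans hy)
      have h2 := hH0 y
      have h3 : tst (pa 0 Λs) P y = 0 := by
        rw [← h2]
        exact h1
      rw [h3, mul_zero, mul_zero]
  have hst : |(∫ z, omg α r β g (η 0) z * tst (pa 0 Λs) P z * m 0 z) -
      ∫ z, omg α r β g (η 0) z * tst (pa 0 Λs) P z| ≤ r ^ (1 + α) * (A'' * ε₁) := by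
    have h1 := hstart R r β g (a 0) (b 0) (γ 0) (μ 0) (ν 0) (p 0) (s 0) (η 0) (m 0) (W₁ 0) (W₂ 0)
      hr0 pic.r_le hβ pic.β_le pic.g_le (pic.slc 0) hR2
    exact h1.trans (mul_le_mul_of_nonneg_left (mul_le_mul_of_nonneg_left hrr4 hA'') hrp)
  -- time T
  have hθT : θ T = 0 := by
    show Λs - Λ T = 0
    rw [hΛdef]
    simp only
    rw [hΛT, sub_self]
  have hHT : |∫ z, omg α r β g (η T) z * H T z * m T z| ≤
      r ^ (1 + α) * (C * (B * P) + A' * (3 * ε₁)) := by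
    obtain ⟨q1, q2⟩ := hQs T hT0 le_rfl
    have h1 := hend R r β g (a T) (b T) (γ T) (μ T) (ν T) (p T) (s T) (η T) (m T) (W₁ T) (W₂ T)
      hr0 pic.r_le hβ pic.β_le pic.g_le (pic.slc T) hR2 (Q₁ T) (Q₂ T) (q1.trans hε₁1)
      (q2.trans hε₁1)
    have h2 : ∀ z, H T z = tst (pa 0 0) P z -
        r * dv (qua (Q₁ T)) (qua (Q₂ T)) (tst (pa 0 0) P) z := by
      intro z
      show tst (pa 0 (θ T)) P z - r * dv (qua (Q₁ T)) (qua (Q₂ T)) (tst (pa 0 (θ T)) P) z = _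
      rw [hθT]
    simp only [h2]
    refine h1.trans (mul_le_mul_of_nonneg_left ?_ hrp)
    exact add_le_add_right (mul_le_mul_of_nonneg_left (by linarith) hA') _
  -- the integrand
  have hDt : ∀ t, 0 ≤ t → t ≤ T → |∫ z, omg α r β g (η t) z *
      (deriv (fun t' => H t' z) t * m t z + dv (W₁ t) (W₂ t) (H t) z +
        r ^ (1 + α) * pb (s t) (H t) z)| ≤
      r ^ (2 + α) * (C₁ * P ^ α + C₁ * τ * P + A * (4 * ε₁)) := by
    intro t ht0 htT
    have h1 := hΛt t ht0 htT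
    obtain ⟨q1, q2⟩ := hQs t ht0 htT
    have h2 := hsl R r β g (a t) (b t) (γ t) (μ t) (ν t) (p t) (s t) (η t) (m t) (W₁ t) (W₂ t)
      hr0 pic.r_le hβ pic.β_le pic.g_le (pic.slc t) hR2 (Q₁ t) (Q₂ t) (θ t) (q1.trans hε₁1)
      (q2.trans hε₁1) (by
        show 0 ≤ Λs - Λ t
        linarith [h1.2]) (by
        show Λs - Λ t ≤ Λs
        linarith [h1.1]) (tst (pa 0 (θ t)) P)
      (fun z => -(r * β * p t / γ t) * tst (fun x => pa 1 (θ t) x + e (θ t) x) P z) (H t) rfl rfl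
      rfl
    have h3 : ∀ z, deriv (fun t' => H t' z) t =
        (fun z => -(r * β * p t / γ t) * tst (fun x => pa 1 (θ t) x + e (θ t) x) P z) z -
          r * dv (qua (a t)) (qua (b t)) (tst (pa 0 (θ t)) P) z -
          r * dv (qua (Q₁ t)) (qua (Q₂ t))
            (fun z => -(r * β * p t / γ t) * tst (fun x => pa 1 (θ t) x + e (θ t) x) P z) z :=
      fun z => hH3 t _ rfl z
    simp only [h3]
    refine h2.trans (mul_le_mul_of_nonneg_left ?_ (Real.rpow_nonneg hr0.le _))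
    have h4 : r ^ α + r ^ (1 - α) + r * ‖Q₁ t‖ + r * ‖Q₂ t‖ ≤ 4 * ε₁ := by linarith
    have h5 := mul_le_mul_of_nonneg_left h4 hA
    linarith
  have hint : |∫ t in (0 : ℝ)..T, ∫ z, omg α r β g (η t) z *
      (deriv (fun t' => H t' z) t * m t z + dv (W₁ t) (W₂ t) (H t) z +
        r ^ (1 + α) * pb (s t) (H t) z)| ≤
      r ^ (1 + α) * (T' * (C₁ * P ^ α + C₁ * τ * P + A * (4 * ε₁))) := by
    have h1 := intervalIntegral.norm_integral_le_of_norm_le_const (a := (0 : ℝ)) (b := T)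
      (C := r ^ (2 + α) * (C₁ * P ^ α + C₁ * τ * P + A * (4 * ε₁)))
      (f := fun t => ∫ z, omg α r β g (η t) z *
        (deriv (fun t' => H t' z) t * m t z + dv (W₁ t) (W₂ t) (H t) z +
          r ^ (1 + α) * pb (s t) (H t) z)) (by
        intro t ht
        rw [uIoc_of_le hT0] at ht
        rw [Real.norm_eq_abs]
        exact hDt t ht.1.le ht.2)
    rw [Real.norm_eq_abs, sub_zero, abs_of_nonneg hT0] at h1
    refine h1.trans ?_
    have h2 : r ^ (2 + α) = r ^ (1 + α) * r := by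
      rw [show 2 + α = (1 + α) + 1 by ring, Real.rpow_add_one hr0.ne']
    have hP0 : 0 < P := by linarith
    have h3 : 0 ≤ C₁ * P ^ α + C₁ * τ * P + A * (4 * ε₁) := by positivity
    calc r ^ (2 + α) * (C₁ * P ^ α + C₁ * τ * P + A * (4 * ε₁)) * T
        = r ^ (1 + α) * ((r * T) * (C₁ * P ^ α + C₁ * τ * P + A * (4 * ε₁))) := by
          rw [h2]
          ring
      _ ≤ r ^ (1 + α) * (T' * (C₁ * P ^ α + C₁ * τ * P + A * (4 * ε₁))) :=
          mul_le_mul_of_nonneg_left (mul_le_mul_of_nonneg_right hrT h3) hrp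
  have h0m : (∫ z, omg α r β g (η 0) z * H 0 z * m 0 z) =
      ∫ z, omg α r β g (η 0) z * tst (pa 0 Λs) P z * m 0 z := by
    simp only [hH0]
  rw [h0m] at htr
  rw [hw0]
  set I₀ := ∫ z, omg α r β g (η 0) z * tst (pa 0 Λs) P z with hI₀
  set I₀m := ∫ z, omg α r β g (η 0) z * tst (pa 0 Λs) P z * m 0 z with hI₀m
  set IT := ∫ z, omg α r β g (η T) z * H T z * m T z with hIT
  set J := ∫ t in (0 : ℝ)..T, ∫ z, omg α r β g (η t) z *
      (deriv (fun t' => H t' z) t * m t z + dv (W₁ t) (W₂ t) (H t) z +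
        r ^ (1 + α) * pb (s t) (H t) z) with hJ
  have e1 : I₀ = IT - J - (I₀m - I₀) := by linarith
  rw [e1]
  calc |IT - J - (I₀m - I₀)| ≤ |IT| + |J| + |I₀m - I₀| := by
        refine (abs_sub _ _).trans ?_
        have := abs_sub IT J
        linarith
    _ ≤ r ^ (1 + α) * (C * (B * P) + A' * (3 * ε₁)) +
        r ^ (1 + α) * (T' * (C₁ * P ^ α + C₁ * τ * P + A * (4 * ε₁))) +
        r ^ (1 + α) * (A'' * ε₁) := add_le_add (add_le_add hHT hint) hst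
    _ = r ^ (1 + α) * (C * (B * P) + T' * (C₁ * P ^ α + C₁ * τ * P) +
        (3 * A' + A'' + T' * (4 * A)) * ε₁) := by ring
    _ ≤ r ^ (1 + α) * (C * (B * P) + T' * (C₁ * P ^ α + C₁ * τ * P) + ε) :=
        mul_le_mul_of_nonneg_left (by linarith) hrp

end Pool.Agent.YUL
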