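import Pool.Agent.YUL.L4
import Pool.Agent.YUR.W0

/-!
# [YUL-GL] the contradiction
-/

open MeasureTheory Set Filter Topology
open scoped ContDiff

namespace Pool.Agent.YUL

open Pool.Agent.YUD Pool.Agent.YUT Pool.Agent.YUB Pool.Agent.YUR

/-- [GL] the contradiction -/
theorem no_gpic {α C ρ β g δ : ℝ} (hα : 0 < α) (hα1 : α < 1) (hρ : 0 < ρ) (hδ : 0 < δ)
    {B κ : ℝ} (hB : 0 < B) (hκ : 0 < κ) {S : ℝ → ℝ} (hS : ∀ x, 0 ≤ S x)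
    {N : ℕ × ℕ → ℝ} {pa : ℕ × ℕ → ℕ → ℝ → ℝ → ℝ} {e : ℕ × ℕ → ℝ → ℝ → ℝ} (hN : ∀ i, 1 ≤ N i)
    (hp : ∀ i : ℕ × ℕ, Packet B κ (S (i.1 + 1)) (i.1 + 1) (1 / (i.2 + 1)) (N i) (pa i) (e i))
    {w : ℂ → ℝ}
    (hpic : ∀ r : ℝ, 0 < r → r ≤ 1 → ∃ (a b : ℝ → Fin 3 → ℝ) (γ μ ν p : ℝ → ℝ)
      (s η m W₁ W₂ : ℝ → ℂ → ℝ) (Y : ℝ → ℂ → ℂ),
        GPic α C (ρ / r) r β g (fun y => w ((r : ℂ) * y)) a b γ μ ν p s η m W₁ W₂ Y)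
    (hw : Wavy δ α (fun (i : (ℕ × ℕ) × ℕ) => prof (i.1.1 + 1) (pa i.1 0 (i.1.1 + 1)) (i.2 + 1)) w) :
    False := by
  obtain ⟨κ₁, hκ₁, hmass⟩ := prof_mass
  obtain ⟨_, _, _, _, _, _, _, _, _, _, _, _, hP1⟩ := hpic 1 one_pos le_rfl
  have hC : 1 ≤ C := hP1.one_le
  have hβ : 0 < β := hP1.β_pos
  have hκκ : 0 < δ * κ₁ * κ := by positivity
  -- the choice of Λs
  obtain ⟨n, hn⟩ := exists_nat_ge (((C * B + 4) / (δ * κ₁ * κ)) ^ 2)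
  have hΛ1 : (1 : ℝ) ≤ (n : ℝ) + 1 := by
    have : (0 : ℝ) ≤ n := Nat.cast_nonneg n
    linarith
  have hsq : C * B + 4 ≤ δ * κ₁ * κ * √((n : ℝ) + 1) := by
    have h1 : (C * B + 4) / (δ * κ₁ * κ) ≤ √((n : ℝ) + 1) :=
      Real.le_sqrt_of_sq_le (by linarith)
    rw [div_le_iff₀ hκκ] at h1
    linarith
  obtain ⟨C₁, hC₁, hone⟩ := one_gpacket hα hα1 hC (hS ((n : ℝ) + 1))
  obtain ⟨D, hD⟩ : ∃ D : ℝ, D = C ^ 2 * ((n : ℝ) + 1) / β * C₁ := ⟨_, rfl⟩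
  have hD0 : 0 ≤ D := by
    rw [hD]
    positivity
  -- the choice of P
  obtain ⟨p, hpp⟩ : ∃ p : ℕ, D * ((p : ℝ) + 1) ^ α ≤ (p : ℝ) + 1 := by
    have h1 : 0 < 1 - α := by linarith
    obtain ⟨x₀, hx₀⟩ := Filter.eventually_atTop.1
      ((tendsto_rpow_atTop h1).eventually_ge_atTop D)
    obtain ⟨p, hp0⟩ := exists_nat_ge x₀
    refine ⟨p, ?_⟩
    have h2 : D ≤ ((p : ℝ) + 1) ^ (1 - α) := hx₀ _ (by linarith)
    have h3 : (0 : ℝ) < (p : ℝ) + 1 := by positivity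
    have h4 : ((p : ℝ) + 1) ^ (1 - α) * ((p : ℝ) + 1) ^ α = (p : ℝ) + 1 := by
      rw [← Real.rpow_add h3, sub_add_cancel, Real.rpow_one]
    calc D * ((p : ℝ) + 1) ^ α ≤ ((p : ℝ) + 1) ^ (1 - α) * ((p : ℝ) + 1) ^ α :=
          mul_le_mul_of_nonneg_right h2 (Real.rpow_nonneg h3.le _)
      _ = (p : ℝ) + 1 := h4
  have hP : (1 : ℝ) ≤ (p : ℝ) + 1 := by
    have : (0 : ℝ) ≤ p := Nat.cast_nonneg p
    linarith
  -- the choice of τ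
  obtain ⟨m, hm⟩ := exists_nat_ge D
  have hτ : D * (1 / ((m : ℝ) + 1)) ≤ 1 := by
    rw [mul_one_div, div_le_one (by positivity)]
    linarith
  have hpk := hp (n, m)
  have hNi := hN (n, m)
  obtain ⟨R₀, r₁, hr₁, hmain⟩ := hone B κ ((n : ℝ) + 1) (1 / ((m : ℝ) + 1)) (N (n, m)) (pa (n, m))
    (e (n, m)) ((p : ℝ) + 1) hpk hP hNi (by positivity) hΛ1 hB β hβ ((p : ℝ) + 1)
    (by linarith)
  -- the choice of r
  obtain ⟨r, hr0, hrε, hwr⟩ := hw ((n, m), p) (min r₁ (min 1 (ρ / max R₀ 1)))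
    (lt_min hr₁ (lt_min one_pos (div_pos hρ (lt_max_of_lt_right one_pos))))
  have hr1 : r ≤ r₁ := (hrε.trans_le (min_le_left _ _)).le
  have hr2 : r ≤ 1 := (hrε.trans_le ((min_le_right _ _).trans (min_le_left _ _))).le
  have hr3 : r ≤ ρ / max R₀ 1 := (hrε.trans_le ((min_le_right _ _).trans (min_le_right _ _))).le
  have hM : 0 < max R₀ 1 := lt_max_of_lt_right one_pos
  have hR : R₀ ≤ ρ / r := by
    rw [le_div_iff₀ hM] at hr3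
    rw [le_div_iff₀ hr0]
    have h1 : R₀ * r ≤ max R₀ 1 * r := mul_le_mul_of_nonneg_right (le_max_left _ _) hr0.le
    linarith
  obtain ⟨a, b, γ, μ, ν, pp, s, η, mm, W₁, W₂, Y, hPic⟩ := hpic r hr0 hr2
  have h1 := hmain (ρ / r) r g _ a b γ μ ν pp s η mm W₁ W₂ Y hPic hR hr1
  have h2 := hmass B κ (S ((n : ℝ) + 1)) ((n : ℝ) + 1) (1 / ((m : ℝ) + 1)) (N (n, m))
    (pa (n, m)) (e (n, m)) ((p : ℝ) + 1) hpk hΛ1 hNi hP hκ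
  have h3 : δ * r ^ (1 + α) * (∫ z, prof ((n : ℝ) + 1) (pa (n, m) 0 ((n : ℝ) + 1))
      ((p : ℝ) + 1) z ^ 2) ≤ |∫ z, w ((r : ℂ) * z) * prof ((n : ℝ) + 1)
        (pa (n, m) 0 ((n : ℝ) + 1)) ((p : ℝ) + 1) z| := hwr
  have h4 : (∫ z, w ((r : ℂ) * z) * prof ((n : ℝ) + 1)
      (pa (n, m) 0 ((n : ℝ) + 1)) ((p : ℝ) + 1) z) = √((n : ℝ) + 1) *
        ∫ z, w ((r : ℂ) * z) * tst (pa (n, m) 0 ((n : ℝ) + 1)) ((p : ℝ) + 1) z := by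
    rw [← integral_const_mul]
    congr 1
    funext z
    unfold prof
    ring
  have hsq0 : 0 < √((n : ℝ) + 1) := Real.sqrt_pos.2 (by linarith)
  rw [h4, abs_mul, abs_of_pos hsq0] at h3
  have hrα : 0 < r ^ (1 + α) := Real.rpow_pos_of_pos hr0 _
  have h5 : C * (B * ((p : ℝ) + 1)) + C ^ 2 * ((n : ℝ) + 1) / β * (C₁ * ((p : ℝ) + 1) ^ α +
      C₁ * (1 / ((m : ℝ) + 1)) * ((p : ℝ) + 1)) + ((p : ℝ) + 1) ≤
      (C * B + 3) * ((p : ℝ) + 1) := by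
    have e1 : C ^ 2 * ((n : ℝ) + 1) / β * (C₁ * ((p : ℝ) + 1) ^ α +
        C₁ * (1 / ((m : ℝ) + 1)) * ((p : ℝ) + 1)) =
        D * ((p : ℝ) + 1) ^ α + D * (1 / ((m : ℝ) + 1)) * ((p : ℝ) + 1) := by
      rw [hD]
      ring
    rw [e1]
    have e2 : D * (1 / ((m : ℝ) + 1)) * ((p : ℝ) + 1) ≤ 1 * ((p : ℝ) + 1) :=
      mul_le_mul_of_nonneg_right hτ (by linarith)
    nlinarith
  have h6 : δ * r ^ (1 + α) * (κ₁ * κ * ((n : ℝ) + 1) * ((p : ℝ) + 1)) ≤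
      √((n : ℝ) + 1) * (r ^ (1 + α) * ((C * B + 3) * ((p : ℝ) + 1))) := by
    calc δ * r ^ (1 + α) * (κ₁ * κ * ((n : ℝ) + 1) * ((p : ℝ) + 1)) ≤ _ :=
          mul_le_mul_of_nonneg_left h2 (by positivity)
      _ ≤ _ := h3
      _ ≤ √((n : ℝ) + 1) * (r ^ (1 + α) * ((C * B + 3) * ((p : ℝ) + 1))) := by
          refine mul_le_mul_of_nonneg_left (h1.trans ?_) hsq0.le
          exact mul_le_mul_of_nonneg_left h5 hrα.le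
  have h7 : ((n : ℝ) + 1) = √((n : ℝ) + 1) * √((n : ℝ) + 1) :=
    (Real.mul_self_sqrt (by linarith)).symm
  have h8 : δ * r ^ (1 + α) * (κ₁ * κ * ((n : ℝ) + 1) * ((p : ℝ) + 1)) =
      (√((n : ℝ) + 1) * r ^ (1 + α) * ((p : ℝ) + 1)) * (δ * κ₁ * κ * √((n : ℝ) + 1)) := by
    conv_lhs => rw [h7]
    ring
  have h9 : √((n : ℝ) + 1) * (r ^ (1 + α) * ((C * B + 3) * ((p : ℝ) + 1))) =
      (√((n : ℝ) + 1) * r ^ (1 + α) * ((p : ℝ) + 1)) * (C * B + 3) := by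
    ring
  rw [h8, h9] at h6
  have h10 := le_of_mul_le_mul_left h6 (by positivity)
  linarith

end Pool.Agent.YUL
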