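import Pool.Agent.YUL.Defs

/-! [YUL-GQ] part 1: the ODE facts used in Lemma Q, quadratic forms. -/

open MeasureTheory Set Filter Topology
open scoped ContDiff

namespace Pool.Agent.YUL

open Pool.Agent.YUD Pool.Agent.YUT Pool.Agent.YUB Pool.Agent.YUR

/-- the facts on the trajectories used in Lemma Q -/
structure Od (α C E R r : ℝ) (a b : ℝ → Fin 3 → ℝ) (Y : ℝ → ℂ → ℂ) : Prop where
  one_le : 1 ≤ C
  E_nn : 0 ≤ E
  r_pos : 0 < r
  r_le : r ≤ 1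
  a_le : ∀ t i, |a t i| ≤ C
  b_le : ∀ t i, |b t i| ≤ C
  a_cont : Continuous a
  b_cont : Continuous b
  start : ∀ y, ‖y‖ < R / C → Y 0 y = y
  Y_le : ∀ t, 0 ≤ t → ∀ y, ‖y‖ < R / C → ‖Y t y‖ ≤ C * ‖y‖
  ode : ∀ t, 0 ≤ t → ∀ y, ‖y‖ < R / C → ∃ v : ℂ,
    HasDerivWithinAt (fun t' => Y t' y) v (Ici 0) t ∧
    |v.re - r * qua (a t) (Y t y)| ≤ C * (r ^ (1 + α) * ‖Y t y‖ ^ (2 + α) + r ^ 2 * ‖Y t y‖ ^ 3) ∧
    |v.im - r * qua (b t) (Y t y)| ≤ C * (r ^ (1 + α) * ‖Y t y‖ ^ (2 + α) + r ^ 2 * ‖Y t y‖ ^ 3)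
  im_le : ∀ t, 0 ≤ t → ∀ y, ‖y‖ < R / C →
    |(Y t y).im - y.im| ≤ E * r ^ α * ‖y‖ ^ (1 + α)
  div_le : ∀ t, 0 ≤ t → |∫ τ in (0 : ℝ)..t, (2 * a τ 0 + b τ 1)| ≤ C ∧
    |∫ τ in (0 : ℝ)..t, (a τ 1 + 2 * b τ 2)| ≤ C

/-- the derivative of the quadratic form -/
noncomputable def dqua (k : Fin 3 → ℝ) (z v : ℂ) : ℝ :=
  2 * k 0 * z.re * v.re + k 1 * (z.re * v.im + z.im * v.re) + 2 * k 2 * z.im * v.im

theorem abs_qua_le {k : Fin 3 → ℝ} {κ : ℝ} (hk : ∀ i, |k i| ≤ κ) (z : ℂ) :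
    |qua k z| ≤ 2 * κ * ‖z‖ ^ 2 := by
  have h0 : 0 ≤ κ := (abs_nonneg _).trans (hk 0)
  have hz : ‖z‖ ^ 2 = z.re ^ 2 + z.im ^ 2 := by
    rw [← Complex.normSq_eq_norm_sq, Complex.normSq_apply]; ring
  have h1 : |k 0 * z.re ^ 2| ≤ κ * z.re ^ 2 := by
    rw [abs_mul, abs_of_nonneg (sq_nonneg z.re)]
    exact mul_le_mul_of_nonneg_right (hk 0) (sq_nonneg _)
  have h2 : |k 1 * (z.re * z.im)| ≤ κ * (|z.re| * |z.im|) := by
    rw [abs_mul, abs_mul]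
    exact mul_le_mul_of_nonneg_right (hk 1) (by positivity)
  have h3 : |k 2 * z.im ^ 2| ≤ κ * z.im ^ 2 := by
    rw [abs_mul, abs_of_nonneg (sq_nonneg z.im)]
    exact mul_le_mul_of_nonneg_right (hk 2) (sq_nonneg _)
  have h4 : |z.re| * |z.im| ≤ z.re ^ 2 + z.im ^ 2 := by
    have := sq_nonneg (|z.re| - |z.im|)
    have e1 := sq_abs z.re
    have e2 := sq_abs z.im
    nlinarith [mul_nonneg (abs_nonneg z.re) (abs_nonneg z.im)]
  have h5 := mul_le_mul_of_nonneg_left h4 h0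
  unfold qua
  have h6 := abs_add_le (k 0 * z.re ^ 2 + k 1 * (z.re * z.im)) (k 2 * z.im ^ 2)
  have h7 := abs_add_le (k 0 * z.re ^ 2) (k 1 * (z.re * z.im))
  rw [hz]
  nlinarith

theorem abs_dqua_le {k : Fin 3 → ℝ} {κ V : ℝ} (hk : ∀ i, |k i| ≤ κ) {z v : ℂ} (h1 : |v.re| ≤ V)
    (h2 : |v.im| ≤ V) : |dqua k z v| ≤ 6 * κ * ‖z‖ * V := by
  have h0 : 0 ≤ κ := (abs_nonneg _).trans (hk 0)
  have hV : 0 ≤ V := (abs_nonneg _).trans h1
  have hr := Complex.abs_re_le_norm z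
  have hi := Complex.abs_im_le_norm z
  have m : ∀ (c x y : ℝ), |c| ≤ κ → |x| ≤ ‖z‖ → |y| ≤ V → |c * x * y| ≤ κ * ‖z‖ * V := by
    intro c x y hc hx hy
    rw [abs_mul, abs_mul]
    have := norm_nonneg z
    gcongr
  have t1 := m (k 0) z.re v.re (hk 0) hr h1
  have t2 := m (k 1) z.re v.im (hk 1) hr h2
  have t3 := m (k 1) z.im v.re (hk 1) hi h1
  have t4 := m (k 2) z.im v.im (hk 2) hi h2
  have e : dqua k z v = 2 * (k 0 * z.re * v.re) + k 1 * z.re * v.im + k 1 * z.im * v.re +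
      2 * (k 2 * z.im * v.im) := by
    unfold dqua; ring
  rw [e]
  rw [abs_le] at t1 t2 t3 t4 ⊢
  constructor <;> nlinarith [t1.1, t1.2, t2.1, t2.2, t3.1, t3.2, t4.1, t4.2]

theorem abs_qua_sub_le {k : Fin 3 → ℝ} {κ : ℝ} (hk : ∀ i, |k i| ≤ κ) (z w : ℂ) :
    |qua k z - qua k w| ≤ 3 * κ * ‖z - w‖ * (‖z‖ + ‖w‖) := by
  have h0 : 0 ≤ κ := (abs_nonneg _).trans (hk 0)
  have hr := Complex.abs_re_le_norm (z - w)
  have hi := Complex.abs_im_le_norm (z - w)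
  have zr := Complex.abs_re_le_norm z
  have zi := Complex.abs_im_le_norm z
  have wr := Complex.abs_re_le_norm w
  have wi := Complex.abs_im_le_norm w
  rw [Complex.sub_re] at hr
  rw [Complex.sub_im] at hi
  have m : ∀ (c x y : ℝ), |c| ≤ κ → |x| ≤ ‖z - w‖ → |y| ≤ ‖z‖ + ‖w‖ →
      |c * x * y| ≤ κ * ‖z - w‖ * (‖z‖ + ‖w‖) := by
    intro c x y hc hx hy
    rw [abs_mul, abs_mul]
    have := norm_nonneg (z - w)
    gcongr
  have t1 := m (k 0) (z.re - w.re) (z.re + w.re) (hk 0) hr ((abs_add_le _ _).trans (by linarith))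
  have t4 := m (k 2) (z.im - w.im) (z.im + w.im) (hk 2) hi ((abs_add_le _ _).trans (by linarith))
  have t2 : |k 1 * (z.re * z.im - w.re * w.im)| ≤ κ * ‖z - w‖ * (‖z‖ + ‖w‖) := by
    have e : z.re * z.im - w.re * w.im = (z.re - w.re) * z.im + (z.im - w.im) * w.re := by ring
    have s1 : |(z.re - w.re) * z.im| ≤ ‖z - w‖ * ‖z‖ := by
      rw [abs_mul]
      have := norm_nonneg (z - w)
      gcongr
    have s2 : |(z.im - w.im) * w.re| ≤ ‖z - w‖ * ‖w‖ := by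
      rw [abs_mul]
      have := norm_nonneg (z - w)
      gcongr
    rw [abs_mul, e]
    have s3 := abs_add_le ((z.re - w.re) * z.im) ((z.im - w.im) * w.re)
    have s4 : |(z.re - w.re) * z.im + (z.im - w.im) * w.re| ≤ ‖z - w‖ * (‖z‖ + ‖w‖) := by linarith
    calc |k 1| * |(z.re - w.re) * z.im + (z.im - w.im) * w.re| ≤
        κ * (‖z - w‖ * (‖z‖ + ‖w‖)) := mul_le_mul (hk 1) s4 (abs_nonneg _) h0
      _ = _ := by ring
  have e : qua k z - qua k w = k 0 * (z.re - w.re) * (z.re + w.re) +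
      k 1 * (z.re * z.im - w.re * w.im) + k 2 * (z.im - w.im) * (z.im + w.im) := by
    unfold qua; ring
  rw [e]
  rw [abs_le] at t1 t2 t4 ⊢
  constructor <;> nlinarith [t1.1, t1.2, t2.1, t2.2, t4.1, t4.2]

/-- the primitive of the coefficients -/
noncomputable def pri (a : ℝ → Fin 3 → ℝ) (t : ℝ) (i : Fin 3) : ℝ := ∫ τ in (0 : ℝ)..t, a τ i

theorem pri_deriv {a : ℝ → Fin 3 → ℝ} (ha : Continuous a) (i : Fin 3) (t : ℝ) :
    HasDerivAt (fun s => pri a s i) (a t i) t :=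
  (((continuous_apply i).comp ha).integral_hasStrictDerivAt 0 t).hasDerivAt

theorem pri_cont {a : ℝ → Fin 3 → ℝ} (ha : Continuous a) (i : Fin 3) :
    Continuous (fun s => pri a s i) :=
  continuous_iff_continuousAt.2 fun t => (pri_deriv ha i t).continuousAt

theorem pri_zero (a : ℝ → Fin 3 → ℝ) (i : Fin 3) : pri a 0 i = 0 := by
  unfold pri; rw [intervalIntegral.integral_same]

theorem qua_deriv {b : ℝ → Fin 3 → ℝ} (hb : Continuous b) {y : ℝ → ℂ} {v : ℂ} {s : Set ℝ} {t : ℝ}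
    (h : HasDerivWithinAt y v s t) :
    HasDerivWithinAt (fun τ => qua (pri b τ) (y τ)) (qua (b t) (y t) + dqua (pri b t) (y t) v) s t := by
  have hre : HasDerivWithinAt (fun τ => (y τ).re) v.re s t := by
    have := Complex.reCLM.hasFDerivAt.comp_hasDerivWithinAt t h
    exact this
  have him : HasDerivWithinAt (fun τ => (y τ).im) v.im s t := by
    have := Complex.imCLM.hasFDerivAt.comp_hasDerivWithinAt t h
    exact this
  have h0 := (pri_deriv hb 0 t).hasDerivWithinAt (s := s)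
  have h1 := (pri_deriv hb 1 t).hasDerivWithinAt (s := s)
  have h2 := (pri_deriv hb 2 t).hasDerivWithinAt (s := s)
  have H := ((h0.mul (hre.mul hre)).add (h1.mul (hre.mul him))).add (h2.mul (him.mul him))
  refine (H.congr_deriv ?_).congr_of_eventuallyEq ?_ ?_
  · unfold qua dqua
    simp only [Pi.mul_apply]
    ring
  · refine Eventually.of_forall fun τ => ?_
    simp only [qua, Pi.add_apply, Pi.mul_apply]
    ring
  · simp only [qua, Pi.add_apply, Pi.mul_apply]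
    ring

end Pool.Agent.YUL
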