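import Pool.Agent.YUL.Q1

/-! [YUL-GQ] part 2: the primitives of the coefficients. -/

open MeasureTheory Set Filter Topology
open scoped ContDiff

namespace Pool.Agent.YUL

open Pool.Agent.YUD Pool.Agent.YUT Pool.Agent.YUB Pool.Agent.YUR

variable {α C E R r : ℝ} {a b : ℝ → Fin 3 → ℝ} {Y : ℝ → ℂ → ℂ}

theorem rpow_le_self_alpha {α r : ℝ} (hα1 : α < 1) (hr : 0 < r) (hr1 : r ≤ 1) : r ≤ r ^ α := by
  have h := Real.rpow_le_rpow_of_exponent_ge hr hr1 hα1.le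
  rwa [Real.rpow_one] at h

theorem rpow_one_add' {α r : ℝ} (hr : 0 < r) : r ^ (1 + α) = r * r ^ α := by
  rw [Real.rpow_add hr, Real.rpow_one]

/-- the error term -/
theorem err_le {α C r x M : ℝ} (hα : 0 < α) (hα1 : α < 1) (hC : 1 ≤ C) (hr : 0 < r) (hr1 : r ≤ 1)
    (hx : 0 ≤ x) (h2 : x ^ (2 + α) ≤ M) (h3 : x ^ 3 ≤ M) :
    C * (r ^ (1 + α) * x ^ (2 + α) + r ^ 2 * x ^ 3) ≤ 2 * C * (r * r ^ α) * M := by
  have h1 := rpow_le_self_alpha hα1 hr hr1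
  have p0 : 0 ≤ r ^ α := Real.rpow_nonneg hr.le _
  have hx3 : 0 ≤ x ^ 3 := by positivity
  have hM : 0 ≤ M := hx3.trans h3
  have k1 : r ^ (1 + α) * x ^ (2 + α) ≤ r * r ^ α * M := by
    rw [rpow_one_add' hr]
    exact mul_le_mul_of_nonneg_left h2 (by positivity)
  have k2 : r ^ 2 * x ^ 3 ≤ r * r ^ α * M := by
    have : r ^ 2 ≤ r * r ^ α := by rw [sq]; exact mul_le_mul_of_nonneg_left h1 hr.le
    exact mul_le_mul this h3 hx3 (by positivity)
  have hC0 : 0 ≤ C := by linarith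
  calc _ ≤ C * (r * r ^ α * M + r * r ^ α * M) := mul_le_mul_of_nonneg_left (add_le_add k1 k2) hC0
    _ = _ := by ring

/-- the speed -/
theorem speed_le {α C r x M v : ℝ} {k : Fin 3 → ℝ} {z : ℂ} (hα : 0 < α) (hα1 : α < 1) (hC : 1 ≤ C)
    (hr : 0 < r) (hr1 : r ≤ 1) (hk : ∀ i, |k i| ≤ C) (hx : x = ‖z‖) (h1 : x ^ 2 ≤ M)
    (h2 : x ^ (2 + α) ≤ M) (h3 : x ^ 3 ≤ M)
    (hv : |v - r * qua k z| ≤ C * (r ^ (1 + α) * ‖z‖ ^ (2 + α) + r ^ 2 * ‖z‖ ^ 3)) :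
    |v| ≤ 4 * C * r * M := by
  rw [← hx] at hv
  have hx0 : 0 ≤ x := by rw [hx]; exact norm_nonneg _
  have e1 := err_le hα hα1 hC hr hr1 hx0 h2 h3
  have e2 := abs_qua_le hk z
  rw [← hx] at e2
  have p0 : r ^ α ≤ 1 := Real.rpow_le_one hr.le hr1 hα.le
  have hx3 : 0 ≤ x ^ 3 := by positivity
  have hM : 0 ≤ M := hx3.trans h3
  have e3 : 2 * C * (r * r ^ α) * M ≤ 2 * C * r * M := by
    have : r * r ^ α ≤ r := by nlinarith
    have hC0 : 0 ≤ 2 * C := by linarith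
    have := mul_le_mul_of_nonneg_left this hC0
    calc _ ≤ 2 * C * r * M := mul_le_mul_of_nonneg_right this hM
      _ = _ := rfl
  have e4 : |r * qua k z| ≤ r * (2 * C * M) := by
    rw [abs_mul, abs_of_pos hr]
    apply mul_le_mul_of_nonneg_left _ hr.le
    refine e2.trans ?_
    exact mul_le_mul_of_nonneg_left h1 (by linarith)
  have e5 : |v| ≤ |v - r * qua k z| + |r * qua k z| := by
    have := abs_add_le (v - r * qua k z) (r * qua k z)
    rwa [sub_add_cancel] at this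
  linarith

theorem mul_dqua (r : ℝ) (k : Fin 3 → ℝ) (z v : ℂ) :
    r * dqua k z v = dqua (fun i => r * k i) z v := by
  unfold dqua; ring

theorem mul_qua (r : ℝ) (k : Fin 3 → ℝ) (z : ℂ) : r * qua k z = qua (fun i => r * k i) z := by
  unfold qua; ring

/-- mean value inequality for functions with derivatives within `Ici 0` -/
theorem mvi {F : Type} [NormedAddCommGroup F] [NormedSpace ℝ F] {f : ℝ → F} {t K : ℝ}
    (h : ∀ s, 0 ≤ s → ∃ v, HasDerivWithinAt f v (Ici 0) s ∧ (s < t → ‖v‖ ≤ K)) :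
    ∀ s ∈ Icc 0 t, ‖f s - f 0‖ ≤ K * s := by
  choose! f' hf' hb using h
  have h1 := norm_image_sub_le_of_norm_deriv_right_le_segment (f := f) (f' := f') (C := K)
    (a := 0) (b := t)
    (fun s hs => ((hf' s hs.1).continuousWithinAt).mono (fun x hx => hx.1))
    (fun s hs => (hf' s hs.1).mono (fun x hx => hs.1.trans hx))
    (fun s hs => hb s hs.1 hs.2)
  intro s hs
  have := h1 s hs
  rwa [sub_zero] at this

theorem Od.label (hα : 0 < α) (hα1 : α < 1) (h : Od α C E R r a b Y) {T' θ t κ : ℝ} (hT : 0 ≤ T')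
    (hθ : 0 < θ) (hθC : C * θ ≤ 1) (hθR : θ < R / C) (ht : r * t ≤ T')
    (hκ : ∀ s ∈ Icc 0 t, ∀ i, |r * pri b s i| ≤ κ) {y : ℂ} (hy : ‖y‖ ≤ θ) :
    ∀ s ∈ Icc 0 t, |r * qua (pri b s) y| ≤
      (E + 2 * C * T') * r ^ α + 72 * C ^ 4 * T' * κ * θ ^ 3 := by
  have hC := h.one_le
  have hC0 : 0 < C := by linarith
  have hr := h.r_pos
  have hθ1 : θ ≤ 1 := by nlinarith
  have hyR : ‖y‖ < R / C := lt_of_le_of_lt hy hθR
  have hra : 0 ≤ r ^ α := Real.rpow_nonneg hr.le _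
  have hY : ∀ s, 0 ≤ s → ‖Y s y‖ ≤ C * θ := fun s hs =>
    (h.Y_le s hs y hyR).trans (mul_le_mul_of_nonneg_left hy hC0.le)
  -- powers
  have hpw : ∀ s, 0 ≤ s → ‖Y s y‖ ^ (2 + α) ≤ ‖Y s y‖ ^ 2 ∧ ‖Y s y‖ ^ 3 ≤ ‖Y s y‖ ^ 2 ∧
      ‖Y s y‖ ^ 2 ≤ (C * θ) ^ 2 := by
    intro s hs
    have h0 := norm_nonneg (Y s y)
    have h1 : ‖Y s y‖ ≤ 1 := (hY s hs).trans hθC
    refine ⟨?_, ?_, pow_le_pow_left₀ h0 (hY s hs) 2⟩
    · rcases h0.eq_or_lt with h2 | h2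
      · rw [← h2, Real.zero_rpow (by linarith)]; norm_num
      · have := Real.rpow_le_rpow_of_exponent_ge h2 h1 (by linarith : (2 : ℝ) ≤ 2 + α)
        rwa [Real.rpow_two] at this
    · calc ‖Y s y‖ ^ 3 = ‖Y s y‖ ^ 2 * ‖Y s y‖ := by ring
        _ ≤ ‖Y s y‖ ^ 2 * 1 := mul_le_mul_of_nonneg_left h1 (by positivity)
        _ = _ := mul_one _
  -- the velocity
  have hvel : ∀ s, 0 ≤ s → ∃ v : ℂ, HasDerivWithinAt (fun t' => Y t' y) v (Ici 0) s ∧
      |v.re| ≤ 4 * C * r * ‖Y s y‖ ^ 2 ∧ |v.im| ≤ 4 * C * r * ‖Y s y‖ ^ 2 ∧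
      |v.im - r * qua (b s) (Y s y)| ≤ 2 * C * (r * r ^ α) := by
    intro s hs
    obtain ⟨v, hv, hre, him⟩ := h.ode s hs y hyR
    obtain ⟨q1, q2, q3⟩ := hpw s hs
    have h1 : ‖Y s y‖ ≤ 1 := (hY s hs).trans hθC
    refine ⟨v, hv, ?_, ?_, ?_⟩
    · exact speed_le hα hα1 hC hr h.r_le (h.a_le s) rfl le_rfl q1 q2 hre
    · exact speed_le hα hα1 hC hr h.r_le (h.b_le s) rfl le_rfl q1 q2 him
    · refine him.trans ((err_le hα hα1 hC hr h.r_le (norm_nonneg _) (M := 1) ?_ ?_).trans (by linarith))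
      · exact q1.trans (pow_le_one₀ (norm_nonneg _) h1)
      · exact pow_le_one₀ (norm_nonneg _) h1
  intro s hs
  have hs0 : 0 ≤ s := hs.1
  have hst : r * s ≤ T' := (mul_le_mul_of_nonneg_left hs.2 hr.le).trans ht
  have hκ0 : 0 ≤ κ := (abs_nonneg _).trans (hκ s hs 0)
  -- displacement
  have hdisp : ‖Y s y - y‖ ≤ 8 * C ^ 3 * T' * θ ^ 2 := by
    have h1 := mvi (f := fun t' => Y t' y) (t := t) (K := 8 * C ^ 3 * r * θ ^ 2) (by
      intro x hx
      obtain ⟨v, hv, h1, h2, -⟩ := hvel x hx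
      refine ⟨v, hv, fun _ => ?_⟩
      have h3 := Complex.norm_le_abs_re_add_abs_im v
      have h4 := (hpw x hx).2.2
      have h5 : 4 * C * r * ‖Y x y‖ ^ 2 ≤ 4 * C * r * (C * θ) ^ 2 :=
        mul_le_mul_of_nonneg_left h4 (by positivity)
      calc ‖v‖ ≤ 4 * C * r * (C * θ) ^ 2 + 4 * C * r * (C * θ) ^ 2 := by linarith
        _ = _ := by ring) s hs
    simp only [h.start y hyR] at h1
    refine h1.trans ?_
    calc 8 * C ^ 3 * r * θ ^ 2 * s = 8 * C ^ 3 * θ ^ 2 * (r * s) := by ring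
      _ ≤ 8 * C ^ 3 * θ ^ 2 * T' := mul_le_mul_of_nonneg_left hst (by positivity)
      _ = _ := by ring
  -- the function g
  have hg := mvi (f := fun x => (Y x y).im - r * qua (pri b x) (Y x y)) (t := t)
    (K := r * (2 * C * r ^ α + 24 * C ^ 4 * κ * θ ^ 3)) (by
      intro x hx
      obtain ⟨v, hv, h1, h2, h3⟩ := hvel x hx
      refine ⟨v.im - r * (qua (b x) (Y x y) + dqua (pri b x) (Y x y) v), ?_, fun hxt => ?_⟩
      · have him : HasDerivWithinAt (fun τ => (Y τ y).im) v.im (Ici 0) x := by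
          have := Complex.imCLM.hasFDerivAt.comp_hasDerivWithinAt x hv
          exact this
        exact him.sub ((qua_deriv h.b_cont hv).const_mul r)
      · have h4 := abs_dqua_le (k := fun i => r * pri b x i) (fun i => hκ x ⟨hx, hxt.le⟩ i) h1 h2
          (z := Y x y)
        rw [← mul_dqua] at h4
        have h5 : 6 * κ * ‖Y x y‖ * (4 * C * r * ‖Y x y‖ ^ 2) ≤ r * (24 * C ^ 4 * κ * θ ^ 3) := by
          have h6 : ‖Y x y‖ ^ 3 ≤ (C * θ) ^ 3 := pow_le_pow_left₀ (norm_nonneg _) (hY x hx) 3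
          calc _ = 24 * C * κ * r * ‖Y x y‖ ^ 3 := by ring
            _ ≤ 24 * C * κ * r * (C * θ) ^ 3 := mul_le_mul_of_nonneg_left h6 (by positivity)
            _ = _ := by ring
        rw [Real.norm_eq_abs, mul_add, ← sub_sub]
        have h7 := abs_sub (v.im - r * qua (b x) (Y x y)) (r * dqua (pri b x) (Y x y) v)
        nlinarith) s hs
  simp only [h.start y hyR] at hg
  have hz : qua (pri b 0) y = 0 := by
    unfold qua; simp only [pri_zero]; ring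
  rw [hz, mul_zero, sub_zero, Real.norm_eq_abs] at hg
  have hg2 : r * (2 * C * r ^ α + 24 * C ^ 4 * κ * θ ^ 3) * s ≤
      T' * (2 * C * r ^ α + 24 * C ^ 4 * κ * θ ^ 3) := by
    calc _ = (r * s) * (2 * C * r ^ α + 24 * C ^ 4 * κ * θ ^ 3) := by ring
      _ ≤ _ := mul_le_mul_of_nonneg_right hst (by positivity)
  have him := h.im_le s hs0 y hyR
  have him2 : E * r ^ α * ‖y‖ ^ (1 + α) ≤ E * r ^ α := by
    have h1 : ‖y‖ ^ (1 + α) ≤ 1 := Real.rpow_le_one (norm_nonneg _) (hy.trans hθ1) (by linarith)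
    have h2 : 0 ≤ E * r ^ α := mul_nonneg h.E_nn hra
    calc _ ≤ E * r ^ α * 1 := mul_le_mul_of_nonneg_left h1 h2
      _ = _ := mul_one _
  have hq1 : |r * qua (pri b s) (Y s y)| ≤ E * r ^ α + T' * (2 * C * r ^ α + 24 * C ^ 4 * κ * θ ^ 3) := by
    have e : r * qua (pri b s) (Y s y) = ((Y s y).im - y.im) -
        ((Y s y).im - r * qua (pri b s) (Y s y) - y.im) := by ring
    rw [e]
    refine (abs_sub _ _).trans ?_
    linarith
  have hq2 : |r * qua (pri b s) y - r * qua (pri b s) (Y s y)| ≤ 48 * C ^ 4 * T' * κ * θ ^ 3 := by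
    rw [mul_qua, mul_qua]
    refine (abs_qua_sub_le (fun i => hκ s hs i) y (Y s y)).trans ?_
    rw [norm_sub_rev]
    have h1 : ‖y‖ + ‖Y s y‖ ≤ 2 * C * θ := by
      have := hY s hs0
      nlinarith
    calc 3 * κ * ‖Y s y - y‖ * (‖y‖ + ‖Y s y‖) ≤ 3 * κ * (8 * C ^ 3 * T' * θ ^ 2) * (2 * C * θ) := by
          gcongr
      _ = _ := by ring
  have e : r * qua (pri b s) y = (r * qua (pri b s) y - r * qua (pri b s) (Y s y)) +
      r * qua (pri b s) (Y s y) := by ring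
  rw [e]
  refine (abs_add_le _ _).trans ?_
  nlinarith

/-- step 1 -/
theorem Od.b_small (hα : 0 < α) (hα1 : α < 1) (h : Od α C E R r a b Y) {T' : ℝ} (hT : 0 < T')
    (hR : 2 * C < R) {t : ℝ} (ht0 : 0 ≤ t) (ht : r * t ≤ T') :
    ∀ i, |r * pri b t i| ≤ 12 * (C + 864 * C ^ 4 * T') ^ 2 * (E + 2 * C * T') * r ^ α := by
  have hC := h.one_le
  have hC0 : 0 < C := by linarith
  have hr := h.r_pos
  have hE := h.E_nn
  have hra : 0 ≤ r ^ α := Real.rpow_nonneg hr.le _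
  set θ : ℝ := (C + 864 * C ^ 4 * T')⁻¹ with hθd
  have hθ : 0 < θ := by positivity
  have hθi : θ⁻¹ = C + 864 * C ^ 4 * T' := inv_inv _
  have hθC : C * θ ≤ 1 := by
    rw [hθd, ← div_eq_mul_inv, div_le_one (by positivity)]
    have : 0 ≤ 864 * C ^ 4 * T' := by positivity
    linarith
  have hθ2 : 864 * C ^ 4 * T' * θ ≤ 1 := by
    rw [hθd, ← div_eq_mul_inv, div_le_one (by positivity)]
    linarith
  have hθR : θ < R / C := by
    rw [lt_div_iff₀ hC0]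
    nlinarith
  -- the maximum
  have hcont : Continuous (fun s => max |r * pri b s 0| (max |r * pri b s 1| |r * pri b s 2|)) :=
    ((continuous_const.mul (pri_cont h.b_cont 0)).abs).max
      (((continuous_const.mul (pri_cont h.b_cont 1)).abs).max
        ((continuous_const.mul (pri_cont h.b_cont 2)).abs))
  obtain ⟨s₀, hs₀, hmax⟩ := isCompact_Icc.exists_isMaxOn (nonempty_Icc.2 ht0) hcont.continuousOn
  obtain ⟨κ, hκd⟩ : ∃ κ, κ = max |r * pri b s₀ 0| (max |r * pri b s₀ 1| |r * pri b s₀ 2|) :=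
    ⟨_, rfl⟩
  have hκ : ∀ s ∈ Icc 0 t, ∀ i, |r * pri b s i| ≤ κ := by
    intro s hs i
    have h1 := hmax hs
    simp only [mem_ofPred_eq] at h1
    rw [← hκd] at h1
    refine le_trans ?_ h1
    fin_cases i
    · exact le_max_left _ _
    · exact (le_max_left _ _).trans (le_max_right _ _)
    · exact (le_max_right _ _).trans (le_max_right _ _)
  have hκ0 : 0 ≤ κ := (abs_nonneg _).trans (hκ 0 ⟨le_rfl, ht0⟩ 0)
  obtain ⟨X, hXd⟩ : ∃ X, X = (E + 2 * C * T') * r ^ α + 72 * C ^ 4 * T' * κ * θ ^ 3 := ⟨_, rfl⟩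
  have hlab : ∀ y : ℂ, ‖y‖ ≤ θ → |r * qua (pri b s₀) y| ≤ X := by
    intro y hy
    rw [hXd]
    exact h.label hα hα1 hT.le hθ hθC hθR ht hκ hy s₀ hs₀
  have l0 := hlab (θ : ℂ) (by rw [Complex.norm_real, Real.norm_of_nonneg hθ.le])
  have l2 := hlab ((θ : ℂ) * Complex.I) (by
    rw [norm_mul, Complex.norm_real, Complex.norm_I, mul_one, Real.norm_of_nonneg hθ.le])
  have l1 := hlab (((θ / 2 : ℝ) : ℂ) * (1 + Complex.I)) (by
    rw [norm_mul, Complex.norm_real, Real.norm_of_nonneg (by positivity)]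
    have : ‖(1 : ℂ) + Complex.I‖ ≤ 2 := by
      refine (norm_add_le _ _).trans ?_
      rw [norm_one, Complex.norm_I]; norm_num
    calc θ / 2 * ‖(1 : ℂ) + Complex.I‖ ≤ θ / 2 * 2 := mul_le_mul_of_nonneg_left this (by positivity)
      _ = θ := by ring)
  have q0 : qua (pri b s₀) (θ : ℂ) = pri b s₀ 0 * θ ^ 2 := by
    simp [qua]
  have q2 : qua (pri b s₀) ((θ : ℂ) * Complex.I) = pri b s₀ 2 * θ ^ 2 := by
    simp [qua]
  have q1 : qua (pri b s₀) (((θ / 2 : ℝ) : ℂ) * (1 + Complex.I)) =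
      (pri b s₀ 0 + pri b s₀ 1 + pri b s₀ 2) * (θ / 2) ^ 2 := by
    simp [qua]
    ring
  rw [q0, ← mul_assoc, abs_mul, abs_of_nonneg (by positivity : 0 ≤ θ ^ 2)] at l0
  rw [q2, ← mul_assoc, abs_mul, abs_of_nonneg (by positivity : 0 ≤ θ ^ 2)] at l2
  rw [q1, ← mul_assoc, abs_mul, abs_of_nonneg (by positivity : 0 ≤ (θ / 2) ^ 2)] at l1
  have hθsq : 0 < θ ^ 2 := by positivity
  have m0 : |r * pri b s₀ 0| ≤ X / θ ^ 2 := (le_div_iff₀ hθsq).2 l0
  have m2 : |r * pri b s₀ 2| ≤ X / θ ^ 2 := (le_div_iff₀ hθsq).2 l2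
  have m3 : |r * (pri b s₀ 0 + pri b s₀ 1 + pri b s₀ 2)| ≤ 4 * (X / θ ^ 2) := by
    have : |r * (pri b s₀ 0 + pri b s₀ 1 + pri b s₀ 2)| ≤ X / (θ / 2) ^ 2 :=
      (le_div_iff₀ (by positivity)).2 l1
    refine this.trans (le_of_eq ?_)
    field_simp
    ring
  have m1 : |r * pri b s₀ 1| ≤ 6 * (X / θ ^ 2) := by
    have e : r * pri b s₀ 1 = r * (pri b s₀ 0 + pri b s₀ 1 + pri b s₀ 2) - r * pri b s₀ 0 -
      r * pri b s₀ 2 := by ring
    rw [e]
    have h1 := abs_sub (r * (pri b s₀ 0 + pri b s₀ 1 + pri b s₀ 2) - r * pri b s₀ 0)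
      (r * pri b s₀ 2)
    have h2 := abs_sub (r * (pri b s₀ 0 + pri b s₀ 1 + pri b s₀ 2)) (r * pri b s₀ 0)
    linarith
  have hX0 : 0 ≤ X / θ ^ 2 := (abs_nonneg _).trans m0
  have hκX : κ ≤ 6 * (X / θ ^ 2) := by
    rw [hκd]
    refine max_le (by linarith) (max_le m1 (by linarith))
  have hX2 : 6 * (X / θ ^ 2) = 6 * (C + 864 * C ^ 4 * T') ^ 2 * (E + 2 * C * T') * r ^ α +
      432 * C ^ 4 * T' * θ * κ := by
    rw [hXd, ← hθi]
    field_simp
    ring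
  have hκ2 : 432 * C ^ 4 * T' * θ * κ ≤ κ / 2 := by
    have : 432 * C ^ 4 * T' * θ ≤ 1 / 2 := by linarith
    nlinarith
  have hfin : κ ≤ 12 * (C + 864 * C ^ 4 * T') ^ 2 * (E + 2 * C * T') * r ^ α := by
    rw [hX2] at hκX
    linarith
  intro i
  exact (hκ t ⟨ht0, le_rfl⟩ i).trans hfin

end Pool.Agent.YUL
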