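import Pool.Agent.YUL.Q2

/-! [YUL-GQ] part 3: the primitives of the coefficients, conclusion. -/

open MeasureTheory Set Filter Topology
open scoped ContDiff

namespace Pool.Agent.YUL

open Pool.Agent.YUD Pool.Agent.YUT Pool.Agent.YUB Pool.Agent.YUR

variable {α C E R r : ℝ} {a b : ℝ → Fin 3 → ℝ} {Y : ℝ → ℂ → ℂ}

/-- the constant of step 1 -/
noncomputable def bD (C E T' : ℝ) : ℝ := 12 * (C + 864 * C ^ 4 * T') ^ 2 * (E + 2 * C * T')

/-- the constant of step 2 -/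
noncomputable def aD (C E T' : ℝ) : ℝ := C + 2 * bD C E T'

/-- the constant of step 3 -/
noncomputable def aK (C E T' Λ : ℝ) : ℝ :=
  2 * aD C E T' * (C * Λ) ^ 2 + (2 * C * (C * Λ) ^ 3 + 2 * C * E * Λ ^ 2 * (C * Λ) +
    24 * C * aD C E T' * (C * Λ) ^ 4) * T'

theorem bD_nonneg (hC : 1 ≤ C) (hE : 0 ≤ E) {T' : ℝ} (hT : 0 < T') : 0 ≤ bD C E T' := by
  unfold bD
  have : 0 ≤ C := by linarith
  positivity

theorem aD_nonneg (hC : 1 ≤ C) (hE : 0 ≤ E) {T' : ℝ} (hT : 0 < T') : 0 ≤ aD C E T' := by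
  unfold aD
  have := bD_nonneg hC hE hT
  linarith

theorem aK_nonneg (hC : 1 ≤ C) (hE : 0 ≤ E) {T' Λ : ℝ} (hT : 0 < T') (hΛ : 1 ≤ Λ) :
    0 ≤ aK C E T' Λ := by
  unfold aK
  have h1 := aD_nonneg hC hE hT
  have h2 : 0 ≤ C := by linarith
  have h3 : 0 ≤ Λ := by linarith
  positivity

/-- step 2 -/
theorem Od.a_div (hα : 0 < α) (hα1 : α < 1) (h : Od α C E R r a b Y) {T' : ℝ} (hT : 0 < T')
    (hR : 2 * C < R) {t : ℝ} (ht0 : 0 ≤ t) (ht : r * t ≤ T') :
    |r * pri a t 0| ≤ aD C E T' * r ^ α ∧ |r * pri a t 1| ≤ aD C E T' * r ^ α := by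
  have hb := h.b_small hα hα1 hT hR ht0 ht
  have hC := h.one_le
  have hr := h.r_pos
  have hE := h.E_nn
  have hra : 0 ≤ r ^ α := Real.rpow_nonneg hr.le _
  have hrr := rpow_le_self_alpha hα1 hr h.r_le
  have hbD := bD_nonneg hC hE hT
  have ia : ∀ i, IntervalIntegrable (fun τ => a τ i) volume 0 t := fun i =>
    ((continuous_apply i).comp h.a_cont).intervalIntegrable 0 t
  have ib : ∀ i, IntervalIntegrable (fun τ => b τ i) volume 0 t := fun i =>
    ((continuous_apply i).comp h.b_cont).intervalIntegrable 0 t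
  obtain ⟨d1, d2⟩ := h.div_le t ht0
  rw [intervalIntegral.integral_add ((ia 0).const_mul 2) (ib 1),
    intervalIntegral.integral_const_mul] at d1
  rw [intervalIntegral.integral_add (ia 1) ((ib 2).const_mul 2),
    intervalIntegral.integral_const_mul] at d2
  change |2 * pri a t 0 + pri b t 1| ≤ C at d1
  change |pri a t 1 + 2 * pri b t 2| ≤ C at d2
  have b1 := hb 1
  have b2 := hb 2
  change |r * pri b t 1| ≤ bD C E T' * r ^ α at b1
  change |r * pri b t 2| ≤ bD C E T' * r ^ α at b2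
  have hCr : C * r ≤ C * r ^ α := mul_le_mul_of_nonneg_left hrr (by linarith)
  have hB : 0 ≤ bD C E T' * r ^ α := mul_nonneg hbD hra
  have e1 : |r * (2 * pri a t 0 + pri b t 1)| ≤ C * r ^ α := by
    rw [abs_mul, abs_of_pos hr]
    calc r * |2 * pri a t 0 + pri b t 1| ≤ r * C := mul_le_mul_of_nonneg_left d1 hr.le
      _ = C * r := mul_comm _ _
      _ ≤ _ := hCr
  have e2 : |r * (pri a t 1 + 2 * pri b t 2)| ≤ C * r ^ α := by
    rw [abs_mul, abs_of_pos hr]
    calc r * |pri a t 1 + 2 * pri b t 2| ≤ r * C := mul_le_mul_of_nonneg_left d2 hr.le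
      _ = C * r := mul_comm _ _
      _ ≤ _ := hCr
  have hCa : 0 ≤ C * r ^ α := mul_nonneg (by linarith) hra
  have eD : aD C E T' * r ^ α = C * r ^ α + 2 * (bD C E T' * r ^ α) := by unfold aD; ring
  rw [eD]
  rw [abs_le] at e1 e2 b1 b2
  constructor
  · rw [abs_le]
    constructor <;> nlinarith [e1.1, e1.2, b1.1, b1.2]
  · rw [abs_le]
    constructor <;> nlinarith [e2.1, e2.2, b2.1, b2.2]

/-- step 3 -/
theorem Od.a_two (hα : 0 < α) (hα1 : α < 1) (h : Od α C E R r a b Y) {T' : ℝ} (hT : 0 < T')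
    (hR : 2 * C < R) {Λ : ℝ} (hΛ : 1 ≤ Λ) (hΛR : C * Λ < R) {t : ℝ} (ht0 : 0 ≤ t)
    (ht : r * t ≤ T') : |r * pri a t 2| ≤ C / Λ + aK C E T' Λ * r ^ α := by
  have hC := h.one_le
  have hC0 : 0 < C := by linarith
  have hr := h.r_pos
  have hE := h.E_nn
  have hΛ0 : 0 < Λ := by linarith
  have hra : 0 ≤ r ^ α := Real.rpow_nonneg hr.le _
  have haD := aD_nonneg hC hE hT
  obtain ⟨L, hL⟩ : ∃ L, L = C * Λ := ⟨_, rfl⟩
  obtain ⟨D, hD⟩ : ∃ D, D = aD C E T' := ⟨_, rfl⟩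
  have hD0 : 0 ≤ D := hD ▸ haD
  have hL1 : 1 ≤ L := by rw [hL]; nlinarith
  have hL0 : 0 < L := by linarith
  have hΛL : Λ ≤ L := by rw [hL]; nlinarith
  -- the label
  obtain ⟨y, hy⟩ : ∃ y : ℂ, y = (Λ : ℂ) * Complex.I := ⟨_, rfl⟩
  have hyn : ‖y‖ = Λ := by
    rw [hy, norm_mul, Complex.norm_real, Complex.norm_I, mul_one, Real.norm_of_nonneg hΛ0.le]
  have hyre : y.re = 0 := by rw [hy]; simp
  have hyim : y.im = Λ := by rw [hy]; simp
  have hyR : ‖y‖ < R / C := by rw [hyn, lt_div_iff₀ hC0]; linarith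
  have hY : ∀ s, 0 ≤ s → ‖Y s y‖ ≤ L := fun s hs => by
    have := h.Y_le s hs y hyR
    rwa [hyn, ← hL] at this
  have hpw : ∀ x : ℝ, 0 ≤ x → x ≤ L → x ^ 2 ≤ L ^ 3 ∧ x ^ (2 + α) ≤ L ^ 3 ∧ x ^ 3 ≤ L ^ 3 := by
    intro x hx0 hx
    refine ⟨?_, ?_, pow_le_pow_left₀ hx0 hx 3⟩
    · exact (pow_le_pow_left₀ hx0 hx 2).trans (pow_le_pow_right₀ hL1 (by norm_num))
    · refine (Real.rpow_le_rpow hx0 hx (by linarith)).trans ?_
      have := Real.rpow_le_rpow_of_exponent_le hL1 (by linarith : 2 + α ≤ 3)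
      refine this.trans (le_of_eq ?_)
      rw [← Real.rpow_natCast]; norm_num
  -- the truncated coefficients
  obtain ⟨a', ha'⟩ : ∃ a' : ℝ → Fin 3 → ℝ, a' = fun τ i => if i = 2 then 0 else a τ i := ⟨_, rfl⟩
  have ha'c : Continuous a' := by
    rw [ha']
    refine continuous_pi fun i => ?_
    by_cases hi : i = 2
    · simp only [hi, if_true]; exact continuous_const
    · simp only [hi, if_false]; exact (continuous_apply i).comp h.a_cont
  have p0 : ∀ s, pri a' s 0 = pri a s 0 := fun s => by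
    unfold pri; rw [ha']; rfl
  have p1 : ∀ s, pri a' s 1 = pri a s 1 := fun s => by
    unfold pri; rw [ha']; rfl
  have p2 : ∀ s, pri a' s 2 = 0 := fun s => by
    unfold pri; rw [ha']; simp
  have hκ : ∀ s ∈ Icc 0 t, ∀ i, |r * pri a' s i| ≤ D * r ^ α := by
    intro s hs i
    have hst : r * s ≤ T' := (mul_le_mul_of_nonneg_left hs.2 hr.le).trans ht
    have h1 := h.a_div hα hα1 hT hR hs.1 hst
    rw [hD]
    fin_cases i
    · change |r * pri a' s 0| ≤ _
      rw [p0]; exact h1.1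
    · change |r * pri a' s 1| ≤ _
      rw [p1]; exact h1.2
    · change |r * pri a' s 2| ≤ _
      rw [p2, mul_zero, abs_zero]
      positivity
  have hqa : ∀ s z, qua (a s) z = qua (a' s) z + a s 2 * z.im ^ 2 := by
    intro s z
    unfold qua
    rw [ha']
    simp
  -- the function g
  obtain ⟨K, hK⟩ : ∃ K, K = 2 * C * L ^ 3 + 2 * C * E * Λ ^ 2 * L + 24 * C * D * L ^ 4 := ⟨_, rfl⟩
  have hg := mvi (f := fun x => (Y x y).re - r * qua (pri a' x) (Y x y) - r * pri a x 2 * Λ ^ 2)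
    (t := t) (K := r * r ^ α * K) (by
      intro x hx
      obtain ⟨v, hv, hre, him⟩ := h.ode x hx y hyR
      obtain ⟨q1, q2, q3⟩ := hpw ‖Y x y‖ (norm_nonneg _) (hY x hx)
      refine ⟨v.re - r * (qua (a' x) (Y x y) + dqua (pri a' x) (Y x y) v) - r * a x 2 * Λ ^ 2,
        ?_, fun hxt => ?_⟩
      · have hre' : HasDerivWithinAt (fun τ => (Y τ y).re) v.re (Ici 0) x := by
          have := Complex.reCLM.hasFDerivAt.comp_hasDerivWithinAt x hv
          exact this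
        exact (hre'.sub ((qua_deriv ha'c hv).const_mul r)).sub
          ((((pri_deriv h.a_cont 2 x).hasDerivWithinAt).const_mul r).mul_const (Λ ^ 2))
      · have s1 := speed_le hα hα1 hC hr h.r_le (h.a_le x) rfl q1 q2 q3 hre
        have s2 := speed_le hα hα1 hC hr h.r_le (h.b_le x) rfl q1 q2 q3 him
        have s3 := err_le hα hα1 hC hr h.r_le (norm_nonneg _) q2 q3
        have s4 := hre.trans s3
        have s5 := abs_dqua_le (k := fun i => r * pri a' x i) (fun i => hκ x ⟨hx, hxt.le⟩ i) s1 s2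
          (z := Y x y)
        rw [← mul_dqua] at s5
        have s6 : 6 * (D * r ^ α) * ‖Y x y‖ * (4 * C * r * L ^ 3) ≤
            r * r ^ α * (24 * C * D * L ^ 4) := by
          calc _ = 24 * C * D * r * r ^ α * L ^ 3 * ‖Y x y‖ := by ring
            _ ≤ 24 * C * D * r * r ^ α * L ^ 3 * L :=
              mul_le_mul_of_nonneg_left (hY x hx) (by positivity)
            _ = _ := by ring
        have s7 : |r * (a x 2 * ((Y x y).im ^ 2 - Λ ^ 2))| ≤
            r * r ^ α * (2 * C * E * Λ ^ 2 * L) := by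
          have i1 := h.im_le x hx y hyR
          rw [hyim, hyn] at i1
          have i2 : Λ ^ (1 + α) ≤ Λ ^ 2 := by
            have := Real.rpow_le_rpow_of_exponent_le hΛ (by linarith : 1 + α ≤ 2)
            rwa [Real.rpow_two] at this
          have i3 : |(Y x y).im - Λ| ≤ E * r ^ α * Λ ^ 2 :=
            i1.trans (mul_le_mul_of_nonneg_left i2 (by positivity))
          have i4 : |(Y x y).im + Λ| ≤ 2 * L := by
            have j1 := abs_add_le (Y x y).im Λ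
            have j2 := (Complex.abs_im_le_norm (Y x y)).trans (hY x hx)
            rw [abs_of_pos hΛ0] at j1
            linarith
          have i5 : |(Y x y).im ^ 2 - Λ ^ 2| ≤ E * r ^ α * Λ ^ 2 * (2 * L) := by
            have e : (Y x y).im ^ 2 - Λ ^ 2 = ((Y x y).im - Λ) * ((Y x y).im + Λ) := by ring
            rw [e, abs_mul]
            exact mul_le_mul i3 i4 (abs_nonneg _) (by positivity)
          rw [abs_mul, abs_mul, abs_of_pos hr]
          calc r * (|a x 2| * |(Y x y).im ^ 2 - Λ ^ 2|) ≤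
              r * (C * (E * r ^ α * Λ ^ 2 * (2 * L))) :=
                mul_le_mul_of_nonneg_left (mul_le_mul (h.a_le x 2) i5 (abs_nonneg _) hC0.le) hr.le
            _ = _ := by ring
        rw [Real.norm_eq_abs]
        have e : v.re - r * (qua (a' x) (Y x y) + dqua (pri a' x) (Y x y) v) - r * a x 2 * Λ ^ 2 =
            (v.re - r * qua (a x) (Y x y)) + r * (a x 2 * ((Y x y).im ^ 2 - Λ ^ 2)) -
              r * dqua (pri a' x) (Y x y) v := by
          rw [hqa]; ring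
        rw [e]
        have t1 := abs_sub ((v.re - r * qua (a x) (Y x y)) + r * (a x 2 * ((Y x y).im ^ 2 - Λ ^ 2)))
          (r * dqua (pri a' x) (Y x y) v)
        have t2 := abs_add_le (v.re - r * qua (a x) (Y x y)) (r * (a x 2 * ((Y x y).im ^ 2 - Λ ^ 2)))
        have t3 : r * r ^ α * K = 2 * C * (r * r ^ α) * L ^ 3 + r * r ^ α * (2 * C * E * Λ ^ 2 * L) +
            r * r ^ α * (24 * C * D * L ^ 4) := by rw [hK]; ring
        linarith) t ⟨ht0, le_rfl⟩
  simp only [h.start y hyR] at hg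
  have hz : qua (pri a' 0) y = 0 := by
    unfold qua; simp only [pri_zero]; ring
  rw [hz, pri_zero, hyre] at hg
  simp only [mul_zero, zero_mul, sub_zero, Real.norm_eq_abs] at hg
  have hK0 : 0 ≤ K := by rw [hK]; positivity
  have hg2 : r * r ^ α * K * t ≤ T' * (r ^ α * K) := by
    calc _ = (r * t) * (r ^ α * K) := by ring
      _ ≤ _ := mul_le_mul_of_nonneg_right ht (by positivity)
  have u1 : |r * qua (pri a' t) (Y t y)| ≤ 2 * D * L ^ 2 * r ^ α := by
    rw [mul_qua]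
    refine (abs_qua_le (fun i => hκ t ⟨ht0, le_rfl⟩ i) (Y t y)).trans ?_
    have : ‖Y t y‖ ^ 2 ≤ L ^ 2 := pow_le_pow_left₀ (norm_nonneg _) (hY t ht0) 2
    calc 2 * (D * r ^ α) * ‖Y t y‖ ^ 2 ≤ 2 * (D * r ^ α) * L ^ 2 :=
          mul_le_mul_of_nonneg_left this (by positivity)
      _ = _ := by ring
  have u2 : |(Y t y).re| ≤ L := (Complex.abs_re_le_norm _).trans (hY t ht0)
  have u3 : |r * pri a t 2 * Λ ^ 2| ≤ L + 2 * D * L ^ 2 * r ^ α + T' * (r ^ α * K) := by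
    have e : r * pri a t 2 * Λ ^ 2 = (Y t y).re - r * qua (pri a' t) (Y t y) -
        ((Y t y).re - r * qua (pri a' t) (Y t y) - r * pri a t 2 * Λ ^ 2) := by ring
    rw [e]
    have t1 := abs_sub ((Y t y).re - r * qua (pri a' t) (Y t y))
      ((Y t y).re - r * qua (pri a' t) (Y t y) - r * pri a t 2 * Λ ^ 2)
    have t2 := abs_sub ((Y t y).re) (r * qua (pri a' t) (Y t y))
    linarith
  have hKK : aK C E T' Λ = 2 * D * L ^ 2 + K * T' := by
    unfold aK
    rw [hK, ← hL, ← hD]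
  rw [abs_mul, abs_of_pos (by positivity : 0 < Λ ^ 2)] at u3
  have u4 : |r * pri a t 2| ≤ (L + (2 * D * L ^ 2 + K * T') * r ^ α) / Λ ^ 2 := by
    rw [le_div_iff₀ (by positivity)]
    linarith
  refine u4.trans ?_
  rw [hKK, add_div]
  apply add_le_add
  · rw [hL]
    apply le_of_eq
    field_simp
  · apply div_le_self
    · positivity
    · nlinarith

theorem GPic.od {α C R r β g β₀ : ℝ} {w : ℂ → ℝ} {a b : ℝ → Fin 3 → ℝ} {γ μ ν p : ℝ → ℝ}
    {s η m W₁ W₂ : ℝ → ℂ → ℝ} {Y : ℝ → ℂ → ℂ} (hα : 0 < α) (hα1 : α < 1) (hβ₀ : 0 < β₀)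
    (h : GPic α C R r β g w a b γ μ ν p s η m W₁ W₂ Y) (hβ : β₀ ≤ β) :
    Od α C (2 * C ^ 3 / β₀) R r a b Y where
  one_le := h.one_le
  E_nn := by
    have := h.one_le
    have : 0 ≤ C := by linarith
    positivity
  r_pos := h.r_pos
  r_le := h.r_le
  a_le t := (h.slc t).a_le
  b_le t := (h.slc t).b_le
  a_cont := h.a_cont
  b_cont := h.b_cont
  start := h.start
  Y_le := h.Y_le
  ode := h.ode
  im_le := by
    intro t ht y hy
    have hC := h.one_le
    have hC0 : 0 < C := by linarith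
    have hR : 0 < R := by
      have h1 : 0 < R / C := lt_of_le_of_lt (norm_nonneg _) hy
      by_contra h2
      exact absurd h1 (not_lt.2 (div_nonpos_of_nonpos_of_nonneg (not_lt.1 h2) hC0.le))
    have hyR : ‖y‖ < R := hy.trans_le (div_le_self hR.le hC)
    have hYR : ‖Y t y‖ < R := by
      refine lt_of_le_of_lt (h.Y_le t ht y hy) ?_
      rw [lt_div_iff₀ hC0] at hy
      linarith
    have v := h.vort t ht y hy
    have e0 := (h.slc 0).η_le y (by simpa using hyR)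
    have e1 := (h.slc t).η_le (Y t y) (by simpa using hYR)
    have hra : 0 ≤ r ^ α := Real.rpow_nonneg h.r_pos.le _
    have p1 : ‖Y t y‖ ^ (1 + α) ≤ C ^ 2 * ‖y‖ ^ (1 + α) := by
      refine (Real.rpow_le_rpow (norm_nonneg _) (h.Y_le t ht y hy) (by linarith)).trans ?_
      rw [Real.mul_rpow hC0.le (norm_nonneg _)]
      apply mul_le_mul_of_nonneg_right _ (Real.rpow_nonneg (norm_nonneg _) _)
      have := Real.rpow_le_rpow_of_exponent_le hC (by linarith : 1 + α ≤ 2)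
      rwa [Real.rpow_two] at this
    have hp : 0 ≤ ‖y‖ ^ (1 + α) := Real.rpow_nonneg (norm_nonneg _) _
    have e2 : |η 0 y - η t (Y t y)| ≤ 2 * C ^ 3 * ‖y‖ ^ (1 + α) := by
      refine (abs_sub _ _).trans ?_
      have k1 : C * ‖Y t y‖ ^ (1 + α) ≤ C * (C ^ 2 * ‖y‖ ^ (1 + α)) :=
        mul_le_mul_of_nonneg_left p1 hC0.le
      have k2 : C * ‖y‖ ^ (1 + α) ≤ C ^ 3 * ‖y‖ ^ (1 + α) := by
        apply mul_le_mul_of_nonneg_right _ hp
        exact le_self_pow₀ hC (by norm_num)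
      nlinarith
    have e3 : β * ((Y t y).im - y.im) = r ^ α * (η 0 y - η t (Y t y)) := by
      linear_combination v
    have e4 : β * |(Y t y).im - y.im| ≤ r ^ α * (2 * C ^ 3 * ‖y‖ ^ (1 + α)) := by
      have := congrArg abs e3
      rw [abs_mul, abs_mul, abs_of_pos h.β_pos, abs_of_nonneg hra] at this
      rw [this]
      exact mul_le_mul_of_nonneg_left e2 hra
    have e5 : β₀ * |(Y t y).im - y.im| ≤ r ^ α * (2 * C ^ 3 * ‖y‖ ^ (1 + α)) :=
      (mul_le_mul_of_nonneg_right hβ (abs_nonneg _)).trans e4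
    have e6 : |(Y t y).im - y.im| ≤ r ^ α * (2 * C ^ 3 * ‖y‖ ^ (1 + α)) / β₀ := by
      rw [le_div_iff₀ hβ₀]; linarith
    refine e6.trans (le_of_eq ?_)
    ring
  div_le := h.div_le

/-- [GQ] the primitives of the coefficients of the quadratic part of the velocity are small compared
with `1/r` -/
theorem gprim_small {α C β₀ T' ε : ℝ} (hα : 0 < α) (hα1 : α < 1) (hβ₀ : 0 < β₀) (hT : 0 < T')
    (hε : 0 < ε) : ∃ R₀ r₁ : ℝ, 0 < r₁ ∧ ∀ (R r β g : ℝ) (w : ℂ → ℝ) (a b : ℝ → Fin 3 → ℝ)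
      (γ μ ν p : ℝ → ℝ) (s η m W₁ W₂ : ℝ → ℂ → ℝ) (Y : ℝ → ℂ → ℂ),
        GPic α C R r β g w a b γ μ ν p s η m W₁ W₂ Y →
        β₀ ≤ β → R₀ ≤ R → r ≤ r₁ → ∀ t, 0 ≤ t → r * t ≤ T' →
          ∀ i, |r * ∫ τ in (0 : ℝ)..t, a τ i| ≤ ε ∧ |r * ∫ τ in (0 : ℝ)..t, b τ i| ≤ ε := by
  by_cases hC : 1 ≤ C
  swap
  · exact ⟨0, 1, one_pos, fun R r β g w a b γ μ ν p s η m W₁ W₂ Y h => absurd h.one_le hC⟩
  have hC0 : 0 < C := by linarith
  obtain ⟨E, hE⟩ : ∃ E, E = 2 * C ^ 3 / β₀ := ⟨_, rfl⟩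
  have hE0 : 0 ≤ E := by rw [hE]; positivity
  obtain ⟨Λ, hΛ⟩ : ∃ Λ, Λ = max 1 (2 * C / ε) := ⟨_, rfl⟩
  have hΛ1 : 1 ≤ Λ := by rw [hΛ]; exact le_max_left _ _
  have hΛ0 : 0 < Λ := by linarith
  have hΛ2 : 2 * C / ε ≤ Λ := by rw [hΛ]; exact le_max_right _ _
  have hCΛ : C / Λ ≤ ε / 2 := by
    rw [div_le_iff₀ hε] at hΛ2
    rw [div_le_iff₀ hΛ0]
    linarith
  have k1 := bD_nonneg hC hE0 hT
  have k2 := aD_nonneg hC hE0 hT
  have k3 := aK_nonneg hC hE0 hT hΛ1
  obtain ⟨K, hK⟩ : ∃ K, K = aK C E T' Λ + aD C E T' + bD C E T' := ⟨_, rfl⟩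
  have hK0 : 0 ≤ K := by rw [hK]; positivity
  refine ⟨2 * C * Λ + 1, (ε / (2 * (K + 1))) ^ (1 / α), by positivity, ?_⟩
  intro R r β g w a b γ μ ν p s η m W₁ W₂ Y h hβ hR hr t ht0 ht
  have hod : Od α C E R r a b Y := by rw [hE]; exact h.od hα hα1 hβ₀ hβ
  have hR1 : 2 * C < R := by nlinarith
  have hR2 : C * Λ < R := by nlinarith
  have hra : 0 ≤ r ^ α := Real.rpow_nonneg h.r_pos.le _
  have hrα : r ^ α ≤ ε / (2 * (K + 1)) := by
    refine (Real.rpow_le_rpow h.r_pos.le hr hα.le).trans (le_of_eq ?_)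
    rw [← Real.rpow_mul (by positivity), one_div, inv_mul_cancel₀ hα.ne', Real.rpow_one]
  have hKr : K * r ^ α ≤ ε / 2 := by
    refine (mul_le_mul_of_nonneg_left hrα hK0).trans ?_
    rw [mul_div_assoc', div_le_div_iff₀ (by positivity) (by positivity)]
    nlinarith
  have m1 : bD C E T' * r ^ α ≤ K * r ^ α :=
    mul_le_mul_of_nonneg_right (by rw [hK]; linarith) hra
  have m2 : aD C E T' * r ^ α ≤ K * r ^ α :=
    mul_le_mul_of_nonneg_right (by rw [hK]; linarith) hra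
  have m3 : aK C E T' Λ * r ^ α ≤ K * r ^ α :=
    mul_le_mul_of_nonneg_right (by rw [hK]; linarith) hra
  have hb := hod.b_small hα hα1 hT hR1 ht0 ht
  have ha := hod.a_div hα hα1 hT hR1 ht0 ht
  have ha2 := hod.a_two hα hα1 hT hR1 hΛ1 hR2 ht0 ht
  intro i
  constructor
  · change |r * pri a t i| ≤ ε
    fin_cases i
    · exact ha.1.trans (by linarith)
    · exact ha.2.trans (by linarith)
    · exact ha2.trans (by linarith)
  · change |r * pri b t i| ≤ ε
    refine (hb i).trans ?_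
    change bD C E T' * r ^ α ≤ ε
    linarith

end Pool.Agent.YUL
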